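import Pool.Agent.W990.FS.Seq

/-!
# The dynamic program over near-canonical states
-/

namespace Pool.Agent.W990.FS

/-- States: the sizes of the jobs processed so far (sorted), and the present time. -/
abbrev St : Type := List ℕ × ℕ

def cnt (a : ℕ) (l : List ℕ) : ℕ := (l.filter (fun x => decide (x = a))).length

theorem cnt_eq (a : ℕ) (l : List ℕ) : cnt a l = l.count a := by
  unfold cnt
  rw [List.count_eq_countP, List.countP_eq_length_filter]
  congr 1

def insS (a : ℕ) (X : List ℕ) : List ℕ :=
  X.filter (fun x => decide (x ≤ a)) ++ a :: X.filter (fun x => decide (a < x))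

theorem insS_perm (a : ℕ) (X : List ℕ) : (insS a X).Perm (a :: X) := by
  unfold insS
  refine List.perm_middle.trans (List.Perm.cons a ?_)
  have h := List.filter_append_perm (fun x => decide (x ≤ a)) X
  have e : X.filter (fun x => decide (a < x)) = X.filter (fun x => !decide (x ≤ a)) := by
    apply List.filter_congr
    intro x _
    by_cases hx : x ≤ a
    · simp [hx]
    · simp [hx]; omega
  rw [e]
  exact h

theorem insS_sorted {a : ℕ} {X : List ℕ} (h : X.Pairwise (· ≤ ·)) :
    (insS a X).Pairwise (· ≤ ·) := by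
  unfold insS
  rw [List.pairwise_append]
  refine ⟨h.filter _, ?_, ?_⟩
  · rw [List.pairwise_cons]
    refine ⟨?_, h.filter _⟩
    intro x hx
    rw [List.mem_filter] at hx
    have := hx.2
    simp at this
    omega
  · intro x hx y hy
    rw [List.mem_filter] at hx
    have h1 := hx.2
    simp at h1
    rw [List.mem_cons] at hy
    rcases hy with rfl | hy
    · exact h1
    · rw [List.mem_filter] at hy
      have h2 := hy.2
      simp at h2
      omega

/-- The near-canonicity condition. -/
def ncOk (B : ℕ) (p X : List ℕ) : Bool :=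
  p.dedup.all fun x => p.dedup.all fun y =>
    (decide (y ≤ x) || (decide (cnt y X < B) || decide (cnt x p < cnt x X + B)))

def goodSt (p : List ℕ) (B C s0 : ℕ) (st : St) : Bool :=
  (ncOk B p st.1 && decide (st.2 ≤ s0 + st.1.sum + C)) &&
    (p.dedup.all (fun a => decide (cnt a st.1 ≤ cnt a p)) && st.1.all (fun x => decide (x ∈ p)))

def succs (p F : List ℕ) (B C s0 : ℕ) (st : St) : List St :=
  p.dedup.flatMap fun a =>
    ((List.range (C + 1)).filter fun δ =>
      ((!decide (st.2 + δ ∈ F)) && (!decide (st.2 + δ + a ∈ F))) &&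
        goodSt p B C s0 (insS a st.1, st.2 + δ + a)).map
      fun δ => (insS a st.1, st.2 + δ + a)

def step (p F : List ℕ) (B C K s0 : ℕ) (S : List St) : List St :=
  ((S.flatMap (succs p F B C s0)).dedup).take K

def runDP (p F : List ℕ) (B C K s0 : ℕ) : List St :=
  p.foldl (fun S _ => step p F B C K s0 S) [([], s0)]

def ans (p F : List ℕ) (B C K s0 : ℕ) : ℕ :=
  s0 + p.sum + (((List.range (C + 1)).filter
    (fun c => decide (s0 + p.sum + c ∈ (runDP p F B C K s0).map Prod.snd))).head?).getD 0

def firstFree (F : List ℕ) (x : ℕ) : ℕ :=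
  x + (((List.range (F.length + 1)).filter (fun d => !decide (x + d ∈ F))).head?).getD 0

/-- The value computed by the algorithm. -/
def optv (p F : List ℕ) (B C K s0 : ℕ) : ℕ :=
  if F.dedup.length < p.dedup.length then firstFree F (firstFree F s0 + p.sum)
  else ans p F B C K s0

/-- `e` is the least completion time of all sequences of jobs with the sizes `p`, from `s0` on. -/
def IsOpt (p F : List ℕ) (s0 e : ℕ) : Prop :=
  (∃ l, (l.map Prod.snd).Perm p ∧ Seq F s0 l ∧ fin s0 l = e) ∧
    ∀ l, (l.map Prod.snd).Perm p → Seq F s0 l → e ≤ fin s0 l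

theorem head_filter_range {n : ℕ} {q : ℕ → Bool} {d : ℕ} (hd : d < n) (hq : q d = true) :
    ∃ c, ((List.range n).filter q).head? = some c ∧ q c = true ∧ c < n ∧ ∀ c' < c, q c' = false := by
  cases h : (List.range n).filter q with
  | nil =>
    exfalso
    have : d ∈ (List.range n).filter q := by
      rw [List.mem_filter]
      exact ⟨List.mem_range.mpr hd, hq⟩
    rw [h] at this
    simp at this
  | cons c L =>
    have hc : c ∈ (List.range n).filter q := by rw [h]; simp
    rw [List.mem_filter, List.mem_range] at hc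
    refine ⟨c, rfl, hc.2, hc.1, ?_⟩
    intro c' hc'
    by_contra hcon
    have h1 : c' ∈ (List.range n).filter q := by
      rw [List.mem_filter, List.mem_range]
      exact ⟨by omega, by simpa using hcon⟩
    have hs : ((List.range n).filter q).Pairwise (· < ·) := List.pairwise_lt_range.filter _
    rw [h] at h1 hs
    rw [List.mem_cons] at h1
    rcases h1 with rfl | h1
    · omega
    · have := (List.pairwise_cons.mp hs).1 _ h1
      omega

theorem firstFree_spec (F : List ℕ) (x : ℕ) : IsFree F x (firstFree F x) := by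
  classical
  have hex : ∃ d < F.length + 1, (!decide (x + d ∈ F)) = true := by
    by_contra hcon
    push Not at hcon
    have h1 : (Finset.range (F.length + 1)).card ≤ F.toFinset.card := by
      apply Finset.card_le_card_of_injOn (fun d => x + d)
      · intro d hd
        have := hcon d (by simpa using hd)
        simpa using this
      · intro d _ d' _ h
        simp only at h
        omega
    rw [Finset.card_range] at h1
    have := List.toFinset_card_le F
    omega
  obtain ⟨d, hd, hq⟩ := hex
  obtain ⟨c, h1, h2, h3, h4⟩ := head_filter_range (q := fun d => !decide (x + d ∈ F)) hd hq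
  unfold firstFree
  rw [h1]
  refine ⟨by simp, by simpa using h2, ?_⟩
  intro z hz hzc
  simp only [Option.getD_some] at hzc
  have := h4 (z - x) (by omega)
  simp at this
  rwa [show x + (z - x) = z by omega] at this

theorem ncOk_iff {B : ℕ} {p X : List ℕ} : ncOk B p X = true ↔
    ∀ x ∈ p, ∀ y ∈ p, x < y → X.count y < B ∨ p.count x < X.count x + B := by
  unfold ncOk
  simp only [List.all_eq_true, List.mem_dedup, Bool.or_eq_true, decide_eq_true_eq, cnt_eq]
  constructor
  · intro h x hx y hy hxy
    rcases h x hx y hy with h1 | h1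
    · omega
    · exact h1
  · intro h x hx y hy
    rcases Nat.lt_or_ge x y with h1 | h1
    · exact Or.inr (h x hx y hy h1)
    · exact Or.inl h1

theorem goodSt_iff {p : List ℕ} {B C s0 : ℕ} {st : St} : goodSt p B C s0 st = true ↔
    (∀ x ∈ p, ∀ y ∈ p, x < y → st.1.count y < B ∨ p.count x < st.1.count x + B) ∧
    st.2 ≤ s0 + st.1.sum + C ∧ (∀ a, st.1.count a ≤ p.count a) := by
  unfold goodSt
  simp only [Bool.and_eq_true, ncOk_iff, List.all_eq_true, List.mem_dedup, decide_eq_true_eq, cnt_eq]
  constructor
  · rintro ⟨⟨h1, h2⟩, h3, h4⟩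
    refine ⟨h1, h2, fun a => ?_⟩
    by_cases ha : a ∈ p
    · exact h3 a ha
    · have : st.1.count a = 0 := List.count_eq_zero_of_not_mem (fun h => ha (h4 a h))
      omega
  · rintro ⟨h1, h2, h3⟩
    refine ⟨⟨h1, h2⟩, fun a _ => h3 a, fun x hx => ?_⟩
    have h5 := List.count_pos_iff.mpr hx
    have h6 := h3 x
    exact List.count_pos_iff.mp (by omega)

theorem mem_succs {p F : List ℕ} {B C s0 : ℕ} {st st' : St} :
    st' ∈ succs p F B C s0 st ↔ ∃ a ∈ p, ∃ δ ≤ C, st.2 + δ ∉ F ∧ st.2 + δ + a ∉ F ∧
      st' = (insS a st.1, st.2 + δ + a) ∧ goodSt p B C s0 st' = true := by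
  unfold succs
  simp only [List.mem_flatMap, List.mem_dedup, List.mem_map, List.mem_filter, List.mem_range,
    Bool.and_eq_true, Bool.not_eq_true', decide_eq_false_iff_not]
  constructor
  · rintro ⟨a, ha, δ, ⟨hδ, ⟨h1, h2⟩, h3⟩, rfl⟩
    exact ⟨a, ha, δ, by omega, h1, h2, rfl, h3⟩
  · rintro ⟨a, ha, δ, hδ, h1, h2, rfl, h3⟩
    exact ⟨a, ha, δ, ⟨by omega, ⟨h1, h2⟩, h3⟩, rfl⟩

/-- Soundness invariant of a state. -/
def Inv (p F : List ℕ) (B C s0 m : ℕ) (st : St) : Prop :=
  (∃ l, (l.map Prod.snd).Perm st.1 ∧ Seq F s0 l ∧ fin s0 l = st.2) ∧ st.1.length = m ∧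
    st.1.Pairwise (· ≤ ·) ∧ goodSt p B C s0 st = true

theorem Inv.step {p F : List ℕ} {B C s0 m : ℕ} {st st' : St} (h : Inv p F B C s0 m st)
    (h' : st' ∈ succs p F B C s0 st) : Inv p F B C s0 (m + 1) st' := by
  obtain ⟨⟨l, h1, h2, h3⟩, h4, h5, h6⟩ := h
  rw [mem_succs] at h'
  obtain ⟨a, ha, δ, hδ, g1, g2, rfl, g3⟩ := h'
  refine ⟨⟨l ++ [(st.2 + δ, a)], ?_, ?_, ?_⟩, ?_, insS_sorted h5, g3⟩
  · rw [List.map_append]
    refine List.Perm.trans ?_ (insS_perm a st.1).symm
    refine (h1.append_right _).trans ?_
    exact List.perm_append_comm (l₁ := st.1) (l₂ := [a])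
  · rw [seq_append, h3]
    exact ⟨h2, by simp, g1, g2, trivial⟩
  · rw [fin_append, h3]
    rfl
  · rw [(insS_perm a st.1).length_eq, List.length_cons, h4]

theorem sum_count_eq {p X : List ℕ} (h : ∀ a, X.count a ≤ p.count a) :
    ∑ a ∈ p.toFinset, X.count a = X.length := by
  have h1 := Multiset.sum_count_eq_card (s := p.toFinset) (m := (X : Multiset ℕ)) (by
    intro a ha
    rw [List.mem_toFinset]
    have h5 := List.count_pos_iff.mpr (show a ∈ X by simpa using ha)
    have h6 := h a
    exact List.count_pos_iff.mp (by omega))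
  simpa using h1

/-- A code of a count. -/
def cd (B x n : ℕ) : ℕ := if x < B then x else if n < x + B then B + (n - x) else 2 * B

theorem cd_lt {B x n : ℕ} : cd B x n < 2 * B + 1 := by
  unfold cd
  split_ifs <;> omega

theorem cd_inj {B x y n : ℕ} (hx : x ≤ n) (hy : y ≤ n) (h : cd B x n = cd B y n) :
    x = y ∨ (B ≤ x ∧ x + B ≤ n ∧ B ≤ y ∧ y + B ≤ n) := by
  unfold cd at h
  split_ifs at h <;> omega

theorem code_inj {p : List ℕ} {B : ℕ} {X Y : List ℕ} (hl : X.length = Y.length)
    (hX : ∀ a, X.count a ≤ p.count a) (hY : ∀ a, Y.count a ≤ p.count a)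
    (nX : ∀ x ∈ p, ∀ y ∈ p, x < y → X.count y < B ∨ p.count x < X.count x + B)
    (hc : ∀ a ∈ p, cd B (X.count a) (p.count a) = cd B (Y.count a) (p.count a)) : X.Perm Y := by
  rw [List.perm_iff_count]
  intro a
  by_contra hne
  have hap : a ∈ p := by
    by_contra hap
    have h1 := hX a
    have h2 := hY a
    rw [List.count_eq_zero_of_not_mem hap] at h1 h2
    omega
  have hother : ∀ b ∈ p, b ≠ a → X.count b = Y.count b := by
    intro b hb hba
    by_contra hneb
    have h1 := (cd_inj (hX a) (hY a) (hc a hap)).resolve_left hne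
    have h2 := (cd_inj (hX b) (hY b) (hc b hb)).resolve_left hneb
    rcases lt_or_gt_of_ne hba with h | h
    · rcases nX b hb a hap h with h3 | h3 <;> omega
    · rcases nX a hap b hb h with h3 | h3 <;> omega
  have h1 := sum_count_eq hX
  have h2 := sum_count_eq hY
  have hap' : a ∈ p.toFinset := by simpa using hap
  rw [← Finset.sum_erase_add _ _ hap'] at h1 h2
  have h3 : ∑ x ∈ p.toFinset.erase a, X.count x = ∑ x ∈ p.toFinset.erase a, Y.count x := by
    apply Finset.sum_congr rfl
    intro b hb
    rw [Finset.mem_erase] at hb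
    exact hother b (by simpa using hb.2) hb.1
  omega

/-- The number of states of one stage. -/
theorem card_states {p F : List ℕ} {B C s0 m : ℕ} {S : List St} (hS : S.Nodup)
    (hI : ∀ st ∈ S, Inv p F B C s0 m st) :
    S.length ≤ (2 * B + 1) ^ p.dedup.length * (C + 1) := by
  classical
  let code : St → (Fin p.dedup.length → Fin (2 * B + 1)) × Fin (C + 1) := fun st =>
    (fun i => ⟨cd B (st.1.count (p.dedup[i])) (p.count (p.dedup[i])), cd_lt⟩,
      ⟨min (st.2 - (s0 + st.1.sum)) C, by omega⟩)
  have hinj : ∀ st ∈ S, ∀ st' ∈ S, code st = code st' → st = st' := by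
    intro st hst st' hst' e
    obtain ⟨⟨l, a1, a2, a3⟩, a4, a5, a6⟩ := hI st hst
    obtain ⟨⟨l', b1, b2, b3⟩, b4, b5, b6⟩ := hI st' hst'
    rw [goodSt_iff] at a6 b6
    simp only [code, Prod.mk.injEq, Fin.mk.injEq] at e
    obtain ⟨e1, e2⟩ := e
    have hperm : st.1.Perm st'.1 := by
      apply code_inj (a4.trans b4.symm) a6.2.2 b6.2.2 a6.1
      intro a ha
      have ha' : a ∈ p.dedup := List.mem_dedup.mpr ha
      obtain ⟨i, hi, rfl⟩ := List.getElem_of_mem ha'
      have := congrFun e1 ⟨i, hi⟩
      simpa using this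
    have h1 : st.1 = st'.1 := hperm.eq_of_pairwise (fun a b _ _ h h' => le_antisymm h h') a5 b5
    have hs1 := a2.le_fin
    have hs2 := b2.le_fin
    rw [a1.sum_eq, a3] at hs1
    rw [b1.sum_eq, b3] at hs2
    rw [← h1] at hs2 e2
    have h2 : st.2 = st'.2 := by
      have := a6.2.1
      have := b6.2.1
      rw [← h1] at this
      omega
    exact Prod.ext h1 h2
  have h1 : (S.map code).Nodup := List.Nodup.map_on (fun x hx y hy h => hinj x hx y hy h) hS
  have h2 := h1.length_le_card
  rw [List.length_map] at h2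
  simpa [Fintype.card_prod] using h2

theorem iter_inv {p F : List ℕ} {B C K s0 : ℕ} (hB : 0 < B) : ∀ m : ℕ,
    (∀ st ∈ (step p F B C K s0)^[m] [([], s0)], Inv p F B C s0 m st) := by
  intro m
  induction m with
  | zero =>
    intro st hst
    simp only [Function.iterate_zero, id_eq, List.mem_singleton] at hst
    subst hst
    refine ⟨⟨[], by simp, trivial, rfl⟩, rfl, by simp, ?_⟩
    rw [goodSt_iff]
    refine ⟨fun x _ y _ _ => Or.inl (by simpa using hB), by simp, by simp⟩
  | succ m ih =>
    intro st hst
    rw [Function.iterate_succ_apply'] at hst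
    unfold step at hst
    have := List.mem_of_mem_take hst
    rw [List.mem_dedup, List.mem_flatMap] at this
    obtain ⟨st0, h0, h1⟩ := this
    exact (ih st0 h0).step h1

theorem iter_complete {p F : List ℕ} {B C K s0 : ℕ} (hB : 0 < B)
    (hK : (2 * B + 1) ^ p.dedup.length * (C + 1) ≤ K) (l : List (ℕ × ℕ))
    (hperm : (l.map Prod.snd).Perm p) (hseq : Seq F s0 l) (hnc : NCs B l)
    (hC : fin s0 l ≤ s0 + p.sum + C) : ∀ U V : List (ℕ × ℕ), l = U ++ V →
      ∃ X : List ℕ, X.Perm (U.map Prod.snd) ∧
        (X, fin s0 U) ∈ (step p F B C K s0)^[U.length] [([], s0)] := by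
  intro U
  induction U using List.reverseRecOn with
  | nil =>
    intro V _
    exact ⟨[], by simp, by simp [fin]⟩
  | append_singleton U m ih =>
    intro V hUV
    obtain ⟨X, hX, hmem⟩ := ih ([m] ++ V) (by rw [hUV]; simp)
    rw [List.length_append, List.length_singleton, Function.iterate_succ_apply']
    have hseq' := hseq
    rw [hUV, seq_append, seq_append] at hseq'
    obtain ⟨⟨hs1, hs2⟩, hs3⟩ := hseq'
    have hm := hs2
    obtain ⟨hm1, hm2, hm3, _⟩ := hm
    have hsum : p.sum = (U.map Prod.snd).sum + m.2 + (V.map Prod.snd).sum := by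
      rw [← hperm.sum_eq, hUV]
      simp only [List.map_append, List.sum_append, List.map_cons, List.map_nil, List.sum_cons,
        List.sum_nil]
      omega
    have hf1 := hs1.le_fin
    have hf3 := hs3.le_fin
    have hff : fin s0 (U ++ [m]) = m.1 + m.2 := by rw [fin_append]; rfl
    rw [hff] at hf3
    have hfl : fin s0 l = fin (m.1 + m.2) V := by rw [hUV, fin_append, hff]
    have hbound : m.1 + m.2 ≤ s0 + ((U.map Prod.snd).sum + m.2) + C := by
      rw [hfl] at hC
      omega
    refine ⟨insS m.2 X, ?_, ?_⟩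
    · refine (insS_perm _ _).trans ?_
      rw [List.map_append]
      refine (hX.cons _).trans ?_
      simpa using (List.perm_append_comm (l₁ := [m.2]) (l₂ := U.map Prod.snd))
    · have hcount : ∀ a, (insS m.2 X).count a = ((U ++ [m]).map Prod.snd).count a := by
        intro a
        rw [(insS_perm _ _).count_eq, List.map_append, List.count_append, List.count_cons,
          hX.count_eq]
        simp [List.count_cons]
      have hpc : ∀ a, p.count a = ((U ++ [m]).map Prod.snd).count a + (V.map Prod.snd).count a := by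
        intro a
        rw [← hperm.count_eq, hUV, List.map_append, List.count_append]
      have hsucc : (insS m.2 X, fin s0 (U ++ [m])) ∈ succs p F B C s0 (X, fin s0 U) := by
        rw [mem_succs]
        refine ⟨m.2, ?_, m.1 - fin s0 U, ?_, ?_, ?_, ?_, ?_⟩
        · rw [← hperm.mem_iff, hUV]; simp
        · omega
        · simp only
          rwa [show fin s0 U + (m.1 - fin s0 U) = m.1 by omega]
        · simp only
          rwa [show fin s0 U + (m.1 - fin s0 U) = m.1 by omega]
        · simp only
          rw [hff, show fin s0 U + (m.1 - fin s0 U) = m.1 by omega]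
        · rw [goodSt_iff]
          refine ⟨?_, ?_, ?_⟩
          · intro x hx y hy hxy
            simp only
            rcases hnc (U ++ [m]) V hUV x y hxy with h | h
            · left; rw [hcount]; exact h
            · right; rw [hcount, hpc]; omega
          · simp only
            rw [hff, (insS_perm _ _).sum_eq, List.sum_cons, hX.sum_eq]
            omega
          · intro a
            simp only
            rw [hcount, hpc]
            omega
      have hmem2 : (insS m.2 X, fin s0 (U ++ [m])) ∈
          (((step p F B C K s0)^[U.length] [([], s0)]).flatMap (succs p F B C s0)).dedup := by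
        rw [List.mem_dedup, List.mem_flatMap]
        exact ⟨_, hmem, hsucc⟩
      unfold step
      rw [List.take_of_length_le]
      · exact hmem2
      · refine le_trans (card_states (F := F) (s0 := s0) (m := U.length + 1)
          (List.nodup_dedup _) ?_) hK
        intro st hst
        rw [List.mem_dedup, List.mem_flatMap] at hst
        obtain ⟨st0, h0, h1⟩ := hst
        exact (iter_inv hB U.length st0 h0).step h1

theorem runDP_eq (p F : List ℕ) (B C K s0 : ℕ) :
    runDP p F B C K s0 = (step p F B C K s0)^[p.length] [([], s0)] := by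
  unfold runDP
  rw [List.foldl_const]

theorem perm_of_count_le {X p : List ℕ} (h : ∀ a, X.count a ≤ p.count a)
    (hl : X.length = p.length) : X.Perm p := by
  have h1 : X.Subperm p := List.subperm_ext_iff.mpr (fun a _ => h a)
  exact h1.perm_of_length_le hl.ge

/-- The value computed by the algorithm is the optimum. -/
theorem optv_spec {p F : List ℕ} {B C K s0 τ : ℕ} (hpos : ∀ x ∈ p, 0 < x)
    (hτ : F.toFinset.card ≤ τ) (hC : 2 * F.toFinset.card ≤ C) (hB : cB τ (τ + C) ≤ B)
    (hK : p.dedup.length ≤ F.dedup.length → (2 * B + 1) ^ p.dedup.length * (C + 1) ≤ K) :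
    IsOpt p F s0 (optv p F B C K s0) := by
  classical
  have hB0 : 0 < B := by
    have : 0 < cB τ (τ + C) := by unfold cB; omega
    omega
  unfold optv
  split_ifs with h
  · apply many_sizes hpos ?_ (firstFree_spec F s0) (firstFree_spec F _)
    rwa [List.card_toFinset, List.card_toFinset]
  · have hK' := hK (by omega)
    -- the optimum exists
    obtain ⟨l0, e0, hl0, hf0⟩ := exists_seq F p s0 hpos
    have hA := Finset.card_filter_le F.toFinset (fun f => s0 ≤ f)
    have hA' := Finset.card_filter_le F.toFinset (fun f => s0 < f)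
    have hex : ∃ e, ∃ l, (l.map Prod.snd).Perm p ∧ Seq F s0 l ∧ fin s0 l = e :=
      ⟨_, l0, by rw [e0], hl0, rfl⟩
    set e := Nat.find hex with he
    obtain ⟨l, hl1, hl2, hl3⟩ := Nat.find_spec hex
    rw [← he] at hl3
    have hmin : ∀ l, (l.map Prod.snd).Perm p → Seq F s0 l → e ≤ fin s0 l := by
      intro l' h1 h2
      exact Nat.find_min' hex ⟨l', h1, h2, rfl⟩
    have heC : e ≤ s0 + p.sum + C := by
      have := hmin l0 (by rw [e0]) hl0
      omega
    have hge : s0 + p.sum ≤ e := by
      have := hl2.le_fin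
      rw [hl1.sum_eq, hl3] at this
      exact this
    have hposl : ∀ m ∈ l, 0 < m.2 := by
      intro m hm
      apply hpos
      rw [← hl1.mem_iff]
      exact List.mem_map_of_mem hm
    obtain ⟨l', k1, k2, k3, k4⟩ := near_seq (C := C) hτ hposl hl2 (by
      rw [hl1.sum_eq, hl3]; exact heC)
    have k1' := k1.trans hl1
    have k5 : fin s0 l' = e := le_antisymm (by rw [← hl3]; exact k3) (hmin l' k1' k2)
    have k4' : NCs B l' := by
      intro U V hUV x y hxy
      rcases k4 U V hUV x y hxy with h | h
      · left; omega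
      · right; omega
    obtain ⟨X, hX, hmem⟩ := iter_complete hB0 hK' l' k1' k2 k4' (by rw [k5]; exact heC) l' []
      (by simp)
    rw [k5] at hmem
    have hlen : l'.length = p.length := by rw [← k1'.length_eq]; simp
    rw [hlen, ← runDP_eq] at hmem
    -- the answer
    have hc : e - (s0 + p.sum) < C + 1 := by omega
    obtain ⟨c, h1, h2, h3, h4⟩ := head_filter_range (n := C + 1)
      (q := fun c => decide (s0 + p.sum + c ∈ (runDP p F B C K s0).map Prod.snd)) hc (by
        rw [decide_eq_true_eq, show s0 + p.sum + (e - (s0 + p.sum)) = e by omega]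
        exact List.mem_map.mpr ⟨_, hmem, rfl⟩)
    have hans : ans p F B C K s0 = s0 + p.sum + c := by
      unfold ans
      rw [h1]
      rfl
    have hcle : s0 + p.sum + c ≤ e := by
      by_contra hcon
      have := h4 (e - (s0 + p.sum)) (by omega)
      rw [decide_eq_false_iff_not, show s0 + p.sum + (e - (s0 + p.sum)) = e by omega] at this
      exact this (List.mem_map.mpr ⟨_, hmem, rfl⟩)
    rw [decide_eq_true_eq, List.mem_map] at h2
    obtain ⟨st, hst, hst2⟩ := h2
    rw [runDP_eq] at hst
    obtain ⟨⟨l1, m1, m2, m3⟩, m4, m5, m6⟩ := iter_inv hB0 _ st hst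
    rw [goodSt_iff] at m6
    have m7 := perm_of_count_le m6.2.2 m4
    have m8 := hmin l1 (m1.trans m7) m2
    have : ans p F B C K s0 = e := by
      rw [hans]
      rw [m3, hst2] at m8
      omega
    rw [this]
    exact ⟨⟨l, hl1, hl2, hl3⟩, hmin⟩

end Pool.Agent.W990.FS
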