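import Pool.Agent.W990.FS.Alg
import Pool.Agent.H671R2.PolyAuto

/-!
# The dynamic program runs in polynomial time, given its bounds in unary
-/

namespace Pool.Agent.W990.FS

open Pool.Agent.NPC

variable {α β γ : Type} [TEnc α] [TEnc β] [TEnc γ]

/-- Removing repetitions. -/
@[fun_prop]
theorem poly_dedup [DecidableEq β] {l : α → List β} (hl : Poly l) :
    Poly (fun a => (l a).dedup) := by
  obtain ⟨r, hr⟩ := hl.sz_le
  have key : ∀ l : List β, l.foldr (fun b s => if b ∈ s then s else b :: s) [] = l.dedup := by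
    intro l
    induction l with
    | nil => rfl
    | cons b l ih =>
      rw [List.foldr_cons, ih]
      by_cases h : b ∈ l
      · rw [List.dedup_cons_of_mem h, if_pos (List.mem_dedup.2 h)]
      · rw [List.dedup_cons_of_notMem h, if_neg (fun h' => h (List.mem_dedup.1 h'))]
  have hsz : ∀ l : List β, sz (l.dedup) ≤ sz l := by
    intro l
    induction l with
    | nil => simp
    | cons b l ih =>
      by_cases h : b ∈ l
      · rw [List.dedup_cons_of_mem h, sz_list_cons]
        omega
      · rw [List.dedup_cons_of_notMem h, sz_list_cons, sz_list_cons]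
        omega
  refine (Poly.foldr (s := fun _ => [])
    (F := fun _ b (s : List β) => if b ∈ s then s else b :: s)
    hl (NPC.Poly.const _) ?_ r ?_).congr fun a => key _
  · exact Poly.ite (p := fun p : α × β × List β => p.2.1 ∈ p.2.2)
      (Poly.decide_mem (Poly.fst (Poly.snd Poly.id)) (Poly.snd (Poly.snd Poly.id)))
      (Poly.snd (Poly.snd Poly.id)) (Poly.cons
      (Poly.fst (Poly.snd Poly.id)) (Poly.snd (Poly.snd Poly.id)))
  · intro a k _
    rw [key]
    exact (hsz _).trans ((Poly.sz_drop_le _ _).trans (hr a))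

theorem take_eq {α : Type} (l : List α) (n : ℕ) :
    (l.zip (List.replicate n ())).map Prod.fst = l.take n := by
  induction l generalizing n with
  | nil => simp
  | cons a l ih =>
    cases n with
    | zero => simp
    | succ n => simp [List.replicate_succ, ih]

@[fun_prop]
theorem poly_take {l : α → List β} {n : α → ℕ} (hl : Poly l)
    (hn : Poly n) : Poly (fun a => (l a).take (n a)) := by
  have h : UPoly (fun a => Min.min (n a) (l a).length) :=
    UPoly.of_le (Poly.min hn (Poly.length hl)) (UPoly.length hl) (fun a => min_le_right _ _)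
  refine (NPC.Poly.map (F := fun _ p => p.1) (Poly.zip hl h)
    (Poly.fst (Poly.snd Poly.id))).congr ?_
  intro a
  change ((l a).zip (List.replicate (Min.min (n a) (l a).length) ())).map Prod.fst = _
  rw [take_eq]
  rcases le_total (n a) (l a).length with h1 | h1
  · rw [min_eq_left h1]
  · rw [min_eq_right h1, List.take_length, List.take_of_length_le h1]

@[fun_prop]
theorem poly_cnt {a : α → ℕ} {l : α → List ℕ} (ha : Poly a) (hl : Poly l) :
    Poly (fun x => cnt (a x) (l x)) := by
  unfold cnt
  fun_prop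

@[fun_prop]
theorem poly_insS {a : α → ℕ} {l : α → List ℕ} (ha : Poly a) (hl : Poly l) :
    Poly (fun x => insS (a x) (l x)) := by
  unfold insS
  fun_prop

@[fun_prop]
theorem poly_ncOk {B : α → ℕ} {p X : α → List ℕ} (hB : Poly B) (hp : Poly p) (hX : Poly X) :
    Poly (fun x => ncOk (B x) (p x) (X x)) := by
  unfold ncOk
  fun_prop

@[fun_prop]
theorem poly_goodSt {B C s0 : α → ℕ} {p : α → List ℕ} {st : α → St} (hp : Poly p) (hB : Poly B)
    (hC : Poly C) (hs : Poly s0) (hst : Poly st) :
    Poly (fun x => goodSt (p x) (B x) (C x) (s0 x) (st x)) := by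
  unfold goodSt
  fun_prop

/-- `succs` with the list of the idle times as an argument. -/
def succsR (p F : List ℕ) (B C s0 : ℕ) (R : List ℕ) (st : St) : List St :=
  p.dedup.flatMap fun a =>
    (R.filter fun δ =>
      ((!decide (st.2 + δ ∈ F)) && (!decide (st.2 + δ + a ∈ F))) &&
        goodSt p B C s0 (insS a st.1, st.2 + δ + a)).map
      fun δ => (insS a st.1, st.2 + δ + a)

@[fun_prop]
theorem poly_succsR {B C s0 : α → ℕ} {p F R : α → List ℕ} {st : α → St} (hp : Poly p)
    (hF : Poly F) (hB : Poly B) (hC : Poly C) (hs : Poly s0) (hR : Poly R) (hst : Poly st) :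
    Poly (fun x => succsR (p x) (F x) (B x) (C x) (s0 x) (R x) (st x)) := by
  unfold succsR
  fun_prop

theorem succs_eq (p F : List ℕ) (B C s0 : ℕ) (st : St) :
    succs p F B C s0 st = succsR p F B C s0 (List.range (C + 1)) st := rfl

def stepR (p F : List ℕ) (B C K s0 : ℕ) (R : List ℕ) (S : List St) : List St :=
  ((S.flatMap (succsR p F B C s0 R)).dedup).take K

@[fun_prop]
theorem poly_stepR {B C K s0 : α → ℕ} {p F R : α → List ℕ} {S : α → List St} (hp : Poly p)
    (hF : Poly F) (hB : Poly B) (hC : Poly C) (hK : Poly K) (hs : Poly s0) (hR : Poly R)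
    (hS : Poly S) :
    Poly (fun x => stepR (p x) (F x) (B x) (C x) (K x) (s0 x) (R x) (S x)) := by
  unfold stepR
  fun_prop

theorem step_eq (p F : List ℕ) (B C K s0 : ℕ) (S : List St) :
    step p F B C K s0 S = stepR p F B C K s0 (List.range (C + 1)) S := rfl

theorem sz_perm {l l' : List β} (h : l.Perm l') : sz l = sz l' := by
  induction h with
  | nil => rfl
  | cons a _ ih => simp [ih]
  | swap a b l => simp; omega
  | trans _ _ ih1 ih2 => exact ih1.trans ih2

theorem sz_sublist {l l' : List β} (h : l.Sublist l') : sz l ≤ sz l' := by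
  induction h with
  | slnil => simp
  | cons a _ ih => simp; omega
  | cons_cons a _ ih => simp; omega

theorem sz_subperm {l l' : List β} (h : l.Subperm l') : sz l ≤ sz l' := by
  obtain ⟨l1, h1, h2⟩ := h
  rw [← sz_perm h1]
  exact sz_sublist h2

theorem sum_le_of_subperm {l l' : List ℕ} (h : l.Subperm l') : l.sum ≤ l'.sum := by
  obtain ⟨l1, h1, h2⟩ := h
  rw [← h1.sum_eq]
  exact h2.sum_le_sum (fun _ _ => Nat.zero_le _)

theorem iter_small {p F : List ℕ} {B C K s0 : ℕ} : ∀ m : ℕ,
    ((step p F B C K s0)^[m] [([], s0)]).length ≤ K + 1 ∧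
    (∀ st ∈ (step p F B C K s0)^[m] [([], s0)], st.1.Subperm p ∧ st.2 ≤ s0 + p.sum + C) := by
  intro m
  cases m with
  | zero =>
    refine ⟨by simp, ?_⟩
    intro st hst
    simp only [Function.iterate_zero, id_eq, List.mem_singleton] at hst
    subst hst
    exact ⟨List.nil_subperm, by simp; omega⟩
  | succ m =>
    rw [Function.iterate_succ_apply']
    refine ⟨?_, ?_⟩
    · unfold step
      rw [List.length_take]
      omega
    · intro st hst
      unfold step at hst
      have := List.mem_of_mem_take hst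
      rw [List.mem_dedup, List.mem_flatMap] at this
      obtain ⟨st0, h0, h1⟩ := this
      rw [mem_succs] at h1
      obtain ⟨a, ha, δ, hδ, g1, g2, rfl, g3⟩ := h1
      rw [goodSt_iff] at g3
      have h3 := List.subperm_ext_iff.mpr (fun a _ => g3.2.2 a)
      refine ⟨h3, g3.2.1.trans ?_⟩
      have := sum_le_of_subperm h3
      omega

theorem poly_runDP {p F : α → List ℕ} {B C K s0 : α → ℕ} (hp : Poly p) (hF : Poly F) (hB : Poly B)
    (hC : UPoly C) (hK : UPoly K) (hs : Poly s0) :
    Poly (fun x => runDP (p x) (F x) (B x) (C x) (K x) (s0 x)) := by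
  have hC' : Poly C := hC.toPoly
  have hK' : Poly K := hK.toPoly
  have hR : Poly (fun x => List.range (C x + 1)) := (hC.add (UPoly.const 1)).range
  obtain ⟨r1, hr1⟩ := hp.sz_le
  have h2 : Poly (fun x => s0 x + (p x).sum + C x) := by fun_prop
  obtain ⟨r2, hr2⟩ := h2.sz_le
  obtain ⟨r3, hr3⟩ := NPC.Poly.sz_le hK
  have hstep : Poly (fun q : α × List St × ℕ => step (p q.1) (F q.1) (B q.1) (C q.1) (K q.1)
      (s0 q.1) q.2.1) := by
    have e1 : Poly (fun q : α × List St × ℕ => q.1) := NPC.Poly.fst NPC.Poly.id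
    exact poly_stepR (hp.comp e1) (hF.comp e1) (hB.comp e1) (hC'.comp e1) (hK'.comp e1)
      (hs.comp e1) (hR.comp e1) (NPC.Poly.fst (NPC.Poly.snd NPC.Poly.id))
  have h0 : Poly (fun x => ([([], s0 x)] : List St)) := by fun_prop
  refine NPC.Poly.foldl (F := fun x (S : List St) (_ : ℕ) =>
    step (p x) (F x) (B x) (C x) (K x) (s0 x) S) hp h0 hstep
    ((r3 + 1) * (r1 + 2 * r2 + 2) + 1) ?_
  intro a k _
  rw [List.foldl_const]
  obtain ⟨g1, g2⟩ := iter_small (p := p a) (F := F a) (B := B a) (C := C a) (K := K a)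
    (s0 := s0 a) ((p a).take k).length
  have h5 := sz_le_length_mul _ (r1.eval (sz a) + 2 * r2.eval (sz a) + 1) (fun st hst => by
    obtain ⟨h6, h7⟩ := g2 st hst
    have h8 := sz_subperm h6
    have h9 := sz_nat_mono_le h7
    have h10 := hr1 a
    have h11 := hr2 a
    have h12 : sz st = sz st.1 + sz st.2 + 1 := sz_pair st.1 st.2
    omega)
  have h13 := hr3 a
  have h14 := length_lt_sz (List.replicate (K a) ())
  rw [List.length_replicate] at h14
  refine h5.trans ?_
  simp only [Polynomial.eval_add, Polynomial.eval_mul, Polynomial.eval_one, Polynomial.eval_ofNat]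
  refine Nat.add_le_add_right ?_ 1
  exact Nat.mul_le_mul (by omega) (by omega)

def ansR (s : ℕ) (R D : List ℕ) : ℕ :=
  s + ((R.filter (fun c => decide (s + c ∈ D))).head?).getD 0

@[fun_prop]
theorem poly_ansR {s : α → ℕ} {R D : α → List ℕ} (hs : Poly s) (hR : Poly R) (hD : Poly D) :
    Poly (fun x => ansR (s x) (R x) (D x)) := by
  unfold ansR
  fun_prop

theorem ans_eq (p F : List ℕ) (B C K s0 : ℕ) : ans p F B C K s0 =
    ansR (s0 + p.sum) (List.range (C + 1)) ((runDP p F B C K s0).map Prod.snd) := rfl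

theorem poly_ans {p F : α → List ℕ} {B C K s0 : α → ℕ} (hp : Poly p) (hF : Poly F) (hB : Poly B)
    (hC : UPoly C) (hK : UPoly K) (hs : Poly s0) :
    Poly (fun x => ans (p x) (F x) (B x) (C x) (K x) (s0 x)) := by
  have hD := poly_runDP hp hF hB hC hK hs
  have hR : Poly (fun x => List.range (C x + 1)) := (hC.add (UPoly.const 1)).range
  have h1 : Poly (fun x => s0 x + (p x).sum) := by fun_prop
  have h2 : Poly (fun x => (runDP (p x) (F x) (B x) (C x) (K x) (s0 x)).map Prod.snd) :=
    NPC.Poly.map (F := fun _ q => q.2) hD (NPC.Poly.snd (NPC.Poly.snd NPC.Poly.id))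
  exact poly_ansR h1 hR h2

def ffR (F R : List ℕ) (x : ℕ) : ℕ :=
  x + ((R.filter (fun d => !decide (x + d ∈ F))).head?).getD 0

@[fun_prop]
theorem poly_ffR {F R : α → List ℕ} {x : α → ℕ} (hF : Poly F) (hR : Poly R) (hx : Poly x) :
    Poly (fun a => ffR (F a) (R a) (x a)) := by
  unfold ffR
  fun_prop

theorem poly_firstFree {F : α → List ℕ} {x : α → ℕ} (hF : Poly F) (hx : Poly x) :
    Poly (fun a => firstFree (F a) (x a)) :=
  poly_ffR hF ((UPoly.length hF).add (UPoly.const 1)).range hx

theorem poly_optv {p F : α → List ℕ} {B C K s0 : α → ℕ} (hp : Poly p) (hF : Poly F) (hB : Poly B)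
    (hC : UPoly C) (hK : UPoly K) (hs : Poly s0) :
    Poly (fun x => optv (p x) (F x) (B x) (C x) (K x) (s0 x)) := by
  have h1 := poly_ans hp hF hB hC hK hs
  have h2 := poly_firstFree hF hs
  have h3 : Poly (fun x => firstFree (F x) (s0 x) + (p x).sum) :=
    NPC.Poly.add h2 (NPC.Poly.sum hp)
  have h4 := poly_firstFree hF h3
  have h5 : Poly (fun x => decide ((F x).dedup.length < (p x).dedup.length)) := by fun_prop
  exact NPC.Poly.ite (p := fun x => (F x).dedup.length < (p x).dedup.length) h5 h4 h1

end Pool.Agent.W990.FS
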