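import Pool.Agent.W990.FS.AlgPoly

/-!
# The optimal sequence, and the optimal schedule, by self-reduction
-/

namespace Pool.Agent.W990.FS

open Pool.Agent.NPC

/-- Removing one copy of `a`. -/
def er (a : ℕ) (l : List ℕ) : List ℕ :=
  (l.filter (fun x => decide (x = a))).tail ++ l.filter (fun x => !decide (x = a))

theorem er_perm {a : ℕ} {l : List ℕ} (h : a ∈ l) : (a :: er a l).Perm l := by
  have h1 := List.filter_append_perm (fun x => decide (x = a)) l
  refine List.Perm.trans ?_ h1
  unfold er
  cases hf : l.filter (fun x => decide (x = a)) with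
  | nil =>
    exfalso
    have : a ∈ l.filter (fun x => decide (x = a)) := by simp [h]
    rw [hf] at this
    simp at this
  | cons b L =>
    have hb : b ∈ l.filter (fun x => decide (x = a)) := by rw [hf]; simp
    rw [List.mem_filter] at hb
    have := hb.2
    simp only [decide_eq_true_eq] at this
    subst this
    simp

/-- The caps, in unary. -/
abbrev Caps : Type := List Unit × List Unit × List Unit

def optU (F : List ℕ) (U : Caps) (p : List ℕ) (t : ℕ) : ℕ :=
  optv p F U.1.length U.2.1.length U.2.2.length t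

/-- The possible next jobs. -/
def pick (F : List ℕ) (U : Caps) (E : ℕ) (rem : List ℕ) (t : ℕ) : List (ℕ × ℕ) :=
  rem.flatMap fun a => ((List.range (U.2.1.length + 1)).filter fun δ =>
    (!decide (t + δ ∈ F) && !decide (t + δ + a ∈ F)) &&
      decide (optU F U (er a rem) (t + δ + a) = E)).map fun δ => (t + δ, a)

def bstep (F : List ℕ) (U : Caps) (E : ℕ) (x : List ℕ × ℕ × List (ℕ × ℕ)) :
    List ℕ × ℕ × List (ℕ × ℕ) :=
  (pick F U E x.1 x.2.1).head?.elim x fun m => (er m.2 x.1, m.1 + m.2, x.2.2 ++ [m])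

/-- The optimal sequence. -/
def buildSeq (F : List ℕ) (U : Caps) (p : List ℕ) : List (ℕ × ℕ) :=
  (p.foldl (fun x _ => bstep F U (optU F U p 0) x) (p, 0, [])).2.2

/-- Removing the first pair with second entry `a`. -/
def er2 (a : ℕ) (l : List (ℕ × ℕ)) : List (ℕ × ℕ) :=
  (l.filter (fun x => decide (x.2 = a))).tail ++ l.filter (fun x => !decide (x.2 = a))

def assignStep (x : List ℕ × List (ℕ × ℕ)) (a : ℕ) : List ℕ × List (ℕ × ℕ) :=
  (x.1 ++ [((x.2.filter (fun m => decide (m.2 = a))).map Prod.fst).head?.getD 0], er2 a x.2)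

/-- The start times of the jobs. -/
def assign (p : List ℕ) (l : List (ℕ × ℕ)) : List ℕ := (p.foldl assignStep ([], l)).1

/-- The schedule computed by the algorithm: the list of the start times of the jobs. -/
def sched (F : List ℕ) (U : Caps) (p : List ℕ) : List ℕ := assign p (buildSeq F U p)

/-! ### Correctness -/

theorem IsOpt.unique {p F : List ℕ} {s0 e e' : ℕ} (h : IsOpt p F s0 e) (h' : IsOpt p F s0 e') :
    e = e' := by
  obtain ⟨⟨l, h1, h2, h3⟩, h4⟩ := h
  obtain ⟨⟨l', h1', h2', h3'⟩, h4'⟩ := h'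
  have := h4 l' h1' h2'
  have := h4' l h1 h2
  omega

/-- Admissible caps for `τ` forbidden times. -/
structure CapsOk (F : List ℕ) (U : Caps) : Prop where
  hB : cB F.dedup.length (F.dedup.length + U.2.1.length) ≤ U.1.length
  hC : 2 * F.dedup.length ≤ U.2.1.length
  hK : (2 * U.1.length + 1) ^ F.dedup.length * (U.2.1.length + 1) ≤ U.2.2.length

theorem optU_spec {F : List ℕ} {U : Caps} (hU : CapsOk F U) {p : List ℕ} (hpos : ∀ x ∈ p, 0 < x)
    (t : ℕ) : IsOpt p F t (optU F U p t) := by
  have hc : F.toFinset.card = F.dedup.length := List.card_toFinset F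
  refine optv_spec (τ := F.dedup.length) hpos hc.le (by rw [hc]; exact hU.hC) hU.hB ?_
  intro h
  refine le_trans (Nat.mul_le_mul_right _ ?_) hU.hK
  exact Nat.pow_le_pow_right (by omega) h

theorem optU_le {F : List ℕ} {U : Caps} (hU : CapsOk F U) {p : List ℕ} (hpos : ∀ x ∈ p, 0 < x)
    (t : ℕ) : optU F U p t ≤ t + p.sum + U.2.1.length := by
  obtain ⟨l0, e0, hl0, hf0⟩ := exists_seq F p t hpos
  have hA := Finset.card_filter_le F.toFinset (fun f => t ≤ f)
  have hA' := Finset.card_filter_le F.toFinset (fun f => t < f)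
  have := (optU_spec hU hpos t).2 l0 (by rw [e0]) hl0
  have hc : F.toFinset.card = F.dedup.length := List.card_toFinset F
  have := hU.hC
  omega

theorem mem_pick {F : List ℕ} {U : Caps} {E : ℕ} {rem : List ℕ} {t : ℕ} {m : ℕ × ℕ} :
    m ∈ pick F U E rem t ↔ m.2 ∈ rem ∧ t ≤ m.1 ∧ m.1 ≤ t + U.2.1.length ∧ m.1 ∉ F ∧
      m.1 + m.2 ∉ F ∧ optU F U (er m.2 rem) (m.1 + m.2) = E := by
  unfold pick
  simp only [List.mem_flatMap, List.mem_map, List.mem_filter, List.mem_range,
    Bool.and_eq_true, Bool.not_eq_true', decide_eq_false_iff_not, decide_eq_true_eq]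
  constructor
  · rintro ⟨a, ha, δ, ⟨hδ, ⟨h1, h2⟩, h3⟩, rfl⟩
    exact ⟨ha, by simp, by simp; omega, h1, h2, h3⟩
  · rintro ⟨h1, h2, h3, h4, h5, h6⟩
    refine ⟨m.2, h1, m.1 - t, ⟨by omega, ⟨?_, ?_⟩, ?_⟩, ?_⟩
    · rwa [show t + (m.1 - t) = m.1 by omega]
    · rwa [show t + (m.1 - t) = m.1 by omega]
    · rwa [show t + (m.1 - t) = m.1 by omega]
    · rw [show t + (m.1 - t) = m.1 by omega]

theorem exists_pick {F : List ℕ} {U : Caps} (hU : CapsOk F U) {rem : List ℕ}
    (hpos : ∀ x ∈ rem, 0 < x) (hne : rem ≠ []) {t E : ℕ} (hE : optU F U rem t = E) :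
    pick F U E rem t ≠ [] := by
  obtain ⟨⟨l, h1, h2, h3⟩, h4⟩ := optU_spec hU hpos t
  have h5 := optU_le hU hpos t
  rw [hE] at h3 h4 h5
  cases l with
  | nil =>
    simp only [List.map_nil] at h1
    exact absurd (List.nil_perm.mp h1) hne
  | cons m l =>
    obtain ⟨g1, g2, g3, g4⟩ := h2
    have hm : m.2 ∈ rem := by rw [← h1.mem_iff]; simp
    have hp := er_perm hm
    have hl : (l.map Prod.snd).Perm (er m.2 rem) := by
      have := h1.trans hp.symm
      simpa using this
    have hpos' : ∀ x ∈ er m.2 rem, 0 < x := by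
      intro x hx
      apply hpos
      rw [← hp.mem_iff]
      simp [hx]
    have hf := g4.le_fin
    have hsum : rem.sum = m.2 + (er m.2 rem).sum := by rw [← hp.sum_eq]; simp
    rw [hl.sum_eq] at hf
    change fin (m.1 + m.2) l = E at h3
    have : m ∈ pick F U E rem t := by
      rw [mem_pick]
      refine ⟨hm, g1, by omega, g2, g3, ?_⟩
      refine (optU_spec hU hpos' _).unique ⟨⟨l, hl, g4, h3⟩, ?_⟩
      intro l' k1 k2
      have := h4 (m :: l') ((k1.cons m.2).trans hp) ⟨g1, g2, g3, k2⟩
      exact this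
    intro hcon
    rw [hcon] at this
    simp at this

theorem iter_build {F : List ℕ} {U : Caps} (hU : CapsOk F U) {p : List ℕ}
    (hpos : ∀ x ∈ p, 0 < x) {E : ℕ} (hE : optU F U p 0 = E) : ∀ m ≤ p.length,
    let x := (bstep F U E)^[m] (p, 0, [])
    x.1.length + m = p.length ∧ (x.1 ++ x.2.2.map Prod.snd).Perm p ∧ Seq F 0 x.2.2 ∧
      fin 0 x.2.2 = x.2.1 ∧ optU F U x.1 x.2.1 = E := by
  intro m
  induction m with
  | zero =>
    intro _
    refine ⟨by simp, by simp, trivial, rfl, hE⟩
  | succ m ih =>
    intro hm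
    have ih := ih (by omega)
    intro x
    have hx : x = bstep F U E ((bstep F U E)^[m] (p, 0, [])) := Function.iterate_succ_apply' _ _ _
    set y := (bstep F U E)^[m] (p, 0, []) with hy
    obtain ⟨h1, h2, h3, h4, h5⟩ := ih
    have hne : y.1 ≠ [] := by
      intro hcon
      rw [hcon] at h1
      simp at h1
      omega
    have hposy : ∀ z ∈ y.1, 0 < z := by
      intro z hz
      apply hpos
      rw [← h2.mem_iff]
      simp [hz]
    have h6 := exists_pick hU hposy hne h5
    cases hp : pick F U E y.1 y.2.1 with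
    | nil => exact absurd hp h6
    | cons c L =>
      have hc : c ∈ pick F U E y.1 y.2.1 := by rw [hp]; simp
      rw [mem_pick] at hc
      obtain ⟨c1, c2, c3, c4, c5, c6⟩ := hc
      have hx' : x = (er c.2 y.1, c.1 + c.2, y.2.2 ++ [c]) := by
        rw [hx]
        unfold bstep
        rw [hp]
        rfl
      have hperm := er_perm c1
      rw [hx']
      refine ⟨?_, ?_, ?_, ?_, c6⟩
      · have := hperm.length_eq
        simp only [List.length_cons] at this
        simp only
        omega
      · simp only [List.map_append, List.map_cons, List.map_nil]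
        refine List.Perm.trans ?_ h2
        rw [← List.append_assoc]
        refine (List.perm_append_comm (l₂ := [c.2])).trans ?_
        rw [← List.append_assoc]
        exact List.Perm.append_right _ hperm
      · simp only
        rw [seq_append, h4]
        exact ⟨h3, c2, c4, c5, trivial⟩
      · simp only
        rw [fin_append, h4]
        rfl

theorem buildSeq_spec {F : List ℕ} {U : Caps} (hU : CapsOk F U) {p : List ℕ}
    (hpos : ∀ x ∈ p, 0 < x) : ((buildSeq F U p).map Prod.snd).Perm p ∧ Seq F 0 (buildSeq F U p) ∧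
      fin 0 (buildSeq F U p) = optU F U p 0 := by
  obtain ⟨h1, h2, h3, h4, h5⟩ := iter_build hU hpos rfl p.length le_rfl
  have hb : buildSeq F U p = ((bstep F U (optU F U p 0))^[p.length] (p, 0, [])).2.2 := by
    unfold buildSeq
    rw [List.foldl_const]
  rw [hb]
  have hnil : ((bstep F U (optU F U p 0))^[p.length] (p, 0, [])).1 = [] := by
    rw [← List.length_eq_zero_iff]
    omega
  rw [hnil] at h2 h5
  refine ⟨by simpa using h2, h3, ?_⟩
  rw [h4]
  have h6 := optU_spec hU (p := []) (by simp) ((bstep F U (optU F U p 0))^[p.length] (p, 0, [])).2.1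
  have h7 : IsOpt [] F ((bstep F U (optU F U p 0))^[p.length] (p, 0, [])).2.1
      ((bstep F U (optU F U p 0))^[p.length] (p, 0, [])).2.1 := by
    refine ⟨⟨[], by simp, trivial, rfl⟩, ?_⟩
    intro l _ hl
    have := hl.le_fin
    omega
  have h8 := h6.unique h7
  rw [h5] at h8
  exact h8.symm

theorem er2_perm {a : ℕ} {l : List (ℕ × ℕ)} (h : a ∈ l.map Prod.snd) :
    ((((l.filter (fun m => decide (m.2 = a))).map Prod.fst).head?.getD 0, a) :: er2 a l).Perm l := by
  have h1 := List.filter_append_perm (fun x : ℕ × ℕ => decide (x.2 = a)) l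
  refine List.Perm.trans ?_ h1
  unfold er2
  cases hf : l.filter (fun x => decide (x.2 = a)) with
  | nil =>
    exfalso
    rw [List.mem_map] at h
    obtain ⟨m, hm, hma⟩ := h
    have : m ∈ l.filter (fun x => decide (x.2 = a)) := by simp [hm, hma]
    rw [hf] at this
    simp at this
  | cons b L =>
    have hb : b ∈ l.filter (fun x => decide (x.2 = a)) := by rw [hf]; simp
    rw [List.mem_filter] at hb
    have := hb.2
    simp only [decide_eq_true_eq] at this
    subst this
    simp

theorem assign_aux : ∀ (p : List ℕ) (out : List ℕ) (l : List (ℕ × ℕ)), (l.map Prod.snd).Perm p →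
    ∃ S : List ℕ, S.length = p.length ∧ (p.foldl assignStep (out, l)).1 = out ++ S ∧
      (S.zip p).Perm l := by
  intro p
  induction p with
  | nil =>
    intro out l hl
    have : l = [] := by
      have := hl.length_eq
      simpa using this
    subst this
    exact ⟨[], rfl, by simp, by simp⟩
  | cons a p ih =>
    intro out l hl
    have ha : a ∈ l.map Prod.snd := by rw [hl.mem_iff]; simp
    have hp := er2_perm ha
    have h1 : ((er2 a l).map Prod.snd).Perm p := by
      have := (hp.map Prod.snd).trans hl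
      simpa using this
    rw [List.foldl_cons]
    obtain ⟨S, hS1, hS2, hS3⟩ := ih
      (out ++ [((l.filter (fun m => decide (m.2 = a))).map Prod.fst).head?.getD 0]) (er2 a l) h1
    refine ⟨((l.filter (fun m => decide (m.2 = a))).map Prod.fst).head?.getD 0 :: S, by simp [hS1],
      ?_, ?_⟩
    · have e : assignStep (out, l) a = (out ++ [((l.filter (fun m => decide (m.2 = a))).map
        Prod.fst).head?.getD 0], er2 a l) := rfl
      rw [e, hS2]
      simp
    · simp only [List.zip_cons_cons]
      exact (hS3.cons _).trans hp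

theorem sched_spec {F : List ℕ} {U : Caps} (hU : CapsOk F U) {p : List ℕ}
    (hpos : ∀ x ∈ p, 0 < x) : (sched F U p).length = p.length ∧
      ∃ l, ((sched F U p).zip p).Perm l ∧ Seq F 0 l ∧ fin 0 l = optU F U p 0 := by
  obtain ⟨h1, h2, h3⟩ := buildSeq_spec hU hpos
  obtain ⟨S, g1, g2, g3⟩ := assign_aux p [] _ h1
  have e : sched F U p = S := by
    unfold sched assign
    rw [g2]
    simp
  rw [e]
  exact ⟨g1, _, g3, h2, h3⟩

end Pool.Agent.W990.FS
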