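import Pool.Agent.W990.FS.Build

/-!
# The schedule is computed in polynomial time, given the caps in unary
-/

namespace Pool.Agent.W990.FS

open Pool.Agent.NPC

variable {α β γ : Type} [TEnc α] [TEnc β] [TEnc γ]

@[fun_prop]
theorem poly_er {a : α → ℕ} {l : α → List ℕ} (ha : Poly a) (hl : Poly l) :
    Poly (fun x => er (a x) (l x)) := by
  unfold er
  fun_prop

@[fun_prop]
theorem poly_er2 {a : α → ℕ} {l : α → List (ℕ × ℕ)} (ha : Poly a) (hl : Poly l) :
    Poly (fun x => er2 (a x) (l x)) := by
  unfold er2
  fun_prop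

@[fun_prop]
theorem poly_optU {F p : α → List ℕ} {U : α → Caps} {t : α → ℕ} (hF : Poly F) (hU : Poly U)
    (hp : Poly p) (ht : Poly t) : Poly (fun x => optU (F x) (U x) (p x) (t x)) := by
  have h1 : Poly (fun x => (U x).1) := NPC.Poly.fst hU
  have h2 : Poly (fun x => (U x).2.1) := NPC.Poly.fst (NPC.Poly.snd hU)
  have h3 : Poly (fun x => (U x).2.2) := NPC.Poly.snd (NPC.Poly.snd hU)
  exact poly_optv hp hF (NPC.Poly.length h1) (UPoly.length h2) (UPoly.length h3) ht

/-- `pick` with the list of the idle times as an argument. -/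
def pickR (F : List ℕ) (U : Caps) (E : ℕ) (R : List ℕ) (rem : List ℕ) (t : ℕ) : List (ℕ × ℕ) :=
  rem.flatMap fun a => (R.filter fun δ =>
    (!decide (t + δ ∈ F) && !decide (t + δ + a ∈ F)) &&
      decide (optU F U (er a rem) (t + δ + a) = E)).map fun δ => (t + δ, a)

@[fun_prop]
theorem poly_pickR {F R rem : α → List ℕ} {U : α → Caps} {E t : α → ℕ} (hF : Poly F) (hU : Poly U)
    (hE : Poly E) (hR : Poly R) (hrem : Poly rem) (ht : Poly t) :
    Poly (fun x => pickR (F x) (U x) (E x) (R x) (rem x) (t x)) := by
  unfold pickR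
  fun_prop

@[fun_prop]
theorem poly_pick {F rem : α → List ℕ} {U : α → Caps} {E t : α → ℕ} (hF : Poly F) (hU : Poly U)
    (hE : Poly E) (hrem : Poly rem) (ht : Poly t) :
    Poly (fun x => pick (F x) (U x) (E x) (rem x) (t x)) := by
  have h2 : Poly (fun x => (U x).2.1) := NPC.Poly.fst (NPC.Poly.snd hU)
  have hR : Poly (fun x => List.range ((U x).2.1.length + 1)) :=
    ((UPoly.length h2).add (UPoly.const 1)).range
  exact poly_pickR hF hU hE hR hrem ht

@[fun_prop]
theorem poly_bstep {F : α → List ℕ} {U : α → Caps} {E : α → ℕ}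
    {y : α → List ℕ × ℕ × List (ℕ × ℕ)} (hF : Poly F) (hU : Poly U)
    (hE : Poly E) (hy : Poly y) : Poly (fun x => bstep (F x) (U x) (E x) (y x)) := by
  unfold bstep
  fun_prop

theorem er_subperm (a : ℕ) (l : List ℕ) : (er a l).Subperm l := by
  have h1 := List.filter_append_perm (fun x => decide (x = a)) l
  refine List.Subperm.trans ?_ h1.subperm
  unfold er
  exact ((List.tail_sublist _).append (List.Sublist.refl _)).subperm

theorem er2_subperm (a : ℕ) (l : List (ℕ × ℕ)) : (er2 a l).Subperm l := by
  have h1 := List.filter_append_perm (fun x : ℕ × ℕ => decide (x.2 = a)) l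
  refine List.Subperm.trans ?_ h1.subperm
  unfold er2
  exact ((List.tail_sublist _).append (List.Sublist.refl _)).subperm

theorem iter_bsmall {F : List ℕ} {U : Caps} {p : List ℕ} {E : ℕ} : ∀ m : ℕ,
    ((bstep F U E)^[m] (p, 0, [])).1.Subperm p ∧
    ((bstep F U E)^[m] (p, 0, [])).2.1 + ((bstep F U E)^[m] (p, 0, [])).1.sum ≤
      p.sum + m * U.2.1.length ∧
    ((bstep F U E)^[m] (p, 0, [])).2.2.length ≤ m ∧
    ∀ q ∈ ((bstep F U E)^[m] (p, 0, [])).2.2, q.1 + q.2 ≤ p.sum + m * U.2.1.length := by
  intro m
  induction m with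
  | zero => exact ⟨List.Subperm.refl _, by simp, by simp, by simp⟩
  | succ m ih =>
    rw [Function.iterate_succ_apply']
    generalize (bstep F U E)^[m] (p, 0, []) = y at ih
    obtain ⟨h1, h2, h3, h4⟩ := ih
    have hmul : (m + 1) * U.2.1.length = m * U.2.1.length + U.2.1.length := by ring
    cases hp : pick F U E y.1 y.2.1 with
    | nil =>
      have e : bstep F U E y = y := by
        unfold bstep
        rw [hp]
        rfl
      rw [e]
      refine ⟨h1, by omega, by omega, ?_⟩
      intro q hq
      have := h4 q hq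
      omega
    | cons c L =>
      have e : bstep F U E y = (er c.2 y.1, c.1 + c.2, y.2.2 ++ [c]) := by
        unfold bstep
        rw [hp]
        rfl
      have hc : c ∈ pick F U E y.1 y.2.1 := by rw [hp]; simp
      rw [mem_pick] at hc
      obtain ⟨c1, c2, c3, c4, c5, c6⟩ := hc
      have hperm := er_perm c1
      have hsum : y.1.sum = c.2 + (er c.2 y.1).sum := by rw [← hperm.sum_eq]; simp
      rw [e]
      refine ⟨(er_subperm _ _).trans h1, ?_, ?_, ?_⟩
      · simp only
        omega
      · simp only [List.length_append, List.length_singleton]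
        omega
      · intro q hq
        simp only [List.mem_append, List.mem_singleton] at hq
        rcases hq with hq | rfl
        · have := h4 q hq
          omega
        · omega

@[fun_prop]
theorem poly_buildSeq {F p : α → List ℕ} {U : α → Caps} (hF : Poly F) (hU : Poly U)
    (hp : Poly p) : Poly (fun x => buildSeq (F x) (U x) (p x)) := by
  obtain ⟨r1, hr1⟩ := hp.sz_le
  have h2 : Poly (fun x => (p x).sum + (p x).length * (U x).2.1.length) := by fun_prop
  obtain ⟨r2, hr2⟩ := h2.sz_le
  have hE : Poly (fun x => optU (F x) (U x) (p x) 0) := by fun_prop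
  have h0 : Poly (fun x => ((p x, 0, []) : List ℕ × ℕ × List (ℕ × ℕ))) := by fun_prop
  have hstep : Poly (fun q : α × (List ℕ × ℕ × List (ℕ × ℕ)) × ℕ =>
      bstep (F q.1) (U q.1) (optU (F q.1) (U q.1) (p q.1) 0) q.2.1) := by
    have e1 : Poly (fun q : α × (List ℕ × ℕ × List (ℕ × ℕ)) × ℕ => q.1) :=
      NPC.Poly.fst NPC.Poly.id
    exact poly_bstep (hF.comp e1) (hU.comp e1) (hE.comp e1) (NPC.Poly.fst (NPC.Poly.snd NPC.Poly.id))
  have hfold : Poly (fun x => (p x).foldl (fun y (_ : ℕ) =>
      bstep (F x) (U x) (optU (F x) (U x) (p x) 0) y) ((p x, 0, []) : List ℕ × ℕ × List (ℕ × ℕ))) := by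
    refine NPC.Poly.foldl (F := fun x y (_ : ℕ) =>
      bstep (F x) (U x) (optU (F x) (U x) (p x) 0) y) hp h0 hstep
      (r1 + 2 * r2 + (r1 * (4 * r2 + 2) + 1) + 2) ?_
    intro a k hk
    rw [List.foldl_const]
    obtain ⟨g1, g2, g3, g4⟩ := iter_bsmall (F := F a) (U := U a) (p := p a)
      (E := optU (F a) (U a) (p a) 0) ((p a).take k).length
    have hlen : ((p a).take k).length ≤ (p a).length := by
      rw [List.length_take]
      exact Nat.min_le_right _ _
    generalize (bstep (F a) (U a) (optU (F a) (U a) (p a) 0))^[((p a).take k).length]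
      (p a, 0, []) = y at *
    have hmul : ((p a).take k).length * (U a).2.1.length ≤ (p a).length * (U a).2.1.length :=
      Nat.mul_le_mul_right _ hlen
    have e1 := sz_subperm g1
    have e2 : sz y.2.1 ≤ 2 * sz ((p a).sum + (p a).length * (U a).2.1.length) :=
      sz_nat_mono_le (by omega)
    have e3 := sz_le_length_mul y.2.2 (4 * sz ((p a).sum + (p a).length * (U a).2.1.length) + 1)
      (fun q hq => by
        have := g4 q hq
        have f1 : sz q.1 ≤ 2 * sz ((p a).sum + (p a).length * (U a).2.1.length) :=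
          sz_nat_mono_le (by omega)
        have f2 : sz q.2 ≤ 2 * sz ((p a).sum + (p a).length * (U a).2.1.length) :=
          sz_nat_mono_le (by omega)
        have f3 : sz q = sz q.1 + sz q.2 + 1 := sz_pair q.1 q.2
        omega)
    have e4 : sz y = sz y.1 + (sz y.2.1 + sz y.2.2 + 1) + 1 := by
      have := sz_pair y.1 y.2
      have h5 := sz_pair y.2.1 y.2.2
      change sz y = _ at this
      change sz y.2 = _ at h5
      omega
    have e5 := hr1 a
    have e6 := hr2 a
    have e7 := length_lt_sz (p a)
    have e8 : y.2.2.length * (4 * sz ((p a).sum + (p a).length * (U a).2.1.length) + 1 + 1) ≤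
        r1.eval (sz a) * (4 * r2.eval (sz a) + 2) := Nat.mul_le_mul (by omega) (by omega)
    simp only [Polynomial.eval_add, Polynomial.eval_mul, Polynomial.eval_one,
      Polynomial.eval_ofNat]
    omega
  exact NPC.Poly.snd (NPC.Poly.snd hfold)

theorem assign_small (p : List ℕ) (l : List (ℕ × ℕ)) :
    (p.foldl assignStep ([], l)).2.Subperm l ∧ (p.foldl assignStep ([], l)).1.length = p.length ∧
      ∀ s ∈ (p.foldl assignStep ([], l)).1, sz s ≤ sz l := by
  induction p using List.reverseRecOn with
  | nil => exact ⟨List.Subperm.refl _, rfl, by simp⟩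
  | append_singleton p a ih =>
    rw [List.foldl_append]
    simp only [List.foldl_cons, List.foldl_nil]
    generalize p.foldl assignStep ([], l) = y at ih
    obtain ⟨h1, h2, h3⟩ := ih
    unfold assignStep
    refine ⟨(er2_subperm _ _).trans h1, by simp [h2], ?_⟩
    intro s hs
    simp only [List.mem_append, List.mem_singleton] at hs
    rcases hs with hs | rfl
    · exact h3 s hs
    · cases hf : (y.2.filter (fun m => decide (m.2 = a))) with
      | nil =>
        simp only [List.map_nil, List.head?_nil, Option.getD_none]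
        have h4 : sz (0 : ℕ) = 1 := rfl
        have h5 := sz_pos l
        omega
      | cons b L =>
        simp only [List.map_cons, List.head?_cons, Option.getD_some]
        have hb : b ∈ y.2.filter (fun m => decide (m.2 = a)) := by rw [hf]; simp
        rw [List.mem_filter] at hb
        have hb' : b ∈ l := h1.subset hb.1
        have f1 := sz_le_of_mem hb'
        have f3 : sz b = sz b.1 + sz b.2 + 1 := sz_pair b.1 b.2
        omega

@[fun_prop]
theorem poly_assign {p : α → List ℕ} {l : α → List (ℕ × ℕ)} (hp : Poly p) (hl : Poly l) :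
    Poly (fun x => assign (p x) (l x)) := by
  obtain ⟨r1, hr1⟩ := hp.sz_le
  obtain ⟨r2, hr2⟩ := hl.sz_le
  have h0 : Poly (fun x => (([], l x) : List ℕ × List (ℕ × ℕ))) := by fun_prop
  have hstep : Poly (fun q : α × (List ℕ × List (ℕ × ℕ)) × ℕ => assignStep q.2.1 q.2.2) := by
    unfold assignStep
    fun_prop
  have hfold : Poly (fun x => (p x).foldl assignStep (([], l x) : List ℕ × List (ℕ × ℕ))) := by
    refine NPC.Poly.foldl (F := fun _ y a => assignStep y a) hp h0 hstep
      (r1 * (r2 + 1) + 1 + r2 + 1) ?_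
    intro a k hk
    change sz (((p a).take k).foldl assignStep (([], l a) : List ℕ × List (ℕ × ℕ))) ≤ _
    obtain ⟨g1, g2, g3⟩ := assign_small ((p a).take k) (l a)
    have hlen : ((p a).take k).length ≤ (p a).length := by
      rw [List.length_take]
      exact Nat.min_le_right _ _
    generalize ((p a).take k).foldl assignStep (([], l a) : List ℕ × List (ℕ × ℕ)) = y at *
    have e1 := sz_le_length_mul y.1 (sz (l a)) g3
    have e2 := sz_subperm g1
    have e3 := hr1 a
    have e4 := hr2 a
    have e5 := length_lt_sz (p a)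
    have e6 : sz y = sz y.1 + sz y.2 + 1 := sz_pair y.1 y.2
    have e7 : y.1.length * (sz (l a) + 1) ≤ r1.eval (sz a) * (r2.eval (sz a) + 1) :=
      Nat.mul_le_mul (by omega) (by omega)
    simp only [Polynomial.eval_add, Polynomial.eval_mul, Polynomial.eval_one]
    omega
  exact NPC.Poly.fst hfold

theorem poly_sched {F p : α → List ℕ} {U : α → Caps} (hF : Poly F) (hU : Poly U)
    (hp : Poly p) : Poly (fun x => sched (F x) (U x) (p x)) :=
  poly_assign hp (poly_buildSeq hF hU hp)

end Pool.Agent.W990.FS
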