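import Pool.Agent.W990.FS.Conn

/-!
# Near-canonical paths, when there are many jobs of two sizes without small relations
-/

namespace Pool.Agent.W990.FS

open Finset

/-- Near-canonical: the sizes come in increasing order, with few exceptions. -/
def NC (B : ℕ) (l : List Mv) : Prop :=
  ∀ U V : List Mv, l = U ++ V → ∀ x y : ℕ, x < y → U.count (true, y) < B ∨ V.count (true, x) < B

theorem NC.mono {B B' : ℕ} (h : B ≤ B') {l : List Mv} (hl : NC B l) : NC B' l := by
  intro U V e x y hxy
  rcases hl U V e x y hxy with h1 | h1
  · left; omega
  · right; omega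

/-- Before many moves there is an alive time. -/
theorem exists_alive {F : Finset ℤ} {a b τ : ℕ} : ∀ (n : ℕ) (l : List Mv) (t : ℤ),
    (∀ m ∈ l, 0 < m.2) → ((Eset F a τ).filter (fun x => t ≤ x)).card ≤ n → n ≤ l.length →
    ∃ P M, l = P ++ M ∧ P.length ≤ n ∧ Alive F a b τ (t + (len P : ℕ)) := by
  intro n
  induction n with
  | zero =>
    intro l t hpos hc hn
    refine ⟨[], l, rfl, le_rfl, ?_⟩
    by_contra hcon
    have h1 : t ∈ Eset F a τ := by
      apply mem_Eset_of_not_alive (b := b)
      simpa using hcon
    have : t ∈ (Eset F a τ).filter (fun x => t ≤ x) := Finset.mem_filter.mpr ⟨h1, le_rfl⟩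
    have := Finset.card_pos.mpr ⟨t, this⟩
    omega
  | succ n ih =>
    intro l t hpos hc hn
    by_cases hal : Alive F a b τ t
    · exact ⟨[], l, rfl, by simp, by simpa using hal⟩
    · cases l with
      | nil => simp at hn
      | cons m l =>
        have hm := hpos m (by simp)
        have h1 : t ∈ Eset F a τ := mem_Eset_of_not_alive hal
        have h2 : ((Eset F a τ).filter (fun x => t + (m.2 : ℕ) ≤ x)).card + 1 ≤
            ((Eset F a τ).filter (fun x => t ≤ x)).card := by
          have hnm : t ∉ (Eset F a τ).filter (fun x => t + (m.2 : ℕ) ≤ x) := by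
            rw [Finset.mem_filter]
            rintro ⟨_, h⟩
            omega
          rw [← Finset.card_insert_of_notMem hnm]
          apply Finset.card_le_card
          intro x hx
          rw [Finset.mem_insert] at hx
          rw [Finset.mem_filter]
          rcases hx with rfl | hx
          · exact ⟨h1, le_rfl⟩
          · rw [Finset.mem_filter] at hx
            exact ⟨hx.1, by omega⟩
        obtain ⟨P, M, e, hP, hP'⟩ := ih l (t + (m.2 : ℕ)) (fun x hx => hpos x (by simp [hx]))
          (by omega) (by simpa using hn)
        refine ⟨m :: P, M, by rw [e]; rfl, by simpa using hP, ?_⟩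
        rw [len_cons]
        rwa [show (t + ((m.2 + len P : ℕ) : ℤ)) = t + (m.2 : ℕ) + (len P : ℕ) by omega]

/-- The number of times from which there may be no path. -/
def cN (τ : ℕ) : ℕ := τ * (τ + 1)
/-- The number of extra moves of the dodging lemma. -/
def cW (τ : ℕ) : ℕ := 2 * τ * cN τ
/-- The size of the reserve. -/
def cQ (τ : ℕ) : ℕ := cW τ + 5 * τ + 1

theorem count_true_eq (x : ℕ) (M : List Mv) :
    (((M.filter (fun m => m.1)).map Prod.snd).count x) = M.count (true, x) := by
  induction M with
  | nil => rfl
  | cons m M ih =>
    obtain ⟨c, y⟩ := m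
    cases c
    · simp [ih]
    · by_cases h : y = x
      · subst h; simp [ih]
      · simp [ih, h]

theorem count_map_true (x : ℕ) (l : List ℕ) :
    (l.map (fun x => ((true, x) : Mv))).count (true, x) = l.count x :=
  List.count_map_of_injective l _ (fun a b h => by simpa using h) x

theorem count_map_true_false (x : ℕ) (l : List ℕ) :
    (l.map (fun x => ((true, x) : Mv))).count (false, x) = 0 := by
  apply List.count_eq_zero_of_not_mem
  intro h
  rw [List.mem_map] at h
  obtain ⟨y, _, h⟩ := h
  simp at h

/-- Canonical rearrangement: idle moves, then jobs in increasing order, then the reserve. -/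
theorem canonical (M : List Mv) (a b Q : ℕ) (hab : a ≠ b) (ha : Q ≤ M.count (true, a))
    (hb : Q ≤ M.count (true, b)) :
    ∃ I J : List Mv, (∀ m ∈ I, m.1 = false) ∧ (∀ m ∈ J, m.1 = true) ∧
      J.Pairwise (fun m m' => m.2 ≤ m'.2) ∧
      M.Perm ((I ++ J) ++ (List.replicate Q (true, a) ++ List.replicate Q (true, b))) := by
  classical
  set JS : Multiset ℕ := (((M.filter (fun m => m.1)).map Prod.snd : List ℕ) : Multiset ℕ) -
    Multiset.replicate Q a - Multiset.replicate Q b with hJS
  refine ⟨M.filter (fun m => !m.1), (JS.sort (· ≤ ·)).map (fun x => ((true, x) : Mv)), ?_, ?_, ?_, ?_⟩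
  · intro m hm
    rw [List.mem_filter] at hm
    simpa using hm.2
  · intro m hm
    rw [List.mem_map] at hm
    obtain ⟨y, _, rfl⟩ := hm
    rfl
  · rw [List.pairwise_map]
    exact (Multiset.pairwise_sort JS (· ≤ ·)).imp (fun h => h)
  · rw [List.perm_iff_count]
    rintro ⟨c, x⟩
    simp only [List.count_append, List.count_replicate]
    cases c
    · have h1 : (M.filter (fun m => !m.1)).count (false, x) = M.count (false, x) := by
        rw [List.count_filter]; rfl
      rw [h1, count_map_true_false]
      simp
    · have h1 : (M.filter (fun m => !m.1)).count (true, x) = 0 := by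
        apply List.count_eq_zero_of_not_mem
        intro h
        rw [List.mem_filter] at h
        simp at h
      rw [h1, count_map_true]
      have h2 : (JS.sort (· ≤ ·)).count x = JS.count x := by
        rw [← Multiset.coe_count, Multiset.sort_eq]
      rw [h2, hJS, Multiset.count_sub, Multiset.count_sub, Multiset.coe_count, count_true_eq,
        Multiset.count_replicate, Multiset.count_replicate]
      by_cases hxa : a = x
      · subst hxa
        have : ¬ (b = a) := fun h => hab h.symm
        simp [this]
        omega
      · by_cases hxb : b = x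
        · subst hxb
          simp [hxa]
          omega
        · simp [hxa, hxb]

theorem abw_perm (a b : ℕ) (w : List Bool) : (abw a b w).Perm
    (List.replicate (w.count true) (true, a) ++ List.replicate (w.count false) (true, b)) := by
  induction w with
  | nil => simp
  | cons x w ih =>
    cases x
    · have h1 : abw a b (false :: w) = (true, b) :: abw a b w := rfl
      rw [h1]
      simp only [List.count_cons_self]
      have h2 : (false :: w).count true = w.count true := by simp
      rw [h2, List.replicate_succ]
      exact (ih.cons _).trans List.perm_middle.symm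
    · have h1 : abw a b (true :: w) = (true, a) :: abw a b w := rfl
      rw [h1]
      simp only [List.count_cons_self]
      have h2 : (true :: w).count false = w.count false := by simp
      rw [h2, List.replicate_succ]
      exact ih.cons _

theorem count_le_of_length {l : List Mv} {n : ℕ} (h : l.length ≤ n) (x : Mv) : l.count x ≤ n :=
  List.count_le_length.trans h

theorem caseA {F : Finset ℤ} {t : ℤ} {l : List Mv} {τ a b : ℕ} (hF : F.card ≤ τ)
    (hpos : ∀ m ∈ l, 0 < m.2) (hav : Av F t l) (ha : 0 < a) (hb : 0 < b) (hab : a ≠ b)
    (hca : cQ τ + 2 * cN τ ≤ l.count (true, a)) (hcb : cQ τ + 2 * cN τ ≤ l.count (true, b))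
    (hind : Ind a b (cQ τ)) :
    ∃ l', l'.Perm l ∧ Av F t l' ∧ NC (2 * cQ τ + 2 * cN τ + cW τ + 1) l' := by
  classical
  have hE : ∀ F' : Finset ℤ, F'.card ≤ τ → (Eset F' a τ).card ≤ cN τ := by
    intro F' hF'
    exact (card_Eset F' a τ).trans (Nat.mul_le_mul_right _ hF')
  have hlen : cQ τ + 2 * cN τ ≤ l.length := hca.trans List.count_le_length
  -- the beginning
  obtain ⟨P, M1, e1, hP, hPal⟩ := exists_alive (F := F) (a := a) (b := b) (τ := τ) (cN τ) l t hpos
    ((Finset.card_filter_le _ _).trans (hE F hF)) (by omega)
  -- the end
  have hM1len : cN τ ≤ M1.length := by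
    have := congrArg List.length e1
    rw [List.length_append] at this
    omega
  obtain ⟨S', M', e2, hS', hSal⟩ := exists_alive (F := negF F) (a := a) (b := b) (τ := τ) (cN τ)
    M1.reverse (-(t + (len P : ℕ) + (len M1 : ℕ))) (fun m hm => hpos m (by
      rw [List.mem_reverse] at hm
      rw [e1]
      simp [hm]))
    ((Finset.card_filter_le _ _).trans (hE _ ((card_negF F).trans hF))) (by simpa using hM1len)
  obtain ⟨M, S, hMS, hM'⟩ : ∃ M S, M1 = M ++ S ∧ S' = S.reverse := by
    refine ⟨M'.reverse, S'.reverse, ?_, by simp⟩
    have := congrArg List.reverse e2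
    rw [List.reverse_reverse, List.reverse_append] at this
    exact this
  subst hM'
  subst hMS
  subst e1
  rw [List.length_reverse] at hS'
  rw [len_reverse, len_append] at hSal
  have hSal' : Alive (negF F) a b τ (-(t + (len P : ℕ) + (len M : ℕ))) := by
    convert hSal using 1
    omega
  rw [av_append, av_append] at hav
  obtain ⟨havP, havM, havS⟩ := hav
  simp only [List.count_append] at hca hcb
  have hcaM : cQ τ ≤ M.count (true, a) := by
    have h1 := count_le_of_length hP (true, a)
    have h2 := count_le_of_length hS' (true, a)
    omega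
  have hcbM : cQ τ ≤ M.count (true, b) := by
    have h1 := count_le_of_length hP (true, b)
    have h2 := count_le_of_length hS' (true, b)
    omega
  obtain ⟨I, J, hI, hJ, hJs, hperm⟩ := canonical M a b (cQ τ) hab hcaM hcbM
  have hposM : ∀ m ∈ M, 0 < m.2 := fun m hm => hpos m (by simp [hm])
  have hposL : ∀ m ∈ I ++ J, 0 < m.2 := by
    intro m hm
    apply hposM
    rw [hperm.mem_iff]
    rw [List.mem_append] at hm ⊢
    left
    rw [List.mem_append]
    exact hm
  obtain ⟨L', n, hins, hn, havL, halL⟩ := dodge hind ha hb (by unfold cQ; omega) hF (I ++ J) hposL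
    (t + (len P : ℕ)) hPal
  have hn' : n ≤ cW τ := hn.trans (Nat.mul_le_mul_left _
    ((Finset.card_filter_le _ _).trans (hE F hF)))
  obtain ⟨w, hw, hLp⟩ := hins.perm
  have hwc := count_add_count w
  obtain ⟨ra, hra⟩ : ∃ ra, w.count true + ra = cQ τ := ⟨cQ τ - w.count true, by unfold cQ; omega⟩
  obtain ⟨rb, hrb⟩ : ∃ rb, w.count false + rb = cQ τ := ⟨cQ τ - w.count false, by unfold cQ; omega⟩
  have hlenM : len M = len (I ++ J) + (cQ τ * a + cQ τ * b) := by
    rw [len_perm hperm, len_append]
    simp [len]
  have hlenL : len L' = len (I ++ J) + (w.count true * a + w.count false * b) := by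
    rw [len_perm hLp, len_append, len_abw]
  have hend : len L' + (ra * a + rb * b) = len M := by
    rw [hlenL, hlenM, ← hra]
    have : w.count true + ra = w.count false + rb := by omega
    calc len (I ++ J) + (w.count true * a + w.count false * b) + (ra * a + rb * b)
        = len (I ++ J) + ((w.count true + ra) * a + (w.count false + rb) * b) := by ring
      _ = len (I ++ J) + ((w.count true + ra) * a + (w.count true + ra) * b) := by rw [← this]
  obtain ⟨w', hw'1, hw'2, hw'3⟩ := connect (t := t + (len P : ℕ) + (len L' : ℕ)) (ra := ra)
    (rb := rb) hind ha hb hF (by unfold cQ at hra; omega) (by omega)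
    (by unfold cQ at hrb; omega) (by omega) halL (by
      convert hSal' using 1
      omega)
  have hw'len : w'.length = ra + rb := by have := count_add_count w'; omega
  have hpermZ : (P ++ (L' ++ (abw a b w' ++ S))).Perm (P ++ (M ++ S)) := by
    apply List.Perm.append_left
    rw [← List.append_assoc]
    apply List.Perm.append_right
    refine List.Perm.trans ?_ hperm.symm
    refine (hLp.append_right _).trans ?_
    rw [List.append_assoc]
    apply List.Perm.append_left
    rw [← abw_append]
    refine (abw_perm a b (w ++ w')).trans ?_
    rw [List.count_append, List.count_append, hw'1, hw'2, hra, hrb]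
  refine ⟨P ++ (L' ++ (abw a b w' ++ S)), hpermZ, ?_, ?_⟩
  · refine havP.glue ?_ rfl
    refine havL.glue ?_ rfl
    refine hw'3.glue havS ?_
    rw [len_abw, hw'1, hw'2]
    omega
  · intro U V hUV x y hxy
    by_contra hcon
    push Not at hcon
    obtain ⟨hU, hV⟩ := hcon
    rcases List.append_eq_append_iff.mp hUV with ⟨U1, rfl, h2⟩ | ⟨P2, rfl, h2⟩
    · -- `U = P ++ U1`
      rcases List.append_eq_append_iff.mp h2 with ⟨U2, rfl, h4⟩ | ⟨V1, h3, rfl⟩
      · -- `U1 = L' ++ U2`
        have h5 : V.count (true, x) ≤ (abw a b w' ++ S).count (true, x) := by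
          rw [h4, List.count_append]
          omega
        have h6 : (abw a b w' ++ S).count (true, x) ≤ 2 * cQ τ + cN τ := by
          apply count_le_of_length
          rw [List.length_append]
          simp only [abw, List.length_map]
          omega
        omega
      · -- `L' = U1 ++ V1`
        obtain ⟨L1, L2, n1, n2, e3, hi1, hi2, hn12⟩ := hins.split U1 V1 h3
        have h7 := hi1.count_le (true, y)
        have h8 := hi2.count_le (true, x)
        rw [List.count_append] at hU hV
        have h9 := count_le_of_length hP (true, y)
        have h6 : (abw a b w' ++ S).count (true, x) ≤ 2 * cQ τ + cN τ := by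
          apply count_le_of_length
          rw [List.length_append]
          simp only [abw, List.length_map]
          omega
        have h10 : 0 < L1.count (true, y) := by omega
        have h11 : 0 < L2.count (true, x) := by omega
        have h12 := List.count_pos_iff.mp h10
        have h13 := List.count_pos_iff.mp h11
        rcases List.append_eq_append_iff.mp e3 with ⟨L3, h14, h15⟩ | ⟨L3, h14, h15⟩
        · -- `L1 = I ++ L3`, `J = L3 ++ L2`
          rw [h14, List.mem_append] at h12
          rcases h12 with h12 | h12
          · have := hI _ h12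
            simp at this
          · rw [h15] at hJs
            have := (List.pairwise_append.mp hJs).2.2 _ h12 _ h13
            simp only at this
            omega
        · -- `I = L1 ++ L3`
          have : (true, y) ∈ I := by rw [h14]; simp [h12]
          have := hI _ this
          simp at this
    · have h5 : U.count (true, y) ≤ cN τ := by
        apply count_le_of_length
        rw [List.length_append] at hP
        omega
      omega

end Pool.Agent.W990.FS
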