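import Pool.Agent.W990.FS.CaseA

/-!
# Near-canonical paths, when all pairs of frequent sizes have small relations
-/

namespace Pool.Agent.W990.FS

open Finset

/-- The potential (twice the integral of time times squared size rates). -/
def pot : ℕ → List Mv → ℕ
  | _, [] => 0
  | t, m :: l => m.2 * (m.2 * (2 * t + m.2)) + pot (t + m.2) l

theorem pot_append (l l' : List Mv) : ∀ t, pot t (l ++ l') = pot t l + pot (t + len l) l' := by
  induction l with
  | nil => intro t; simp [pot]
  | cons m l ih =>
    intro t
    simp only [List.cons_append, pot, ih, len_cons]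
    rw [show t + (m.2 + len l) = t + m.2 + len l by ring]
    ring

theorem pot_replicate (m : Mv) : ∀ (n t : ℕ),
    pot t (List.replicate n m) = m.2 * (n * m.2 * (2 * t + n * m.2)) := by
  intro n
  induction n with
  | zero => intro t; simp [pot]
  | succ n ih =>
    intro t
    simp only [List.replicate_succ, pot, ih]
    ring

theorem len_replicate (n : ℕ) (m : Mv) : len (List.replicate n m) = n * m.2 := by
  simp [len]

/-- A block of jobs in a closed time interval without forbidden times. -/
def Clean (F : Finset ℤ) (t : ℤ) (M : List Mv) : Prop :=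
  (∀ m ∈ M, m.1 = true) ∧ ∀ f ∈ F, ¬ (t ≤ f ∧ f ≤ t + (len M : ℕ))

theorem Clean.mid {F : Finset ℤ} {t : ℤ} {A M C : List Mv} (h : Clean F t (A ++ (M ++ C))) :
    Clean F (t + (len A : ℕ)) M := by
  refine ⟨fun m hm => h.1 m (by simp [hm]), fun f hf => ?_⟩
  have := h.2 f hf
  rw [len_append, len_append] at this
  omega

/-- `l` has the greatest potential of all rearrangements which avoid `F`. -/
def Opt (F : Finset ℤ) (t : ℤ) (l : List Mv) : Prop :=
  Av F t l ∧ ∀ l', l'.Perm l → Av F t l' → pot 0 l' ≤ pot 0 l

theorem exists_opt {F : Finset ℤ} {t : ℤ} {l : List Mv} (h : Av F t l) :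
    ∃ l', l'.Perm l ∧ Opt F t l' := by
  classical
  obtain ⟨l', h1, h2⟩ := Finset.exists_max_image ((l.permutations.toFinset).filter (fun l' => Av F t l'))
    (pot 0) ⟨l, by simp [h]⟩
  rw [Finset.mem_filter, List.mem_toFinset, List.mem_permutations] at h1
  refine ⟨l', h1.1, h1.2, fun l'' h3 h4 => h2 l'' ?_⟩
  rw [Finset.mem_filter, List.mem_toFinset, List.mem_permutations]
  exact ⟨h3.trans h1.1, h4⟩

/-- In an optimal list, clean blocks are sorted. -/
theorem Opt.sorted {F : Finset ℤ} {t : ℤ} {l A M C : List Mv} (h : Opt F t l)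
    (hpos : ∀ m ∈ l, 0 < m.2) (e : l = A ++ (M ++ C)) (hM : Clean F (t + (len A : ℕ)) M) :
    M.Pairwise (fun m m' => m.2 ≤ m'.2) := by
  have htrans : IsTrans Mv (fun m m' => m.2 ≤ m'.2) := ⟨fun _ _ _ h1 h2 => h1.trans h2⟩
  rw [← List.isChain_iff_pairwise, List.isChain_iff_forall_rel_of_append_cons_cons]
  intro m m' l₁ l₂ hm
  by_contra hlt
  push Not at hlt
  obtain ⟨hav, hopt⟩ := h
  have hx := hpos m (by rw [e, hm]; simp)
  have hx' := hpos m' (by rw [e, hm]; simp)
  have hav' : Av F t (A ++ (l₁ ++ m' :: m :: l₂ ++ C)) := by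
    rw [e] at hav
    rw [av_append] at hav ⊢
    refine ⟨hav.1, ?_⟩
    have hav2 := hav.2
    rw [av_append] at hav2 ⊢
    refine ⟨?_, ?_⟩
    · apply av_of_clean
      intro f hf
      have := hM.2 f hf
      rw [hm] at this
      simp only [len_append, len_cons] at this ⊢
      omega
    · have h3 := hav2.2
      rw [hm] at h3
      simp only [len_append, len_cons] at h3 ⊢
      rwa [show len l₁ + (m'.2 + (m.2 + len l₂)) = len l₁ + (m.2 + (m'.2 + len l₂)) by omega]
  have hperm : (A ++ (l₁ ++ m' :: m :: l₂ ++ C)).Perm l := by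
    rw [e, hm]
    apply List.Perm.append_left
    apply List.Perm.append_right
    apply List.Perm.append_left
    exact List.Perm.swap _ _ _
  have h4 := hopt _ hperm hav'
  rw [e, hm] at h4
  simp only [pot_append, pot, len_append, len_cons] at h4
  rw [show 0 + len A + (len l₁ + (m'.2 + (m.2 + len l₂))) =
    0 + len A + (len l₁ + (m.2 + (m'.2 + len l₂))) by omega,
    show 0 + len A + len l₁ + m'.2 + m.2 = 0 + len A + len l₁ + m.2 + m'.2 by omega] at h4
  generalize 0 + len A + len l₁ = s at h4
  have h5 : m'.2 * (m'.2 * (2 * s + m'.2)) + m.2 * (m.2 * (2 * (s + m'.2) + m.2)) ≤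
      m.2 * (m.2 * (2 * s + m.2)) + m'.2 * (m'.2 * (2 * (s + m.2) + m'.2)) := by omega
  obtain ⟨d, hd⟩ := Nat.exists_eq_add_of_lt hlt
  have h6 : m.2 * (m.2 * (2 * s + m.2)) + m'.2 * (m'.2 * (2 * (s + m.2) + m'.2)) +
      2 * (m.2 * (m'.2 * (d + 1))) =
      m'.2 * (m'.2 * (2 * s + m'.2)) + m.2 * (m.2 * (2 * (s + m'.2) + m.2)) := by
    rw [hd]; ring
  have h7 : 0 < m.2 * (m'.2 * (d + 1)) := by positivity
  omega

theorem prefix_count {j : Mv} : ∀ {n : ℕ} {l : List Mv}, n ≤ l.count j →
    ∃ P Q, l = P ++ Q ∧ P.count j = n := by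
  intro n l
  induction l generalizing n with
  | nil =>
    intro h
    have : n = 0 := by simpa using h
    exact ⟨[], [], rfl, by simp [this]⟩
  | cons m l ih =>
    intro h
    cases n with
    | zero => exact ⟨[], m :: l, rfl, rfl⟩
    | succ n =>
      by_cases hm : m = j
      · subst hm
        rw [List.count_cons_self] at h
        obtain ⟨P, Q, e, hP⟩ := ih (n := n) (by omega)
        exact ⟨m :: P, Q, by rw [e]; rfl, by rw [List.count_cons_self, hP]⟩
      · rw [List.count_cons_of_ne (by exact hm)] at h
        obtain ⟨P, Q, e, hP⟩ := ih h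
        exact ⟨m :: P, Q, by rw [e]; rfl, by rw [List.count_cons_of_ne (by exact hm), hP]⟩

theorem exists_clean {F : Finset ℤ} {j : Mv} {R : ℕ} : ∀ (D : ℕ) (U : List Mv) (t : ℤ),
    Av F t U → (F.filter (fun f => t < f)).card + U.countP (fun m => !m.1) ≤ D →
    R * (D + 1) ≤ U.count j →
    ∃ A M C, U = A ++ (M ++ C) ∧ Clean F (t + (len A : ℕ)) M ∧ R ≤ M.count j := by
  intro D
  induction D with
  | zero =>
    intro U t hav hD hc
    refine ⟨[], U, [], by simp, ?_, by simpa using hc⟩
    refine ⟨?_, ?_⟩
    · intro m hm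
      by_contra hcon
      have : 0 < U.countP (fun m => !m.1) := by
        rw [List.countP_pos_iff]
        exact ⟨m, hm, by simpa using hcon⟩
      omega
    · intro f hf hlt
      simp only [len_nil, Nat.cast_zero, add_zero] at hlt
      have hne : f ≠ t := by rintro rfl; exact hav.head hf
      have : f ∈ F.filter (fun f => t < f) := Finset.mem_filter.mpr ⟨hf, by omega⟩
      have := Finset.card_pos.mpr ⟨f, this⟩
      omega
  | succ D ih =>
    intro U t hav hD hc
    have hR : R ≤ U.count j := by
      calc R = R * 1 := (mul_one R).symm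
        _ ≤ R * (D + 1 + 1) := Nat.mul_le_mul_left _ (by omega)
        _ ≤ _ := hc
    obtain ⟨P, Q, e, hP⟩ := prefix_count hR
    by_cases hcl : Clean F t P
    · exact ⟨[], P, Q, by simpa using e, by simpa using hcl, hP.ge⟩
    · subst e
      rw [av_append] at hav
      rw [List.count_append, hP] at hc
      rw [List.countP_append] at hD
      have hsub : F.filter (fun f => t + (len P : ℕ) < f) ⊆ F.filter (fun f => t < f) := by
        intro f hf
        rw [Finset.mem_filter] at hf ⊢
        exact ⟨hf.1, by omega⟩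
      have hD' : (F.filter (fun f => t + (len P : ℕ) < f)).card + Q.countP (fun m => !m.1) ≤ D := by
        unfold Clean at hcl
        rw [not_and_or] at hcl
        rcases hcl with hcl | hcl
        · push Not at hcl
          obtain ⟨m, hm, hm'⟩ := hcl
          have : 0 < P.countP (fun m => !m.1) := by
            rw [List.countP_pos_iff]
            exact ⟨m, hm, by simpa using hm'⟩
          have := Finset.card_le_card hsub
          omega
        · push Not at hcl
          obtain ⟨f, hf, hf1, hf2⟩ := hcl
          have hne : f ≠ t := by rintro rfl; exact hav.1.head hf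
          have hne' : f ≠ t + (len P : ℕ) := by rintro rfl; exact hav.1.last hf
          have hnm : f ∉ F.filter (fun f => t + (len P : ℕ) < f) := by
            rw [Finset.mem_filter]
            rintro ⟨_, h⟩
            omega
          have : (F.filter (fun f => t + (len P : ℕ) < f)).card + 1 ≤
              (F.filter (fun f => t < f)).card := by
            rw [← Finset.card_insert_of_notMem hnm]
            apply Finset.card_le_card
            intro x hx
            rw [Finset.mem_insert] at hx
            rcases hx with rfl | hx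
            · exact Finset.mem_filter.mpr ⟨hf, by omega⟩
            · exact hsub hx
          omega
      have hc' : R * (D + 1) ≤ Q.count j := by
        have : R * (D + 1 + 1) = R * (D + 1) + R := by ring
        omega
      obtain ⟨A, M, C, e, h1, h2⟩ := ih Q (t + (len P : ℕ)) hav.2 hD' hc'
      refine ⟨P ++ A, M, C, by rw [e, List.append_assoc], ?_, h2⟩
      rw [len_append]
      rwa [show (t + ((len P + len A : ℕ) : ℤ)) = t + (len P : ℕ) + (len A : ℕ) by omega]

theorem sorted_block (x : ℕ) : ∀ {M : List Mv}, (∀ m ∈ M, m.1 = true) →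
    M.Pairwise (fun m m' => m.2 ≤ m'.2) →
    M = M.filter (fun m => decide (m.2 < x)) ++ (List.replicate (M.count (true, x)) (true, x) ++
      M.filter (fun m => decide (x < m.2))) := by
  intro M
  induction M with
  | nil => intro _ _; simp
  | cons m M ih =>
    intro hj hs
    rw [List.pairwise_cons] at hs
    have ih' := ih (fun m hm => hj m (by simp [hm])) hs.2
    have hm1 := hj m (by simp)
    rcases lt_trichotomy m.2 x with h | h | h
    · rw [List.filter_cons_of_pos (by simpa using h), List.filter_cons_of_neg (by simp; omega),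
        List.count_cons_of_ne (by rintro rfl; simp at h)]
      rw [List.cons_append, ← ih']
    · have hm : m = (true, x) := Prod.ext hm1 h
      have hlt : M.filter (fun m => decide (m.2 < x)) = [] := by
        rw [List.filter_eq_nil_iff]
        intro m' hm'
        have := hs.1 m' hm'
        simp
        omega
      rw [hlt, List.nil_append] at ih'
      rw [List.filter_cons_of_neg (by simp; omega), List.filter_cons_of_neg (by simp; omega), hlt,
        List.nil_append]
      rw [hm, List.count_cons_self, List.replicate_succ, List.cons_append, ← ih']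
    · have hlt : M.filter (fun m => decide (m.2 < x)) = [] := by
        rw [List.filter_eq_nil_iff]
        intro m' hm'
        have := hs.1 m' hm'
        simp
        omega
      have hc : M.count (true, x) = 0 := by
        apply List.count_eq_zero_of_not_mem
        intro hmem
        have := hs.1 _ hmem
        simp only at this
        omega
      rw [hlt, hc, List.replicate_zero, List.nil_append, List.nil_append] at ih'
      rw [List.filter_cons_of_neg (by simp; omega), List.filter_cons_of_pos (by simpa using h), hlt,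
        List.count_cons_of_ne (by rintro rfl; simp at h), hc, List.replicate_zero, List.nil_append,
        List.nil_append, ← ih']

/-- A long contiguous clean block of one size. -/
theorem exists_block {F : Finset ℤ} {t : ℤ} {l A U C : List Mv} (h : Opt F t l)
    (hpos : ∀ m ∈ l, 0 < m.2) (e : l = A ++ (U ++ C)) {x R D : ℕ}
    (hD : F.card + l.countP (fun m => !m.1) ≤ D) (hc : R * (D + 1) ≤ U.count (true, x)) :
    ∃ A' C', U = A' ++ (List.replicate R (true, x) ++ C') ∧
      Clean F (t + (len (A ++ A') : ℕ)) (List.replicate R (true, x)) := by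
  have hav := h.1
  rw [e, av_append, av_append] at hav
  have hD' : (F.filter (fun f => t + (len A : ℕ) < f)).card + U.countP (fun m => !m.1) ≤ D := by
    have h1 := Finset.card_filter_le F (fun f => t + (len A : ℕ) < f)
    rw [e, List.countP_append, List.countP_append] at hD
    omega
  obtain ⟨A1, M, C1, e1, hcl, hM⟩ := exists_clean D U (t + (len A : ℕ)) hav.2.1 hD' hc
  have e2 : l = (A ++ A1) ++ (M ++ (C1 ++ C)) := by
    rw [e, e1]
    simp
  have hcl' : Clean F (t + (len (A ++ A1) : ℕ)) M := by
    rw [len_append]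
    rwa [show (t + ((len A + len A1 : ℕ) : ℤ)) = t + (len A : ℕ) + (len A1 : ℕ) by omega]
  have hs := h.sorted hpos e2 hcl'
  have hb := sorted_block x hcl'.1 hs
  set M1 := M.filter (fun m => decide (m.2 < x)) with hM1
  set M2 := M.filter (fun m => decide (x < m.2)) with hM2
  obtain ⟨r, hr⟩ := Nat.exists_eq_add_of_le hM
  have hrep : List.replicate (M.count (true, x)) ((true, x) : Mv) =
      List.replicate R (true, x) ++ List.replicate r (true, x) := by
    rw [hr, List.replicate_add]
  rw [hrep, List.append_assoc] at hb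
  refine ⟨A1 ++ M1, List.replicate r (true, x) ++ (M2 ++ C1), ?_, ?_⟩
  · rw [e1]
    conv_lhs => rw [hb]
    simp
  · rw [hb] at hcl'
    have := hcl'.mid
    rw [← List.append_assoc, len_append]
    rwa [show (t + ((len (A ++ A1) + len M1 : ℕ) : ℤ)) =
      t + (len (A ++ A1) : ℕ) + (len M1 : ℕ) by omega]

theorem clean_replicate_le {F : Finset ℤ} {t : ℤ} {R β : ℕ} {m : Mv}
    (h : Clean F t (List.replicate R m)) (hβ : β ≤ R) : ∀ f ∈ F, ¬ (t ≤ f ∧ f ≤ t + ((β * m.2 : ℕ) : ℤ)) := by
  intro f hf hcon
  apply h.2 f hf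
  rw [len_replicate]
  have : β * m.2 ≤ R * m.2 := Nat.mul_le_mul_right _ hβ
  omega

/-- The exchange of two blocks of the same length. -/
theorem exchange {F : Finset ℤ} {t : ℤ} {l A X C : List Mv} {x y α β : ℕ} (h : Opt F t l)
    (hx : 0 < x) (hxy : x < y) (hα : 1 ≤ α) (e : l = A ++ (List.replicate β (true, y) ++
      (X ++ (List.replicate α (true, x) ++ C)))) (hαβ : α * x = β * y)
    (h1 : ∀ f ∈ F, ¬ (t + (len A : ℕ) ≤ f ∧ f ≤ t + (len A : ℕ) + ((β * y : ℕ) : ℤ)))
    (h2 : ∀ f ∈ F, ¬ (t + ((len A + (β * y + len X) : ℕ) : ℤ) ≤ f ∧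
      f ≤ t + ((len A + (β * y + len X) : ℕ) : ℤ) + ((α * x : ℕ) : ℤ))) : False := by
  obtain ⟨hav, hopt⟩ := h
  have hav' : Av F t (A ++ (List.replicate α (true, x) ++
      (X ++ (List.replicate β (true, y) ++ C)))) := by
    rw [e] at hav
    simp only [av_append, len_replicate] at hav ⊢
    obtain ⟨g1, g2, g3, g4, g5⟩ := hav
    simp only [hαβ] at g5 ⊢
    refine ⟨g1, ?_, g3, ?_, g5⟩
    · apply av_of_clean
      intro f hf
      have := h1 f hf
      rw [len_replicate]
      change ¬ (t + (len A : ℕ) ≤ f ∧ f ≤ t + (len A : ℕ) + ((α * x : ℕ) : ℤ))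
      rw [hαβ]
      exact this
    · apply av_of_clean
      intro f hf
      have := h2 f hf
      rw [len_replicate]
      simp only
      omega
  have hperm : (A ++ (List.replicate α (true, x) ++
      (X ++ (List.replicate β (true, y) ++ C)))).Perm l := by
    rw [e, List.perm_iff_count]
    intro m
    simp only [List.count_append]
    omega
  have h4 := hopt _ hperm hav'
  rw [e] at h4
  simp only [pot_append, pot_replicate, len_replicate] at h4
  simp only [hαβ] at h4
  generalize 0 + len A = s at h4
  generalize β * y = L at *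
  have hL : 0 < L := by rw [← hαβ]; positivity
  obtain ⟨d, hd⟩ := Nat.exists_eq_add_of_lt hxy
  have h6 : x * (L * (2 * s + L)) + y * (L * (2 * (s + L + len X) + L)) =
      y * (L * (2 * s + L)) + x * (L * (2 * (s + L + len X) + L)) +
        2 * (L * ((d + 1) * (L + len X))) := by
    rw [hd]; ring
  have h7 : 0 < L * ((d + 1) * (L + len X)) := by positivity
  omega

theorem caseB {F : Finset ℤ} {t : ℤ} {l : List Mv} {R D H : ℕ} 
    (hpos : ∀ m ∈ l, 0 < m.2) (hav : Av F t l) (hD : F.card + l.countP (fun m => !m.1) ≤ D)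
    (hdep : ∀ a b : ℕ, 0 < a → 0 < b → a ≠ b → H ≤ l.count (true, a) → H ≤ l.count (true, b) →
      ¬ Ind a b R) :
    ∃ l', l'.Perm l ∧ Av F t l' ∧ NC (R * (D + 1) + H + 1) l' := by
  obtain ⟨l', hp, hopt⟩ := exists_opt hav
  refine ⟨l', hp, hopt.1, ?_⟩
  have hpos' : ∀ m ∈ l', 0 < m.2 := fun m hm => hpos m (hp.mem_iff.mp hm)
  have hD' : F.card + l'.countP (fun m => !m.1) ≤ D := by
    rw [hp.countP_eq]
    exact hD
  intro U V e x y hxy
  by_contra hcon
  push Not at hcon
  obtain ⟨hU, hV⟩ := hcon
  have hcy : H ≤ l.count (true, y) := by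
    rw [← hp.count_eq, e, List.count_append]
    omega
  have hcx : H ≤ l.count (true, x) := by
    rw [← hp.count_eq, e, List.count_append]
    omega
  have hy0 : 0 < y := by omega
  have hx0 : 0 < x := by
    have : 0 < V.count (true, x) := by omega
    have := List.count_pos_iff.mp this
    exact hpos' (true, x) (by rw [e]; simp [this])
  have hni := hdep x y hx0 hy0 (by omega) hcx hcy
  unfold Ind at hni
  push Not at hni
  obtain ⟨α, β, hα, hαR, hβ, hβR, hαβ⟩ := hni
  obtain ⟨A1, C1, e1, hcl1⟩ := exists_block (A := []) (C := V) hopt hpos' (by simpa using e) hD'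
    (x := y) (R := R) (by omega)
  obtain ⟨A2, C2, e2, hcl2⟩ := exists_block (A := U) (C := []) hopt hpos' (by simpa using e) hD'
    (x := x) (R := R) (by omega)
  obtain ⟨r1, hr1⟩ := Nat.exists_eq_add_of_le hβR
  obtain ⟨r2, hr2⟩ := Nat.exists_eq_add_of_le hαR
  have hsplit1 : List.replicate R ((true, y) : Mv) =
      List.replicate β (true, y) ++ List.replicate r1 (true, y) := by
    rw [hr1, List.replicate_add]
  have hsplit2 : List.replicate R ((true, x) : Mv) =
      List.replicate α (true, x) ++ List.replicate r2 (true, x) := by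
    rw [hr2, List.replicate_add]
  have e3 : l' = A1 ++ (List.replicate β (true, y) ++ ((List.replicate r1 (true, y) ++ (C1 ++ A2)) ++
      (List.replicate α (true, x) ++ (List.replicate r2 (true, x) ++ C2)))) := by
    rw [e]
    conv_lhs => rw [e1, e2]
    rw [hsplit1, hsplit2]
    simp only [List.append_assoc]
  refine exchange hopt hx0 hxy hα e3 hαβ ?_ ?_
  · have := clean_replicate_le hcl1 hβR
    simpa using this
  · have h5 := clean_replicate_le hcl2 hαR
    have h6 : len (U ++ A2) = len A1 + (β * y + len (List.replicate r1 ((true, y) : Mv) ++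
        (C1 ++ A2))) := by
      rw [e1, hsplit1]
      simp only [len_append, len_replicate]
      ring
    rw [h6] at h5
    exact h5

/-- The number of exceptions. -/
def cB (τ D : ℕ) : ℕ := 2 * cQ τ + 2 * cN τ + cW τ + 1 + (cQ τ * (D + 1) + (cQ τ + 2 * cN τ) + 1)

/-- **There are always near-canonical paths.** -/
theorem near {F : Finset ℤ} {t : ℤ} {l : List Mv} {τ D : ℕ} (hF : F.card ≤ τ)
    (hpos : ∀ m ∈ l, 0 < m.2) (hav : Av F t l) (hD : F.card + l.countP (fun m => !m.1) ≤ D) :
    ∃ l', l'.Perm l ∧ Av F t l' ∧ NC (cB τ D) l' := by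
  by_cases h : ∃ a b : ℕ, 0 < a ∧ 0 < b ∧ a ≠ b ∧ cQ τ + 2 * cN τ ≤ l.count (true, a) ∧
      cQ τ + 2 * cN τ ≤ l.count (true, b) ∧ Ind a b (cQ τ)
  · obtain ⟨a, b, ha, hb, hab, hca, hcb, hind⟩ := h
    obtain ⟨l', h1, h2, h3⟩ := caseA hF hpos hav ha hb hab hca hcb hind
    exact ⟨l', h1, h2, h3.mono (by unfold cB; omega)⟩
  · push Not at h
    obtain ⟨l', h1, h2, h3⟩ := caseB (R := cQ τ) (H := cQ τ + 2 * cN τ) hpos hav hD h
    exact ⟨l', h1, h2, h3.mono (by unfold cB; omega)⟩

end Pool.Agent.W990.FS
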