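import Pool.Agent.W990.FS.Dodge

/-!
# Joining two alive times
-/

namespace Pool.Agent.W990.FS

open Finset

theorem Av.glue {F : Finset ℤ} {t s : ℤ} {l l' : List Mv} (h : Av F t l) (h' : Av F s l')
    (e : s = t + (len l : ℕ)) : Av F t (l ++ l') := by
  rw [av_append]
  exact ⟨h, e ▸ h'⟩

theorem abw_replicate_true (a b n : ℕ) : abw a b (List.replicate n true) =
    List.replicate n (true, a) := by simp [abw]

theorem abw_replicate_false (a b n : ℕ) : abw a b (List.replicate n false) =
    List.replicate n (true, b) := by simp [abw]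

theorem connect {F : Finset ℤ} {t : ℤ} {a b τ R ra rb : ℕ} (h : Ind a b R) (ha : 0 < a)
    (hb : 0 < b) (hF : F.card ≤ τ) (hra : 5 * τ ≤ ra) (hraR : ra ≤ R) (hrb : 5 * τ ≤ rb)
    (hrbR : rb ≤ R) (h1 : Alive F a b τ t)
    (h2 : Alive (negF F) a b τ (-(t + ((ra * a + rb * b : ℕ) : ℤ)))) :
    ∃ w : List Bool, w.count true = ra ∧ w.count false = rb ∧ Av F t (abw a b w) := by
  classical
  have hA1 := reach_of_alive h ha hb hF h1 (2 * τ) (by omega)
  have hA2 := reach_of_alive h ha hb ((card_negF F).trans hF) h2 (2 * τ) (by omega)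
  set A1 := reach F t a b (2 * τ) with hA1d
  set A2 := reach (negF F) (-(t + ((ra * a + rb * b : ℕ) : ℤ))) a b (2 * τ) with hA2d
  set Box := ((range (ra + 1)) ×ˢ (range (rb + 1))).filter
    (fun p => t + ((p.1 * a + p.2 * b : ℕ) : ℤ) ∈ F) with hBox
  have hBoxc : Box.card ≤ τ := by
    refine le_trans ?_ hF
    apply Finset.card_le_card_of_injOn (fun p : ℕ × ℕ => t + ((p.1 * a + p.2 * b : ℕ) : ℤ))
    · rintro ⟨x, y⟩ hp
      have hp' : (x, y) ∈ Box := hp
      rw [hBox, Finset.mem_filter] at hp'
      exact hp'.2
    · rintro ⟨x, y⟩ hp ⟨x', y'⟩ hp' e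
      have h3 : (x, y) ∈ Box := hp
      have h4 : (x', y') ∈ Box := hp'
      rw [hBox, Finset.mem_filter, Finset.mem_product, Finset.mem_range, Finset.mem_range] at h3 h4
      simp only at h3 h4 e
      obtain ⟨e1, e2⟩ := h.eq ha hb (x := x) (y := y) (x' := x') (y' := y')
        (by omega) (by omega) (by omega) (by omega) (by omega)
      rw [e1, e2]
  have hgood : ∀ x y : ℕ, x ≤ ra → y ≤ rb → (y ∉ Box.image Prod.snd ∨ x ∉ Box.image Prod.fst) →
      t + ((x * a + y * b : ℕ) : ℤ) ∉ F := by
    intro x y hx hy hxy hm
    have : (x, y) ∈ Box := by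
      rw [hBox, Finset.mem_filter, Finset.mem_product, Finset.mem_range, Finset.mem_range]
      exact ⟨⟨by simp only; omega, by simp only; omega⟩, hm⟩
    rcases hxy with hxy | hxy
    · exact hxy (Finset.mem_image.mpr ⟨_, this, rfl⟩)
    · exact hxy (Finset.mem_image.mpr ⟨_, this, rfl⟩)
  -- the first row
  obtain ⟨y1, hy1, hy1'⟩ := Finset.exists_mem_notMem_of_card_lt_card
    (s := Box.image Prod.snd) (t := A1.image (fun i => 2 * τ - i)) (by
      have hcard : (A1.image (fun i => 2 * τ - i)).card = A1.card := by
        apply Finset.card_image_of_injOn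
        intro i hi j hj e
        have hi' := (mem_reach.mp (show i ∈ A1 from hi)).1
        have hj' := (mem_reach.mp (show j ∈ A1 from hj)).1
        simp only at e
        omega
      have := Finset.card_image_le (s := Box) (f := Prod.snd)
      omega)
  -- the last row
  obtain ⟨y2, hy2, hy2'⟩ := Finset.exists_mem_notMem_of_card_lt_card
    (s := Box.image Prod.snd) (t := A2.image (fun i => rb - (2 * τ - i))) (by
      have hcard : (A2.image (fun i => rb - (2 * τ - i))).card = A2.card := by
        apply Finset.card_image_of_injOn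
        intro i hi j hj e
        have hi' := (mem_reach.mp (show i ∈ A2 from hi)).1
        have hj' := (mem_reach.mp (show j ∈ A2 from hj)).1
        simp only at e
        omega
      have := Finset.card_image_le (s := Box) (f := Prod.snd)
      omega)
  -- the column
  obtain ⟨x, hx, hx'⟩ := Finset.exists_mem_notMem_of_card_lt_card
    (s := Box.image Prod.fst) (t := Finset.Icc (2 * τ) (ra - 2 * τ)) (by
      rw [Nat.card_Icc]
      have := Finset.card_image_le (s := Box) (f := Prod.fst)
      omega)
  rw [Finset.mem_image] at hy1 hy2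
  obtain ⟨i1, hi1, rfl⟩ := hy1
  obtain ⟨i2, hi2, rfl⟩ := hy2
  rw [Finset.mem_Icc] at hx
  obtain ⟨hi1', w1, hw1, hc1, hav1⟩ := mem_reach.mp hi1
  obtain ⟨hi2', w2, hw2, hc2, hav2⟩ := mem_reach.mp hi2
  have hf1 : w1.count false = 2 * τ - i1 := by have := count_add_count w1; omega
  have hf2 : w2.count false = 2 * τ - i2 := by have := count_add_count w2; omega
  have hl1 : len (abw a b w1) = i1 * a + (2 * τ - i1) * b := by rw [len_abw, hc1, hf1]
  have hl2 : len (abw a b w2) = i2 * a + (2 * τ - i2) * b := by rw [len_abw, hc2, hf2]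
  -- arithmetic
  obtain ⟨u, hu⟩ : ∃ u, x = i1 + u := ⟨x - i1, by omega⟩
  obtain ⟨v, hv⟩ : ∃ v, rb - (2 * τ - i2) = 2 * τ - i1 + v := ⟨rb - (2 * τ - i2) - (2 * τ - i1), by omega⟩
  obtain ⟨z, hz⟩ : ∃ z, ra - i2 = x + z := ⟨ra - i2 - x, by omega⟩
  have hra' : ra = i1 + u + z + i2 := by omega
  have hrb' : rb = (2 * τ - i1) + v + (2 * τ - i2) := by omega
  refine ⟨w1 ++ (List.replicate u true ++ (List.replicate v false ++ (List.replicate z true ++
    w2.reverse))), ?_, ?_, ?_⟩
  · simp only [List.count_append, List.count_reverse, hc1, hc2, List.count_replicate]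
    simp
    omega
  · simp only [List.count_append, List.count_reverse, hf1, hf2, List.count_replicate]
    simp
    omega
  · rw [abw_append, abw_append, abw_append, abw_append, abw_replicate_true, abw_replicate_false,
      abw_replicate_true, abw_reverse]
    refine hav1.glue (s := t + ((i1 * a + (2 * τ - i1) * b : ℕ) : ℤ)) ?_ (by rw [hl1])
    refine Av.glue (s := t + (((i1 + u) * a + (2 * τ - i1) * b : ℕ) : ℤ)) ?_ ?_ ?_
    · apply av_replicate
      intro m hm
      have := hgood (i1 + m) (2 * τ - i1) (by omega) (by omega) (Or.inl hy1')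
      convert this using 2
      push_cast
      ring
    · refine Av.glue (s := t + (((i1 + u) * a + (2 * τ - i1 + v) * b : ℕ) : ℤ)) ?_ ?_ ?_
      · apply av_replicate
        intro m hm
        have := hgood (i1 + u) (2 * τ - i1 + m) (by omega) (by omega) (Or.inr (hu ▸ hx'))
        convert this using 2
        push_cast
        ring
      · refine Av.glue (s := t + (((i1 + u + z) * a + (2 * τ - i1 + v) * b : ℕ) : ℤ)) ?_ ?_ ?_
        · apply av_replicate
          intro m hm
          have := hgood (i1 + u + m) (2 * τ - i1 + v) (by omega) (by omega)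
            (Or.inl (hv ▸ hy2'))
          convert this using 2
          push_cast
          ring
        · have h5 := av_reverse hav2
          rw [negF_negF, hl2] at h5
          convert h5 using 1
          rw [hra', hrb']
          push_cast
          ring
        · simp only [len, List.map_replicate, List.sum_replicate, smul_eq_mul]
          push_cast
          ring
      · simp only [len, List.map_replicate, List.sum_replicate, smul_eq_mul]
        push_cast
        ring
    · simp only [len, List.map_replicate, List.sum_replicate, smul_eq_mul]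
      push_cast
      ring

end Pool.Agent.W990.FS
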