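import Mathlib

/-!
# Paths that avoid forbidden times; dodging with two sizes without small relations
-/

namespace Pool.Agent.W990.FS

open Finset

/-- A move: `(true, a)` is a job of length `a`, `(false, d)` is idle time of length `d`. -/
abbrev Mv : Type := Bool × ℕ

/-- Total length of a list of moves. -/
def len (l : List Mv) : ℕ := (l.map Prod.snd).sum

@[simp] theorem len_nil : len [] = 0 := rfl
@[simp] theorem len_cons (m : Mv) (l : List Mv) : len (m :: l) = m.2 + len l := by simp [len]
@[simp] theorem len_append (l l' : List Mv) : len (l ++ l') = len l + len l' := by simp [len]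

theorem len_perm {l l' : List Mv} (h : l.Perm l') : len l = len l' := (h.map _).sum_eq

theorem len_reverse (l : List Mv) : len l.reverse = len l := len_perm (List.reverse_perm l)

/-- All times at the ends of the moves avoid the forbidden times. -/
def Av (F : Finset ℤ) : ℤ → List Mv → Prop
  | t, [] => t ∉ F
  | t, m :: l => t ∉ F ∧ Av F (t + m.2) l

theorem Av.head {F : Finset ℤ} {t : ℤ} {l : List Mv} (h : Av F t l) : t ∉ F := by
  cases l with
  | nil => exact h
  | cons m l => exact h.1

theorem Av.last {F : Finset ℤ} {t : ℤ} {l : List Mv} (h : Av F t l) : t + (len l : ℕ) ∉ F := by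
  induction l generalizing t with
  | nil =>
    have h' : t ∉ F := h
    simpa using h'
  | cons m l ih =>
    have := ih h.2
    rw [len_cons]
    rwa [show (t + ((m.2 + len l : ℕ) : ℤ)) = t + m.2 + (len l : ℕ) by omega]

theorem av_append {F : Finset ℤ} {t : ℤ} {l l' : List Mv} :
    Av F t (l ++ l') ↔ Av F t l ∧ Av F (t + (len l : ℕ)) l' := by
  induction l generalizing t with
  | nil =>
    simp only [List.nil_append, len_nil, Nat.cast_zero, add_zero]
    exact ⟨fun h => ⟨h.head, h⟩, fun h => h.2⟩
  | cons m l ih =>
    simp only [List.cons_append, len_cons]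
    constructor
    · rintro ⟨h1, h2⟩
      rw [ih] at h2
      refine ⟨⟨h1, h2.1⟩, ?_⟩
      rw [show (t + ((m.2 + len l : ℕ) : ℤ)) = t + m.2 + (len l : ℕ) by omega]
      exact h2.2
    · rintro ⟨⟨h1, h2⟩, h3⟩
      refine ⟨h1, ih.mpr ⟨h2, ?_⟩⟩
      rw [show (t + ((m.2 + len l : ℕ) : ℤ)) = t + m.2 + (len l : ℕ) by omega] at h3
      exact h3

/-- If there is no forbidden time in the closed interval, then everything is avoided. -/
theorem av_of_clean {F : Finset ℤ} : ∀ {l : List Mv} {t : ℤ},
    (∀ f ∈ F, ¬ (t ≤ f ∧ f ≤ t + (len l : ℕ))) → Av F t l := by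
  intro l
  induction l with
  | nil =>
    intro t h hm
    exact h t hm (by simp)
  | cons m l ih =>
    intro t h
    rw [len_cons] at h
    refine ⟨fun hm => h t hm (by omega), ih fun f hf => ?_⟩
    have := h f hf
    omega

/-- Reflection of the forbidden times. -/
def negF (F : Finset ℤ) : Finset ℤ := F.image (fun f => -f)

theorem mem_negF {F : Finset ℤ} {f : ℤ} : f ∈ negF F ↔ -f ∈ F := by
  simp only [negF, Finset.mem_image]
  constructor
  · rintro ⟨g, hg, rfl⟩
    simpa using hg
  · intro h
    exact ⟨-f, h, by simp⟩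

theorem card_negF (F : Finset ℤ) : (negF F).card ≤ F.card := Finset.card_image_le

theorem negF_negF (F : Finset ℤ) : negF (negF F) = F := by
  ext f
  rw [mem_negF, mem_negF, neg_neg]

theorem av_reverse {F : Finset ℤ} {t : ℤ} {l : List Mv} (h : Av F t l) :
    Av (negF F) (-(t + (len l : ℕ))) l.reverse := by
  induction l generalizing t with
  | nil =>
    simp only [len_nil, Nat.cast_zero, add_zero, List.reverse_nil]
    intro hm
    rw [mem_negF, neg_neg] at hm
    exact h hm
  | cons m l ih =>
    rw [List.reverse_cons, av_append]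
    have h1 := ih h.2
    refine ⟨?_, ?_⟩
    · rw [len_cons]
      rwa [show (-(t + ((m.2 + len l : ℕ) : ℤ))) = -(t + m.2 + (len l : ℕ)) by omega]
    · rw [len_reverse, len_cons]
      refine ⟨?_, ?_⟩
      · intro hm
        rw [mem_negF] at hm
        apply h.2.head
        rwa [show -(-(t + ((m.2 + len l : ℕ) : ℤ)) + (len l : ℕ)) = t + m.2 by omega] at hm
      · change _ ∉ _
        intro hm
        rw [mem_negF] at hm
        apply h.1
        rwa [show -(-(t + ((m.2 + len l : ℕ) : ℤ)) + (len l : ℕ) + (m.2 : ℕ)) = t by omega] at hm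

/-- A word in the two sizes `a` (for `true`) and `b` (for `false`). -/
def abw (a b : ℕ) (w : List Bool) : List Mv := w.map (fun x => (true, if x then a else b))

@[simp] theorem abw_nil (a b : ℕ) : abw a b [] = [] := rfl
@[simp] theorem abw_append (a b : ℕ) (w w' : List Bool) :
    abw a b (w ++ w') = abw a b w ++ abw a b w' := by simp [abw]
theorem abw_reverse (a b : ℕ) (w : List Bool) : abw a b w.reverse = (abw a b w).reverse := by
  simp [abw]

theorem len_abw (a b : ℕ) (w : List Bool) :
    len (abw a b w) = w.count true * a + w.count false * b := by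
  induction w with
  | nil => simp
  | cons x w ih =>
    have : abw a b (x :: w) = (true, if x then a else b) :: abw a b w := rfl
    rw [this, len_cons, ih]
    cases x
    · simp; ring
    · simp; ring

theorem count_add_count (w : List Bool) : w.count true + w.count false = w.length := by
  induction w with
  | nil => rfl
  | cons x w ih => cases x <;> simp <;> omega

/-- From the time `t` there is a path with `m` moves of lengths `a`, `b` which avoids `F`. -/
def Alive (F : Finset ℤ) (a b m : ℕ) (t : ℤ) : Prop :=
  ∃ w : List Bool, w.length = m ∧ Av F t (abw a b w)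

/-- No small relation between the two sizes. -/
def Ind (a b R : ℕ) : Prop := ∀ i j : ℕ, 1 ≤ i → i ≤ R → 1 ≤ j → j ≤ R → i * a ≠ j * b

theorem Ind.eq {a b R : ℕ} (h : Ind a b R) (ha : 0 < a) (hb : 0 < b) {x y x' y' : ℕ} (hx : x ≤ R)
    (hy : y ≤ R) (hx' : x' ≤ R) (hy' : y' ≤ R) (e : x * a + y * b = x' * a + y' * b) :
    x = x' ∧ y = y' := by
  rcases lt_trichotomy x x' with hlt | heq | hgt
  · exfalso
    obtain ⟨d, rfl⟩ := Nat.exists_eq_add_of_lt hlt
    have h1 : y * b = (d + 1) * a + y' * b := by
      have : (x + d + 1) * a = x * a + (d + 1) * a := by ring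
      rw [this] at e
      omega
    rcases Nat.lt_or_ge y' y with h2 | h2
    · obtain ⟨c, rfl⟩ := Nat.exists_eq_add_of_lt h2
      have h3 : (y' + c + 1) * b = y' * b + (c + 1) * b := by ring
      rw [h3] at h1
      exact h (d + 1) (c + 1) (by omega) (by omega) (by omega) (by omega) (by omega)
    · have h3 := Nat.mul_le_mul_right b h2
      have h4 : 0 < (d + 1) * a := by positivity
      omega
  · subst heq
    have : y * b = y' * b := by omega
    exact ⟨rfl, Nat.eq_of_mul_eq_mul_right hb this⟩
  · exfalso
    obtain ⟨d, rfl⟩ := Nat.exists_eq_add_of_lt hgt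
    have h1 : y' * b = (d + 1) * a + y * b := by
      have : (x' + d + 1) * a = x' * a + (d + 1) * a := by ring
      rw [this] at e
      omega
    rcases Nat.lt_or_ge y y' with h2 | h2
    · obtain ⟨c, rfl⟩ := Nat.exists_eq_add_of_lt h2
      have h3 : (y + c + 1) * b = y * b + (c + 1) * b := by ring
      rw [h3] at h1
      exact h (d + 1) (c + 1) (by omega) (by omega) (by omega) (by omega) (by omega)
    · have h3 := Nat.mul_le_mul_right b h2
      have h4 : 0 < (d + 1) * a := by positivity
      omega

/-- The time of the lattice point with `i` moves `a` and `q - i` moves `b`. -/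
def tm (t : ℤ) (a b q i : ℕ) : ℤ := t + ((i * a + (q - i) * b : ℕ) : ℤ)

open Classical in
/-- The bad points of level `q`. -/
noncomputable def bad (F : Finset ℤ) (t : ℤ) (a b q : ℕ) : Finset ℕ :=
  (range (q + 1)).filter (fun i => tm t a b q i ∈ F)

open Classical in
/-- The reachable points of level `q`. -/
noncomputable def reach (F : Finset ℤ) (t : ℤ) (a b q : ℕ) : Finset ℕ :=
  (range (q + 1)).filter
    (fun i => ∃ w : List Bool, w.length = q ∧ w.count true = i ∧ Av F t (abw a b w))

open Classical in
/-- The points of level `q` from which there is no path with `m` moves. -/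
noncomputable def dead (F : Finset ℤ) (t : ℤ) (a b m q : ℕ) : Finset ℕ :=
  (range (q + 1)).filter (fun i => ¬ Alive F a b m (tm t a b q i))

theorem mem_bad {F : Finset ℤ} {t : ℤ} {a b q i : ℕ} :
    i ∈ bad F t a b q ↔ i ≤ q ∧ tm t a b q i ∈ F := by
  simp [bad]

theorem mem_reach {F : Finset ℤ} {t : ℤ} {a b q i : ℕ} :
    i ∈ reach F t a b q ↔
      i ≤ q ∧ ∃ w : List Bool, w.length = q ∧ w.count true = i ∧ Av F t (abw a b w) := by
  simp [reach]

theorem mem_dead {F : Finset ℤ} {t : ℤ} {a b m q i : ℕ} :
    i ∈ dead F t a b m q ↔ i ≤ q ∧ ¬ Alive F a b m (tm t a b q i) := by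
  simp [dead]

theorem sum_bad_le {F : Finset ℤ} (t : ℤ) {a b R : ℕ} (h : Ind a b R) (ha : 0 < a) (hb : 0 < b)
    (s : Finset ℕ) (hs : ∀ q ∈ s, q ≤ R) : ∑ q ∈ s, (bad F t a b q).card ≤ F.card := by
  rw [← Finset.card_sigma]
  apply Finset.card_le_card_of_injOn (fun p : (_ : ℕ) × ℕ => tm t a b p.1 p.2)
  · rintro ⟨q, i⟩ hp
    have hp' : (⟨q, i⟩ : (_ : ℕ) × ℕ) ∈ s.sigma (fun q => bad F t a b q) := hp
    rw [Finset.mem_sigma, mem_bad] at hp'
    exact hp'.2.2
  · rintro ⟨q, i⟩ hp ⟨q', i'⟩ hp' e
    have h1 : (⟨q, i⟩ : (_ : ℕ) × ℕ) ∈ s.sigma (fun q => bad F t a b q) := hp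
    have h2 : (⟨q', i'⟩ : (_ : ℕ) × ℕ) ∈ s.sigma (fun q => bad F t a b q) := hp'
    rw [Finset.mem_sigma, mem_bad] at h1 h2
    simp only at h1 h2
    have e' : i * a + (q - i) * b = i' * a + (q' - i') * b := by
      simp only [tm] at e
      omega
    have b1 := hs q h1.1
    have b2 := hs q' h2.1
    obtain ⟨e1, e2⟩ := h.eq ha hb (x := i) (y := q - i) (x' := i') (y' := q' - i')
      (by omega) (by omega) (by omega) (by omega) e'
    subst e1
    have : q = q' := by omega
    subst this
    rfl

theorem reach_grow {F : Finset ℤ} {t : ℤ} {a b q : ℕ} (hne : (reach F t a b q).Nonempty) :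
    (reach F t a b q).card + 1 ≤ (reach F t a b (q + 1)).card + (bad F t a b (q + 1)).card := by
  classical
  set A := reach F t a b q with hA
  have hsub : insert (A.max' hne + 1) A ⊆ reach F t a b (q + 1) ∪ bad F t a b (q + 1) := by
    intro i hi
    rw [Finset.mem_insert] at hi
    rw [Finset.mem_union]
    by_cases hb : tm t a b (q + 1) i ∈ F
    · right
      rw [mem_bad]
      refine ⟨?_, hb⟩
      rcases hi with rfl | hi
      · have := mem_reach.mp (A.max'_mem hne)
        omega
      · have := mem_reach.mp hi
        omega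
    · left
      rw [mem_reach]
      rcases hi with rfl | hi
      · have := mem_reach.mp (A.max'_mem hne)
        obtain ⟨h1, w, hw1, hw2, hw3⟩ := this
        refine ⟨by omega, w ++ [true], by simp [hw1], by simp [hw2], ?_⟩
        rw [abw_append, av_append]
        refine ⟨hw3, hw3.last, ?_⟩
        change _ ∉ F
        rw [len_abw]
        have hcf : w.count false = q - w.count true := by
          have := count_add_count w
          omega
        intro hm
        apply hb
        rw [← hw2]
        unfold tm
        convert hm using 1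
        simp only [if_true]
        rw [hcf, show q + 1 - (w.count true + 1) = q - w.count true by omega]
        push_cast
        ring
      · obtain ⟨h1, w, hw1, hw2, hw3⟩ := mem_reach.mp hi
        refine ⟨by omega, w ++ [false], by simp [hw1], by simp [hw2], ?_⟩
        rw [abw_append, av_append]
        refine ⟨hw3, hw3.last, ?_⟩
        change _ ∉ F
        rw [len_abw]
        have hcf : w.count false = q - w.count true := by
          have := count_add_count w
          omega
        intro hm
        apply hb
        rw [← hw2]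
        unfold tm
        convert hm using 1
        simp only [Bool.false_eq_true, if_false]
        rw [hcf, show q + 1 - w.count true = q - w.count true + 1 by omega]
        push_cast
        ring
  have hnm : A.max' hne + 1 ∉ A := by
    intro h
    have := A.le_max' _ h
    omega
  calc A.card + 1 = (insert (A.max' hne + 1) A).card := (Finset.card_insert_of_notMem hnm).symm
    _ ≤ _ := Finset.card_le_card hsub
    _ ≤ _ := Finset.card_union_le _ _

theorem reach_sum {F : Finset ℤ} {t : ℤ} {a b : ℕ} : ∀ q : ℕ,
    (∀ q' < q, (reach F t a b q').Nonempty) →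
    q + 1 ≤ (reach F t a b q).card + ∑ q' ∈ range (q + 1), (bad F t a b q').card := by
  intro q
  induction q with
  | zero =>
    intro _
    simp only [Finset.sum_range_succ, Finset.range_zero, Finset.sum_empty, zero_add]
    by_cases h : t ∈ F
    · have : 0 ∈ bad F t a b 0 := by rw [mem_bad]; simp [tm, h]
      have := Finset.card_pos.mpr ⟨0, this⟩
      omega
    · have : 0 ∈ reach F t a b 0 := by
        rw [mem_reach]
        exact ⟨le_rfl, [], rfl, rfl, h⟩
      have := Finset.card_pos.mpr ⟨0, this⟩
      omega
  | succ q ih =>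
    intro h
    have h1 := ih (fun q' hq' => h q' (by omega))
    have h2 := reach_grow (h q (by omega))
    rw [Finset.sum_range_succ]
    omega

theorem reach_of_alive {F : Finset ℤ} {t : ℤ} {a b τ R : ℕ} (h : Ind a b R) (ha : 0 < a)
    (hb : 0 < b) (hF : F.card ≤ τ) (hal : Alive F a b τ t) (q : ℕ) (hq : q ≤ R) :
    q + 1 ≤ (reach F t a b q).card + τ := by
  have hne : ∀ q ≤ R, (reach F t a b q).Nonempty := by
    intro q
    induction q using Nat.strong_induction_on with
    | _ q ih =>
      intro hq
      rcases Nat.lt_or_ge τ q with hlt | hge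
      · have h1 := reach_sum (F := F) (t := t) (a := a) (b := b) q (fun q' hq' => ih q' hq' (by omega))
        have h2 := sum_bad_le (F := F) t h ha hb (range (q + 1))
          (fun q' hq' => by rw [Finset.mem_range] at hq'; omega)
        exact Finset.card_pos.mp (by omega)
      · obtain ⟨w, hw, hav⟩ := hal
        refine ⟨(w.take q).count true, ?_⟩
        rw [mem_reach]
        have hlen : (w.take q).length = q := by rw [List.length_take]; omega
        refine ⟨?_, w.take q, hlen, rfl, ?_⟩
        · calc (w.take q).count true ≤ (w.take q).length := List.count_le_length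
            _ = q := hlen
        · rw [← List.take_append_drop q w, abw_append, av_append] at hav
          exact hav.1
  have h1 := reach_sum (F := F) (t := t) (a := a) (b := b) q (fun q' hq' => hne q' (by omega))
  have h2 := sum_bad_le (F := F) t h ha hb (range (q + 1))
    (fun q' hq' => by rw [Finset.mem_range] at hq'; omega)
  omega

theorem dead_le {F : Finset ℤ} {t : ℤ} {a b : ℕ} (m : ℕ) : ∀ q : ℕ,
    (dead F t a b m q).card ≤ ∑ q' ∈ Finset.Icc q (q + m), (bad F t a b q').card := by
  induction m with
  | zero =>
    intro q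
    have : dead F t a b 0 q ⊆ bad F t a b q := by
      intro i hi
      rw [mem_dead] at hi
      rw [mem_bad]
      refine ⟨hi.1, ?_⟩
      by_contra hcon
      exact hi.2 ⟨[], rfl, hcon⟩
    simpa using Finset.card_le_card this
  | succ m ih =>
    intro q
    have hsub : dead F t a b (m + 1) q ⊆ bad F t a b q ∪ dead F t a b m (q + 1) := by
      classical
      intro i hi
      rw [mem_dead] at hi
      rw [Finset.mem_union, mem_bad, mem_dead]
      by_cases hb : tm t a b q i ∈ F
      · exact Or.inl ⟨hi.1, hb⟩
      · right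
        refine ⟨by omega, ?_⟩
        rintro ⟨w, hw, hav⟩
        apply hi.2
        refine ⟨false :: w, by simp [hw], hb, ?_⟩
        simp only [Bool.false_eq_true, if_false]
        have e : tm t a b q i + (b : ℕ) = tm t a b (q + 1) i := by
          unfold tm
          rw [show q + 1 - i = q - i + 1 by omega]
          push_cast
          ring
        rw [e]
        exact hav
    have h1 := Finset.card_le_card hsub
    have h2 := Finset.card_union_le (bad F t a b q) (dead F t a b m (q + 1))
    have h3 := ih (q + 1)
    have h4 : ∑ q' ∈ Finset.Icc q (q + (m + 1)), (bad F t a b q').card =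
        (bad F t a b q).card + ∑ q' ∈ Finset.Icc (q + 1) (q + 1 + m), (bad F t a b q').card := by
      rw [show q + (m + 1) = q + 1 + m by ring]
      have e : Finset.Icc q (q + 1 + m) = insert q (Finset.Icc (q + 1) (q + 1 + m)) := by
        ext x
        rw [Finset.mem_insert, Finset.mem_Icc, Finset.mem_Icc]
        omega
      rw [e, Finset.sum_insert (by simp)]
    omega

/-- The key lemma: from an alive time one can reach, with exactly `2 τ` moves `a`, `b`, a time
after which the move `c` leads to an alive time. -/
theorem dodge_step {F : Finset ℤ} {t : ℤ} {a b τ R : ℕ} (h : Ind a b R) (ha : 0 < a) (hb : 0 < b)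
    (hR : 3 * τ ≤ R) (hF : F.card ≤ τ) (hal : Alive F a b τ t) (c : ℕ) :
    ∃ w : List Bool, w.length = 2 * τ ∧ Av F t (abw a b w) ∧
      Alive F a b τ (t + (len (abw a b w) : ℕ) + c) := by
  have h1 := reach_of_alive h ha hb hF hal (2 * τ) (by omega)
  have h2 := dead_le (F := F) (t := t + c) (a := a) (b := b) τ (2 * τ)
  have h3 := sum_bad_le (F := F) (t + c) h ha hb (Finset.Icc (2 * τ) (2 * τ + τ))
    (fun q hq => by rw [Finset.mem_Icc] at hq; omega)
  obtain ⟨i, hi, hni⟩ := Finset.exists_mem_notMem_of_card_lt_card
    (s := dead F (t + c) a b τ (2 * τ)) (t := reach F t a b (2 * τ)) (by omega)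
  rw [mem_reach] at hi
  rw [mem_dead] at hni
  obtain ⟨hi1, w, hw1, hw2, hw3⟩ := hi
  push Not at hni
  refine ⟨w, hw1, hw3, ?_⟩
  have := hni hi1
  convert this using 1
  rw [len_abw]
  unfold tm
  have hcf : w.count false = 2 * τ - i := by
    have := count_add_count w
    omega
  rw [hcf, hw2]
  ring

/-- The times from which there may be no path. -/
def Eset (F : Finset ℤ) (a τ : ℕ) : Finset ℤ :=
  (F ×ˢ range (τ + 1)).image (fun p => p.1 - ((p.2 * a : ℕ) : ℤ))

theorem card_Eset (F : Finset ℤ) (a τ : ℕ) : (Eset F a τ).card ≤ F.card * (τ + 1) := by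
  refine Finset.card_image_le.trans ?_
  rw [Finset.card_product, Finset.card_range]

theorem av_replicate {F : Finset ℤ} {x : Mv} : ∀ {n : ℕ} {t : ℤ},
    (∀ m ≤ n, t + ((m * x.2 : ℕ) : ℤ) ∉ F) → Av F t (List.replicate n x) := by
  intro n
  induction n with
  | zero =>
    intro t h
    change t ∉ F
    simpa using h 0 le_rfl
  | succ n ih =>
    intro t h
    refine ⟨by simpa using h 0 (by omega), ih fun m hm => ?_⟩
    have := h (m + 1) (by omega)
    convert this using 2
    push_cast
    ring

theorem mem_Eset_of_not_alive {F : Finset ℤ} {a b τ : ℕ} {t : ℤ} (h : ¬ Alive F a b τ t) :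
    t ∈ Eset F a τ := by
  by_contra hcon
  apply h
  refine ⟨List.replicate τ true, by simp, ?_⟩
  have : abw a b (List.replicate τ true) = List.replicate τ (true, a) := by simp [abw]
  rw [this]
  apply av_replicate
  intro m hm hmem
  apply hcon
  unfold Eset
  rw [Finset.mem_image]
  refine ⟨(t + ((m * a : ℕ) : ℤ), m), ?_, by simp⟩
  rw [Finset.mem_product, Finset.mem_range]
  exact ⟨hmem, by simp only; omega⟩

/-- `L'` arises from `L` by the insertion of `n` jobs of the sizes `a`, `b`. -/
inductive Ins (a b : ℕ) : List Mv → List Mv → ℕ → Prop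
  | nil : Ins a b [] [] 0
  | keep (x : Mv) {L L' : List Mv} {n : ℕ} : Ins a b L L' n → Ins a b (x :: L) (x :: L') n
  | ins (y : Bool) {L L' : List Mv} {n : ℕ} : Ins a b L L' n →
      Ins a b L ((true, if y then a else b) :: L') (n + 1)

theorem Ins.refl {a b : ℕ} (L : List Mv) : Ins a b L L 0 := by
  induction L with
  | nil => exact Ins.nil
  | cons x L ih => exact Ins.keep x ih

theorem Ins.word {a b : ℕ} {L L' : List Mv} {n : ℕ} (h : Ins a b L L' n) (w : List Bool) :
    Ins a b L (abw a b w ++ L') (n + w.length) := by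
  induction w with
  | nil => exact h
  | cons x w ih =>
    have := Ins.ins x ih
    exact this

theorem Ins.perm {a b : ℕ} {L L' : List Mv} {n : ℕ} (h : Ins a b L L' n) :
    ∃ w : List Bool, w.length = n ∧ L'.Perm (L ++ abw a b w) := by
  induction h with
  | nil => exact ⟨[], rfl, by simp⟩
  | keep x _ ih =>
    obtain ⟨w, hw, hp⟩ := ih
    exact ⟨w, hw, by simpa using hp⟩
  | @ins y L L' n _ ih =>
    obtain ⟨w, hw, hp⟩ := ih
    refine ⟨y :: w, by simp [hw], ?_⟩
    have h1 : abw a b (y :: w) = (true, if y then a else b) :: abw a b w := rfl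
    rw [h1]
    exact (hp.cons _).trans List.perm_middle.symm

theorem Ins.split {a b : ℕ} {L L' : List Mv} {n : ℕ} (h : Ins a b L L' n) :
    ∀ U' V' : List Mv, L' = U' ++ V' → ∃ U V n1 n2, L = U ++ V ∧ Ins a b U U' n1 ∧
      Ins a b V V' n2 ∧ n1 + n2 = n := by
  induction h with
  | nil =>
    intro U' V' h
    obtain ⟨rfl, rfl⟩ := List.append_eq_nil_iff.mp h.symm
    exact ⟨[], [], 0, 0, rfl, Ins.nil, Ins.nil, rfl⟩
  | @keep x L L' n h0 ih =>
    intro U' V' h
    cases U' with
    | nil =>
      rw [List.nil_append] at h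
      subst h
      exact ⟨[], x :: L, 0, n, rfl, Ins.nil, Ins.keep x h0, by omega⟩
    | cons u U' =>
      simp only [List.cons_append, List.cons.injEq] at h
      obtain ⟨rfl, h⟩ := h
      obtain ⟨U, V, n1, n2, h1, h2, h3, h4⟩ := ih U' V' h
      exact ⟨x :: U, V, n1, n2, by rw [h1]; rfl, Ins.keep x h2, h3, h4⟩
  | @ins y L L' n h0 ih =>
    intro U' V' h
    cases U' with
    | nil =>
      rw [List.nil_append] at h
      subst h
      exact ⟨[], L, 0, n + 1, rfl, Ins.nil, Ins.ins y h0, by omega⟩
    | cons u U' =>
      simp only [List.cons_append, List.cons.injEq] at h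
      obtain ⟨rfl, h⟩ := h
      obtain ⟨U, V, n1, n2, h1, h2, h3, h4⟩ := ih U' V' h
      exact ⟨U, V, n1 + 1, n2, h1, Ins.ins y h2, h3, by omega⟩

theorem Ins.count_le {a b : ℕ} {L L' : List Mv} {n : ℕ} (h : Ins a b L L' n) (x : Mv) :
    L'.count x ≤ L.count x + n := by
  obtain ⟨w, hw, hp⟩ := h.perm
  rw [hp.count_eq, List.count_append]
  have : (abw a b w).count x ≤ (abw a b w).length := List.count_le_length
  have h2 : (abw a b w).length = n := by simp [abw, hw]
  omega

/-- The dodging lemma. -/
theorem dodge {F : Finset ℤ} {a b τ R : ℕ} (h : Ind a b R) (ha : 0 < a) (hb : 0 < b)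
    (hR : 3 * τ ≤ R) (hF : F.card ≤ τ) : ∀ (L : List Mv), (∀ m ∈ L, 0 < m.2) → ∀ t : ℤ,
      Alive F a b τ t → ∃ L' n, Ins a b L L' n ∧
        n ≤ 2 * τ * ((Eset F a τ).filter (fun x => t < x)).card ∧ Av F t L' ∧
        Alive F a b τ (t + (len L' : ℕ)) := by
  intro L
  induction L with
  | nil =>
    intro _ t hal
    have h0 : t ∉ F := by
      obtain ⟨w, _, hw⟩ := hal
      exact hw.head
    exact ⟨[], 0, Ins.nil, by omega, h0, by simpa using hal⟩
  | cons c L ih =>
    intro hpos t hal
    have h0 : t ∉ F := by
      obtain ⟨w, _, hw⟩ := hal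
      exact hw.head
    have hc : 0 < c.2 := hpos c (by simp)
    have hpos' : ∀ m ∈ L, 0 < m.2 := fun m hm => hpos m (by simp [hm])
    by_cases hnext : Alive F a b τ (t + c.2)
    · obtain ⟨L', n, h1, h2, h3, h4⟩ := ih hpos' (t + c.2) hnext
      refine ⟨c :: L', n, Ins.keep c h1, ?_, ⟨h0, h3⟩, ?_⟩
      · refine h2.trans (Nat.mul_le_mul_left _ (Finset.card_le_card ?_))
        intro x hx
        rw [Finset.mem_filter] at hx ⊢
        exact ⟨hx.1, by omega⟩
      · rw [len_cons]
        rwa [show (t + ((c.2 + len L' : ℕ) : ℤ)) = t + c.2 + (len L' : ℕ) by omega]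
    · obtain ⟨w, hw1, hw2, hw3⟩ := dodge_step h ha hb hR hF hal c.2
      obtain ⟨L', n, h1, h2, h3, h4⟩ := ih hpos' (t + (len (abw a b w) : ℕ) + c.2) hw3
      refine ⟨abw a b w ++ c :: L', n + w.length, (Ins.keep c h1).word w, ?_, ?_, ?_⟩
      · rw [hw1]
        have hE := mem_Eset_of_not_alive hnext
        have hlt : ((Eset F a τ).filter (fun x => t + (len (abw a b w) : ℕ) + c.2 < x)).card + 1 ≤
            ((Eset F a τ).filter (fun x => t < x)).card := by
          have hnm : t + c.2 ∉ (Eset F a τ).filter
              (fun x => t + (len (abw a b w) : ℕ) + c.2 < x) := by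
            rw [Finset.mem_filter]
            rintro ⟨_, h⟩
            omega
          rw [← Finset.card_insert_of_notMem hnm]
          apply Finset.card_le_card
          intro x hx
          rw [Finset.mem_insert] at hx
          rw [Finset.mem_filter]
          rcases hx with rfl | hx
          · exact ⟨hE, by omega⟩
          · rw [Finset.mem_filter] at hx
            exact ⟨hx.1, by omega⟩
        have := Nat.mul_le_mul_left (2 * τ) hlt
        rw [mul_add] at this
        omega
      · rw [av_append]
        exact ⟨hw2, hw2.last, h3⟩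
      · rw [len_append, len_cons]
        rwa [show (t + ((len (abw a b w) + (c.2 + len L') : ℕ) : ℤ)) =
          t + (len (abw a b w) : ℕ) + c.2 + (len L' : ℕ) by omega]

end Pool.Agent.W990.FS
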