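import Pool.Agent.W990.FS.Seq

/-!
# Schedules and sequences
-/

namespace Pool.Agent.W990.FS

theorem seq_of_pairwise {F : List ℕ} : ∀ (l : List (ℕ × ℕ)) (t : ℕ),
    (∀ m ∈ l, t ≤ m.1 ∧ m.1 ∉ F ∧ m.1 + m.2 ∉ F ∧ 0 < m.2) →
    l.Pairwise (fun a b => a.1 + a.2 ≤ b.1 ∨ b.1 + b.2 ≤ a.1) →
    l.Pairwise (fun a b => a.1 ≤ b.1) → Seq F t l := by
  intro l
  induction l with
  | nil => intro t _ _ _; trivial
  | cons m l ih =>
    intro t h1 h2 h3
    rw [List.pairwise_cons] at h2 h3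
    obtain ⟨g1, g2, g3, g4⟩ := h1 m (by simp)
    refine ⟨g1, g2, g3, ih _ ?_ h2.2 h3.2⟩
    intro m' hm'
    obtain ⟨k1, k2, k3, k4⟩ := h1 m' (by simp [hm'])
    refine ⟨?_, k2, k3, k4⟩
    have e1 := h2.1 m' hm'
    have e2 := h3.1 m' hm'
    omega

theorem fin_le {l : List (ℕ × ℕ)} : ∀ {t e : ℕ}, t ≤ e → (∀ m ∈ l, m.1 + m.2 ≤ e) →
    fin t l ≤ e := by
  induction l with
  | nil => intro t e h _; exact h
  | cons m l ih =>
    intro t e _ h
    exact ih (h m (by simp)) (fun m' hm' => h m' (by simp [hm']))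

/-- From schedules to sequences. -/
theorem seq_of_schedule {p F : List ℕ} (hpos : ∀ x ∈ p, 0 < x) {S : Fin p.length → ℕ}
    (h1 : ∀ j, S j ∉ F) (h2 : ∀ j : Fin p.length, S j + p[j] ∉ F)
    (h3 : ∀ i j : Fin p.length, i ≠ j → S i + p[i] ≤ S j ∨ S j + p[j] ≤ S i) :
    ∃ l, (l.map Prod.snd).Perm p ∧ Seq F 0 l ∧
      ∀ e, (∀ j : Fin p.length, S j + p[j] ≤ e) → fin 0 l ≤ e := by
  classical
  set L : List (ℕ × ℕ) := List.ofFn (fun j : Fin p.length => (S j, p[j])) with hL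
  have hLp : L.map Prod.snd = p := by
    rw [hL, List.map_ofFn]
    conv_rhs => rw [← List.ofFn_getElem (xs := p)]
    rfl
  set l := L.insertionSort (fun a b => a.1 ≤ b.1) with hl
  have hperm : l.Perm L := List.perm_insertionSort _ _
  have hmem : ∀ m ∈ l, ∃ j : Fin p.length, m = (S j, p[j]) := by
    intro m hm
    rw [hperm.mem_iff, hL, List.mem_ofFn] at hm
    obtain ⟨j, hj⟩ := hm
    exact ⟨j, hj.symm⟩
  refine ⟨l, ?_, ?_, ?_⟩
  · have := hperm.map Prod.snd
    rwa [hLp] at this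
  · apply seq_of_pairwise
    · intro m hm
      obtain ⟨j, rfl⟩ := hmem m hm
      exact ⟨Nat.zero_le _, h1 j, h2 j, hpos _ (List.getElem_mem _)⟩
    · rw [hperm.pairwise_iff (fun {a b} h => Or.symm h), hL, List.pairwise_ofFn]
      intro i j hij
      exact h3 i j (ne_of_lt hij)
    · have : Std.Total (fun a b : ℕ × ℕ => a.1 ≤ b.1) := ⟨fun a b => le_total _ _⟩
      have : IsTrans (ℕ × ℕ) (fun a b : ℕ × ℕ => a.1 ≤ b.1) := ⟨fun a b c h h' => le_trans h h'⟩
      exact List.pairwise_insertionSort _ _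
  · intro e he
    apply fin_le (Nat.zero_le _)
    intro m hm
    obtain ⟨j, rfl⟩ := hmem m hm
    exact he j

theorem Seq.mem {F : List ℕ} {l : List (ℕ × ℕ)} : ∀ {t : ℕ}, Seq F t l → ∀ m ∈ l,
    t ≤ m.1 ∧ m.1 ∉ F ∧ m.1 + m.2 ∉ F ∧ m.1 + m.2 ≤ fin t l := by
  induction l with
  | nil => intro t _ m hm; simp at hm
  | cons c l ih =>
    intro t h m hm
    obtain ⟨g1, g2, g3, g4⟩ := h
    rw [List.mem_cons] at hm
    rcases hm with rfl | hm
    · have := g4.le_fin
      exact ⟨g1, g2, g3, by change _ ≤ fin (m.1 + m.2) l; omega⟩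
    · obtain ⟨k1, k2, k3, k4⟩ := ih g4 m hm
      exact ⟨by omega, k2, k3, k4⟩

theorem Seq.pairwise {F : List ℕ} {l : List (ℕ × ℕ)} : ∀ {t : ℕ}, Seq F t l →
    l.Pairwise (fun a b => a.1 + a.2 ≤ b.1) := by
  induction l with
  | nil => intro t _; simp
  | cons c l ih =>
    intro t h
    obtain ⟨g1, g2, g3, g4⟩ := h
    rw [List.pairwise_cons]
    exact ⟨fun m hm => (g4.mem m hm).1, ih g4⟩

theorem exists_fin {l : List (ℕ × ℕ)} : ∀ {t : ℕ}, l ≠ [] → ∃ m ∈ l, m.1 + m.2 = fin t l := by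
  induction l with
  | nil => intro t h; exact absurd rfl h
  | cons c l ih =>
    intro t _
    rcases eq_or_ne l [] with rfl | hne
    · exact ⟨c, by simp, rfl⟩
    · obtain ⟨m, hm, e⟩ := ih (t := c.1 + c.2) hne
      exact ⟨m, by simp [hm], e⟩

/-- From sequences to schedules. -/
theorem schedule_of_seq {p F S : List ℕ} (hlen : S.length = p.length) {l : List (ℕ × ℕ)}
    (hperm : (S.zip p).Perm l) (hl : Seq F 0 l) :
    (∀ j (h : j < p.length), S[j] ∉ F ∧ S[j] + p[j] ∉ F ∧ S[j] + p[j] ≤ fin 0 l) ∧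
    (∀ i j (hi : i < p.length) (hj : j < p.length), i ≠ j →
      S[i] + p[i] ≤ S[j] ∨ S[j] + p[j] ≤ S[i]) ∧
    (p ≠ [] → ∃ j, ∃ h : j < p.length, S[j] + p[j] = fin 0 l) := by
  have hlz : (S.zip p).length = p.length := by simp [hlen]
  have hget : ∀ j (h : j < p.length), (S.zip p)[j]'(by omega) = (S[j], p[j]) := by
    intro j h
    simp
  refine ⟨?_, ?_, ?_⟩
  · intro j h
    have h1 : (S[j], p[j]) ∈ l := by
      rw [← hperm.mem_iff, ← hget j h]
      exact List.getElem_mem _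
    obtain ⟨_, g2, g3, g4⟩ := hl.mem _ h1
    exact ⟨g2, g3, g4⟩
  · have h1 : l.Pairwise (fun a b => a.1 + a.2 ≤ b.1 ∨ b.1 + b.2 ≤ a.1) :=
      hl.pairwise.imp (fun h => Or.inl h)
    have h2 : (S.zip p).Pairwise (fun a b => a.1 + a.2 ≤ b.1 ∨ b.1 + b.2 ≤ a.1) :=
      (hperm.pairwise_iff (fun {a b} h => Or.symm h)).mpr h1
    rw [List.pairwise_iff_getElem] at h2
    have key : ∀ i j (hi : i < p.length) (hj : j < p.length), i < j →
      S[i] + p[i] ≤ S[j] ∨ S[j] + p[j] ≤ S[i] := by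
      intro i j hi hj hij
      have := h2 i j (by omega) (by omega) hij
      rw [hget i hi, hget j hj] at this
      exact this
    intro i j hi hj hij
    rcases lt_or_gt_of_ne hij with h | h
    · exact key i j hi hj h
    · exact (key j i hj hi h).symm
  · intro hp
    have hne : l ≠ [] := by
      rintro rfl
      have := hperm.length_eq
      rw [hlz] at this
      exact hp (List.length_eq_zero_iff.mp (by simpa using this))
    obtain ⟨m, hm, e⟩ := exists_fin (t := 0) hne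
    rw [← hperm.mem_iff] at hm
    obtain ⟨j, hj, rfl⟩ := List.getElem_of_mem hm
    refine ⟨j, by omega, ?_⟩
    rw [hget j (by omega)] at e
    exact e

/-! ### Real start times -/

/-- Sequences with real start times without idle time are integral. -/
theorem seq_of_real {F : List ℕ} : ∀ (l : List (ℝ × ℕ)) (t : ℕ) (T : ℝ),
    (∀ m ∈ l, (t : ℝ) ≤ m.1 ∧ (∀ f ∈ F, m.1 ≠ f) ∧ (∀ f ∈ F, m.1 + m.2 ≠ f) ∧ 0 < m.2 ∧
      m.1 + m.2 ≤ T) →
    l.Pairwise (fun a b : ℝ × ℕ => a.1 + (a.2 : ℝ) ≤ b.1 ∨ b.1 + (b.2 : ℝ) ≤ a.1) →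
    l.Pairwise (fun a b => a.1 ≤ b.1) → (t : ℝ) ≤ T →
    ((t + (l.map Prod.snd).sum : ℕ) : ℝ) ≤ T ∧
      (T ≤ ((t + (l.map Prod.snd).sum : ℕ) : ℝ) →
        ∃ l' : List (ℕ × ℕ), l'.map Prod.snd = l.map Prod.snd ∧ Seq F t l' ∧
          fin t l' = t + (l.map Prod.snd).sum) := by
  intro l
  induction l with
  | nil =>
    intro t T _ _ _ h
    refine ⟨by simpa using h, fun _ => ⟨[], rfl, trivial, rfl⟩⟩
  | cons m l ih =>
    intro t T h1 h2 h3 h4
    rw [List.pairwise_cons] at h2 h3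
    obtain ⟨g1, g2, g3, g4, g5⟩ := h1 m (by simp)
    -- the rest, seen from `t + m.2`
    have h5 : ∀ m' ∈ l, m.1 + (m.2 : ℝ) ≤ m'.1 := by
      intro m' hm'
      obtain ⟨k1, k2, k3, k4, k5⟩ := h1 m' (by simp [hm'])
      have e1 := h2.1 m' hm'
      have e2 := h3.1 m' hm'
      have e3 : (0 : ℝ) < m'.2 := by exact_mod_cast k4
      rcases e1 with e1 | e1
      · exact e1
      · linarith
    have h6 := ih (t + m.2) T (by
      intro m' hm'
      obtain ⟨k1, k2, k3, k4, k5⟩ := h1 m' (by simp [hm'])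
      have := h5 m' hm'
      refine ⟨?_, k2, k3, k4, k5⟩
      push_cast
      linarith) h2.2 h3.2 (by push_cast; linarith)
    obtain ⟨h7, h8⟩ := h6
    simp only [List.map_cons, List.sum_cons]
    rw [← add_assoc]
    refine ⟨h7, fun hT => ?_⟩
    obtain ⟨l', e1, e2, e3⟩ := h8 hT
    -- the first job starts at `t`
    have h9 : (m.1 : ℝ) = t := by
      by_contra hne
      have hlt : (t : ℝ) < m.1 := lt_of_le_of_ne g1 (Ne.symm hne)
      have key : ∀ (l : List (ℝ × ℕ)) (x : ℝ), (∀ m' ∈ l, x ≤ m'.1) →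
          (∀ m' ∈ l, m'.1 + m'.2 ≤ T ∧ 0 < m'.2) →
          l.Pairwise (fun a b : ℝ × ℕ => a.1 + (a.2 : ℝ) ≤ b.1 ∨ b.1 + (b.2 : ℝ) ≤ a.1) →
          l.Pairwise (fun a b => a.1 ≤ b.1) → x ≤ T → x + ((l.map Prod.snd).sum : ℕ) ≤ T := by
        intro l
        induction l with
        | nil => intro x _ _ _ _ h; simpa using h
        | cons c l ih' =>
          intro x k1 k2 k3 k4 k5
          rw [List.pairwise_cons] at k3 k4
          have c1 := k1 c (by simp)
          have c2 := k2 c (by simp)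
          have c3 := ih' (c.1 + c.2) (by
            intro m' hm'
            have e1 := k3.1 m' hm'
            have e2 := k4.1 m' hm'
            have e3 := (k2 m' (by simp [hm'])).2
            have e4 : (0 : ℝ) < m'.2 := by exact_mod_cast e3
            rcases e1 with e1 | e1
            · exact e1
            · linarith) (fun m' hm' => k2 m' (by simp [hm'])) k3.2 k4.2 c2.1
          simp only [List.map_cons, List.sum_cons]
          push_cast
          push_cast at c3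
          linarith
      have := key l (m.1 + m.2) h5 (fun m' hm' => by
        obtain ⟨k1, k2, k3, k4, k5⟩ := h1 m' (by simp [hm'])
        exact ⟨k5, k4⟩) h2.2 h3.2 g5
      push_cast at this hT
      linarith
    refine ⟨(t, m.2) :: l', by simp [e1], ⟨le_rfl, ?_, ?_, e2⟩, e3⟩
    · intro hf
      exact g2 t hf h9
    · intro hf
      apply g3 (t + m.2) hf
      push_cast
      rw [h9]

end Pool.Agent.W990.FS
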