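import Pool.Agent.W990.FS.BuildPoly
import Pool.Agent.W990.FS.Sched
import Pool.Agent.H633R2.FptPad

/-!
# Fixed-parameter tractability
-/

namespace Pool.Agent.W990.FS

open Pool.Agent.NPC Pool.Agent.NPC.H633 Pool.Agent.H633R2

def capB (τ : ℕ) : ℕ := cB τ (τ + 2 * τ)
def capC (τ : ℕ) : ℕ := 2 * τ
def capK (τ : ℕ) : ℕ := 2 ^ ((2 * capB τ + 1) * τ) * (capC τ + 1)

def caps (τ : ℕ) : Caps :=
  (List.replicate (capB τ) (), List.replicate (capC τ) (), List.replicate (capK τ) ())

theorem caps_ok (F : List ℕ) : CapsOk F (caps F.dedup.length) := by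
  refine ⟨?_, ?_, ?_⟩
  · simp [caps, capB, capC]
  · simp [caps, capC]
  · simp only [caps, List.length_replicate, capK]
    refine Nat.mul_le_mul_right _ ?_
    rw [pow_mul]
    exact Nat.pow_le_pow_left Nat.lt_two_pow_self.le _

theorem uf_capC : UF capC := UF.mul (UF.const 2) UF.id

theorem uf_cN : UF cN := UF.mul UF.id (UF.add UF.id (UF.const 1))

theorem uf_cW : UF cW := UF.mul (UF.mul (UF.const 2) UF.id) uf_cN

theorem uf_cQ : UF cQ := UF.add (UF.add uf_cW (UF.mul (UF.const 5) UF.id)) (UF.const 1)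

theorem uf_capB : UF capB := by
  have h3 : UF (fun τ => τ + 2 * τ) := UF.add UF.id (UF.mul (UF.const 2) UF.id)
  have h1 : UF (fun τ => 2 * cQ τ + 2 * cN τ + cW τ + 1) :=
    UF.add (UF.add (UF.add (UF.mul (UF.const 2) uf_cQ) (UF.mul (UF.const 2) uf_cN)) uf_cW)
      (UF.const 1)
  have h2 : UF (fun τ => cQ τ * (τ + 2 * τ + 1) + (cQ τ + 2 * cN τ) + 1) :=
    UF.add (UF.add (UF.mul uf_cQ (UF.add h3 (UF.const 1)))
      (UF.add uf_cQ (UF.mul (UF.const 2) uf_cN))) (UF.const 1)
  exact UF.add h1 h2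

theorem uf_capK : UF capK :=
  UF.mul (UF.two_pow (UF.mul (UF.add (UF.mul (UF.const 2) uf_capB) (UF.const 1)) UF.id))
    (UF.add uf_capC (UF.const 1))

theorem fpt_caps {α : Type} [TEnc α] {κ : α → ℕ} (hκ : Poly κ) :
    FptTime κ (fun a => caps (κ a)) :=
  (UF.pad uf_capB hκ).pair ((UF.pad uf_capC hκ).pair (UF.pad uf_capK hκ))

theorem fpt_of_poly {α β : Type} [TEnc α] [TEnc β] {κ : α → ℕ} (hκ : Poly κ)
    {g : α × Caps → β} (hg : Poly g) : FptTime κ (fun a => g (a, caps (κ a))) :=
  FptTime.poly_comp hg ((FptTime.of_poly Poly.id).pair (fpt_caps hκ))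

/-! ### Real start times -/

theorem take_sum_succ {p : List ℕ} {j : ℕ} (h : j < p.length) :
    (p.take (j + 1)).sum = (p.take j).sum + p[j] := by
  have h1 : p.take (j + 1) = p.take j ++ [p[j]] := (List.take_append_getElem h).symm
  rw [h1, List.sum_append]
  simp

theorem take_sum_le {p : List ℕ} {i j : ℕ} (h : i ≤ j) : (p.take i).sum ≤ (p.take j).sum := by
  have h1 : (p.take i).Sublist (p.take j) := List.take_sublist_take_left h
  exact h1.sum_le_sum (fun _ _ => Nat.zero_le _)

theorem real_iff {p F : List ℕ} (hpos : ∀ x ∈ p, 0 < x) {T : ℝ} (hT : 0 ≤ T) {e : ℕ}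
    (he : IsOpt p F 0 e) :
    (∃ S : Fin p.length → ℝ, (∀ j, 0 ≤ S j) ∧ (∀ j, ∀ f ∈ F, S j ≠ f) ∧
      (∀ j : Fin p.length, ∀ f ∈ F, S j + p[j] ≠ f) ∧
      (∀ i j : Fin p.length, i ≠ j → S i + p[i] ≤ S j ∨ S j + p[j] ≤ S i) ∧
      ∀ j : Fin p.length, S j + p[j] ≤ T) ↔ ((p.sum : ℝ) < T ∨ (T = p.sum ∧ e = p.sum)) := by
  classical
  have hge : p.sum ≤ e := by
    obtain ⟨⟨l, h1, h2, h3⟩, _⟩ := he
    have := h2.le_fin
    rw [h1.sum_eq, h3] at this
    omega
  constructor
  · rintro ⟨S, h0, h1, h2, h3, h4⟩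
    set L : List (ℝ × ℕ) := List.ofFn (fun j : Fin p.length => (S j, p[j])) with hL
    have hLp : L.map Prod.snd = p := by
      rw [hL, List.map_ofFn]
      conv_rhs => rw [← List.ofFn_getElem (xs := p)]
      rfl
    set l := L.insertionSort (fun a b => a.1 ≤ b.1) with hl
    have hperm : l.Perm L := List.perm_insertionSort _ _
    have hmem : ∀ m ∈ l, ∃ j : Fin p.length, m = (S j, p[j]) := by
      intro m hm
      rw [hperm.mem_iff, hL, List.mem_ofFn] at hm
      obtain ⟨j, hj⟩ := hm
      exact ⟨j, hj.symm⟩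
    have hlp : (l.map Prod.snd).Perm p := by
      have := hperm.map Prod.snd
      rwa [hLp] at this
    obtain ⟨g1, g2⟩ := seq_of_real (F := F) l 0 T (by
      intro m hm
      obtain ⟨j, rfl⟩ := hmem m hm
      exact ⟨by simpa using h0 j, h1 j, h2 j, hpos _ (List.getElem_mem _), h4 j⟩) (by
      rw [hperm.pairwise_iff (fun {a b} h => Or.symm h), hL, List.pairwise_ofFn]
      intro i j hij
      exact h3 i j (ne_of_lt hij)) (by
      have : Std.Total (fun a b : ℝ × ℕ => a.1 ≤ b.1) := ⟨fun a b => le_total _ _⟩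
      have : IsTrans (ℝ × ℕ) (fun a b : ℝ × ℕ => a.1 ≤ b.1) := ⟨fun a b c h h' => le_trans h h'⟩
      exact List.pairwise_insertionSort _ _) (by simpa using hT)
    rw [hlp.sum_eq, zero_add] at g1 g2
    rcases lt_or_eq_of_le g1 with h | h
    · exact Or.inl h
    · right
      refine ⟨h.symm, ?_⟩
      obtain ⟨l', k1, k2, k3⟩ := g2 h.ge
      have := he.2 l' (by rw [k1]; exact hlp) k2
      omega
  · rintro (h | ⟨h1, h2⟩)
    · set ε : ℝ := min (T - p.sum) (1 / 2) with hε
      have hε0 : 0 < ε := lt_min (by linarith) (by norm_num)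
      have hε1 : ε < 1 := (min_le_right _ _).trans_lt (by norm_num)
      have hε2 : ε ≤ T - p.sum := min_le_left _ _
      have hfrac : ∀ n f : ℕ, ε + n ≠ f := by
        intro n f hf
        have h5 : (n : ℝ) < f := by linarith
        have h6 : n + 1 ≤ f := by exact_mod_cast h5
        have h7 : (n : ℝ) + 1 ≤ f := by exact_mod_cast h6
        linarith
      have hend : ∀ j : Fin p.length, ε + ((p.take j).sum : ℕ) + (p[j] : ℕ) =
          ε + ((p.take (j + 1)).sum : ℕ) := by
        intro j
        rw [take_sum_succ j.2]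
        push_cast
        simp only [Fin.getElem_fin]
        ring
      have hdis : ∀ i j : Fin p.length, i < j →
          ε + ((p.take i).sum : ℕ) + (p[i] : ℕ) ≤ ε + ((p.take j).sum : ℕ) := by
        intro i j hij
        rw [hend i]
        have : (p.take (i + 1)).sum ≤ (p.take j).sum := take_sum_le hij
        have : (((p.take (i + 1)).sum : ℕ) : ℝ) ≤ ((p.take j).sum : ℕ) := by exact_mod_cast this
        linarith
      refine ⟨fun j => ε + ((p.take j).sum : ℕ), ?_, ?_, ?_, ?_, ?_⟩
      · intro j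
        positivity
      · intro j f _
        exact hfrac _ _
      · intro j f _
        rw [hend j]
        exact hfrac _ _
      · intro i j hij
        rcases lt_or_gt_of_ne hij with h | h
        · exact Or.inl (hdis i j h)
        · exact Or.inr (hdis j i h)
      · intro j
        rw [hend j]
        have : (p.take (j + 1)).sum ≤ p.sum :=
          (List.take_sublist _ _).sum_le_sum (fun _ _ => Nat.zero_le _)
        have : (((p.take (j + 1)).sum : ℕ) : ℝ) ≤ (p.sum : ℕ) := by exact_mod_cast this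
        linarith
    · obtain ⟨⟨l, k1, k2, k3⟩, _⟩ := he
      obtain ⟨S, g1, g2, g3⟩ := assign_aux p [] l k1
      obtain ⟨q1, q2, q3⟩ := schedule_of_seq g1 g3 k2
      set S' : Fin p.length → ℕ := fun j => S[j.1] with hS'
      refine ⟨fun j => ((S' j : ℕ) : ℝ), ?_, ?_, ?_, ?_, ?_⟩
      · intro j
        positivity
      · intro j f hf e'
        simp only at e'
        have h6 : S' j = f := by exact_mod_cast e'
        exact (q1 j j.2).1 (by rw [← h6] at hf; exact hf)
      · intro j f hf e'
        simp only at e'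
        have h6 : S' j + p[j] = f := by exact_mod_cast e'
        exact (q1 j j.2).2.1 (by rw [← h6] at hf; exact hf)
      · intro i j hij
        simp only
        rcases q2 i j i.2 j.2 (fun h => hij (Fin.ext h)) with h | h
        · left
          have h6 : S' i + p[i] ≤ S' j := h
          exact_mod_cast h6
        · right
          have h6 : S' j + p[j] ≤ S' i := h
          exact_mod_cast h6
      · intro j
        have h5 := (q1 j j.2).2.2
        rw [k3, h2] at h5
        have h6 : S' j + p[j] ≤ p.sum := h5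
        simp only
        rw [h1]
        exact_mod_cast h6

end Pool.Agent.W990.FS
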