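import Mathlib

/-!
# The grasshopper lemma for multisets
-/

namespace Pool.Agent.W990.FS

open Finset

/-- The forbidden times strictly between `t` and `t + S`. -/
def win (F : Finset ℤ) (t : ℤ) (S : ℕ) : Finset ℤ := F.filter (fun f => t < f ∧ f < t + S)

theorem mem_win {F : Finset ℤ} {t : ℤ} {S : ℕ} {f : ℤ} :
    f ∈ win F t S ↔ f ∈ F ∧ t < f ∧ f < t + S := by
  simp [win]

/-- The inner partial sums of `l`, starting with `t`, avoid `F`. -/
def Inner (F : Finset ℤ) (t : ℤ) (l : List ℕ) : Prop :=
  ∀ U V : List ℕ, l = U ++ V → U ≠ [] → V ≠ [] → (t + (U.sum : ℕ) : ℤ) ∉ F

theorem list_sum_pos {l : List ℕ} (h : ∀ x ∈ l, 0 < x) (hl : l ≠ []) : 0 < l.sum := by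
  cases l with
  | nil => exact absurd rfl hl
  | cons a l =>
    have := h a (by simp)
    simp only [List.sum_cons]
    omega

theorem inner_cons {F : Finset ℤ} {t : ℤ} {a : ℕ} {l : List ℕ} (ha : l ≠ [] → t + (a : ℤ) ∉ F)
    (hl : Inner F (t + a) l) : Inner F t (a :: l) := by
  intro U V h hU hV
  cases U with
  | nil => exact absurd rfl hU
  | cons u U =>
    simp only [List.cons_append, List.cons.injEq] at h
    obtain ⟨rfl, rfl⟩ := h
    rcases eq_or_ne U [] with rfl | hU'
    · simpa using ha (by simpa using hV)
    · have := hl U V rfl hU' hV
      simp only [List.sum_cons]
      rwa [show (t + ((a + U.sum : ℕ) : ℤ)) = t + a + (U.sum : ℕ) by omega]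

theorem grasshopper (n : ℕ) : ∀ (A : Multiset ℕ), A.card = n → (∀ a ∈ A, 0 < a) →
    ∀ (F : Finset ℤ) (t : ℤ), (win F t A.sum).card < A.toFinset.card →
      ∃ l : List ℕ, (l : Multiset ℕ) = A ∧ Inner F t l := by
  induction n using Nat.strong_induction_on with
  | _ n ih =>
  intro A hn hpos F t hN
  classical
  by_cases hempty : win F t A.sum = ∅
  · refine ⟨A.toList, by simp, ?_⟩
    intro U V h hU hV hmem
    have hUpos : 0 < U.sum := by
      apply list_sum_pos _ hU
      intro x hx
      apply hpos
      rw [← Multiset.mem_toList, h]
      simp [hx]
    have hVpos : 0 < V.sum := by
      apply list_sum_pos _ hV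
      intro x hx
      apply hpos
      rw [← Multiset.mem_toList, h]
      simp [hx]
    have hsum : A.sum = U.sum + V.sum := by
      rw [← Multiset.sum_toList, h, List.sum_append]
    have : (t + (U.sum : ℕ) : ℤ) ∈ win F t A.sum := by
      rw [mem_win]
      refine ⟨hmem, by omega, by omega⟩
    rw [hempty] at this
    simp at this
  · have hNe : (win F t A.sum).Nonempty := Finset.nonempty_iff_ne_empty.mpr hempty
    have hNpos : 0 < (win F t A.sum).card := Finset.card_pos.mpr hNe
    have hAne : A.toFinset.Nonempty := Finset.card_pos.mp (by omega)
    set a := A.toFinset.max' hAne with ha
    have haA : a ∈ A := by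
      have := A.toFinset.max'_mem hAne
      simpa using this
    have hmax : ∀ x ∈ A, x ≤ a := by
      intro x hx
      exact A.toFinset.le_max' x (by simpa using hx)
    set d := (win F t A.sum).min' hNe with hd
    have hdN : d ∈ win F t A.sum := (win F t A.sum).min'_mem hNe
    have hdmin : ∀ f ∈ win F t A.sum, d ≤ f := fun f hf => (win F t A.sum).min'_le f hf
    obtain ⟨hdF, hd1, hd2⟩ := mem_win.mp hdN
    have hsumA : A.sum = a + (A.erase a).sum := by
      conv_lhs => rw [← Multiset.cons_erase haA]
      rw [Multiset.sum_cons]
    have hcardA : (A.erase a).card = n - 1 := by
      rw [Multiset.card_erase_of_mem haA, hn]; rfl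
    have hn1 : 0 < n := by
      rw [← hn]; exact Multiset.card_pos.mpr (by rintro h; rw [h] at haA; simp at haA)
    have ha0 : 0 < a := hpos a haA
    have hpos' : ∀ x ∈ A.erase a, 0 < x := fun x hx => hpos x (Multiset.mem_of_mem_erase hx)
    -- the number of distinct values after removing `a`
    have hcardF : A.toFinset.card - 1 ≤ (A.erase a).toFinset.card := by
      rw [← Finset.card_erase_of_mem (by simpa using haA : a ∈ A.toFinset)]
      apply Finset.card_le_card
      intro x hx
      rw [Finset.mem_erase] at hx
      rw [Multiset.mem_toFinset]
      exact (Multiset.mem_erase_of_ne hx.1).mpr (by simpa using hx.2)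
    have hsub : win F (t + a) (A.erase a).sum ⊆ win F t A.sum := by
      intro f hf
      rw [mem_win] at hf ⊢
      refine ⟨hf.1, by omega, by omega⟩
    have hcoe : ∀ l : List ℕ, (l : Multiset ℕ) = A.erase a → ((a :: l : List ℕ) : Multiset ℕ) = A := by
      intro l hl
      rw [← Multiset.cons_coe, hl, Multiset.cons_erase haA]
    by_cases haF : (t + a : ℤ) ∈ F
    · -- case 2
      by_cases h2c : d = t + a ∧ a ∉ A.erase a
      · obtain ⟨hda, hmu⟩ := h2c
        have hsub' : win F (t + a) (A.erase a).sum ⊆ (win F t A.sum).erase d := by
          intro f hf
          rw [Finset.mem_erase]
          refine ⟨?_, hsub hf⟩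
          rw [mem_win] at hf
          omega
        have hc := Finset.card_le_card hsub'
        rw [Finset.card_erase_of_mem hdN] at hc
        obtain ⟨l, hl, hI⟩ := ih (n - 1) (by omega) (A.erase a) hcardA hpos' F (t + a) (by omega)
        cases l with
        | nil =>
          exfalso
          have : (A.erase a).toFinset.card = 0 := by
            rw [← hl]; simp
          omega
        | cons b V =>
          have hbA : b ∈ A.erase a := by rw [← hl]; simp
          have hba : b < a := by
            have h1 := hmax b (Multiset.mem_of_mem_erase hbA)
            rcases Nat.lt_or_ge b a with h | h
            · exact h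
            · exact absurd (by rwa [show b = a by omega] at hbA) hmu
          have hb0 := hpos' b hbA
          have hAeq : ((b :: a :: V : List ℕ) : Multiset ℕ) = A := by
            rw [← hcoe _ hl]
            rw [Multiset.coe_eq_coe]
            exact List.Perm.swap a b V
          refine ⟨b :: a :: V, hAeq, ?_⟩
          apply inner_cons
          · intro _ hmem
            have : (t + b : ℤ) ∈ win F t A.sum := by
              rw [mem_win]; refine ⟨hmem, by omega, by omega⟩
            have := hdmin _ this
            omega
          · intro U W h hU hW
            cases U with
            | nil => exact absurd rfl hU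
            | cons u U =>
              simp only [List.cons_append, List.cons.injEq] at h
              obtain ⟨rfl, hUW⟩ := h
              have := hI (b :: U) W (by rw [hUW]; rfl) (by simp) hW
              simp only [List.sum_cons] at this ⊢
              rwa [show t + (b : ℤ) + ((a + U.sum : ℕ) : ℤ) = t + ↑a + ((b + U.sum : ℕ) : ℤ) by omega]
      · -- choose x
        have hk2 : t + (a : ℤ) < t + A.sum := by
          -- `a < A.sum`
          by_contra hcon
          have h0 : (A.erase a).sum = 0 := by
            have := hsumA
            omega
          have : A.erase a = 0 := by
            by_contra hne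
            obtain ⟨x, hx⟩ := Multiset.exists_mem_of_ne_zero hne
            have h1 := hpos' x hx
            have h2 := Multiset.single_le_sum (fun y hy => Nat.zero_le y) x hx
            omega
          have hA : A = {a} := by
            rw [← Multiset.cons_erase haA, this]; rfl
          have : A.toFinset.card = 1 := by rw [hA]; simp
          omega
        have haN : (t + a : ℤ) ∈ win F t A.sum := by
          rw [mem_win]; exact ⟨haF, by omega, hk2⟩
        have hex : ∃ x ∈ A.toFinset.erase a, (t + x : ℤ) ∉ win F t A.sum ∧
            (t + x + a : ℤ) ∉ win F t A.sum := by
          by_contra hcon
          push Not at hcon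
          have hinj : (A.toFinset.erase a).card ≤ ((win F t A.sum).erase (t + a)).card := by
            apply Finset.card_le_card_of_injOn
              (fun x : ℕ => if (t + x : ℤ) ∈ win F t A.sum then (t + x : ℤ) else t + x + a)
            · intro x hx
              have hx' : x ∈ A.toFinset.erase a := hx
              have hxA : x ∈ A := by simpa using (Finset.mem_erase.mp hx').2
              have hx0 := hpos x hxA
              have hxa := hmax x hxA
              have hxne := (Finset.mem_erase.mp hx').1
              simp only [Finset.coe_erase, Set.mem_diff, Finset.mem_coe, Set.mem_singleton_iff]
              split_ifs with h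
              · exact ⟨h, by omega⟩
              · exact ⟨hcon x hx' h, by omega⟩
            · intro x hx y hy hxy
              have hx' : x ∈ A.toFinset.erase a := hx
              have hy' : y ∈ A.toFinset.erase a := hy
              have hxA : x ∈ A := by simpa using (Finset.mem_erase.mp hx').2
              have hyA : y ∈ A := by simpa using (Finset.mem_erase.mp hy').2
              have hx0 := hpos x hxA
              have hxa := hmax x hxA
              have hxne := (Finset.mem_erase.mp hx').1
              have hy0 := hpos y hyA
              have hya := hmax y hyA
              have hyne := (Finset.mem_erase.mp hy').1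
              simp only at hxy
              split_ifs at hxy <;> omega
          rw [Finset.card_erase_of_mem haN,
            Finset.card_erase_of_mem (by simpa using haA : a ∈ A.toFinset)] at hinj
          omega
        obtain ⟨x, hx, hx1, hx2⟩ := hex
        have hxA : x ∈ A := by simpa using (Finset.mem_erase.mp hx).2
        have hxne := (Finset.mem_erase.mp hx).1
        have hx0 := hpos x hxA
        have hxa := hmax x hxA
        have hxA' : x ∈ A.erase a := (Multiset.mem_erase_of_ne hxne).mpr hxA
        have hsumA' : (A.erase a).sum = x + ((A.erase a).erase x).sum := by
          conv_lhs => rw [← Multiset.cons_erase hxA']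
          rw [Multiset.sum_cons]
        have hcard'' : ((A.erase a).erase x).card = n - 2 := by
          rw [Multiset.card_erase_of_mem hxA', hcardA, Nat.pred_eq_sub_one]; omega
        have hpos'' : ∀ y ∈ (A.erase a).erase x, 0 < y :=
          fun y hy => hpos' y (Multiset.mem_of_mem_erase hy)
        have hcardF'' : (A.erase a).toFinset.card - 1 ≤ ((A.erase a).erase x).toFinset.card := by
          rw [← Finset.card_erase_of_mem (by simpa using hxA' : x ∈ (A.erase a).toFinset)]
          apply Finset.card_le_card
          intro y hy
          rw [Finset.mem_erase] at hy
          rw [Multiset.mem_toFinset]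
          exact (Multiset.mem_erase_of_ne hy.1).mpr (by simpa using hy.2)
        have hlt : (win F (t + x + a) ((A.erase a).erase x).sum).card <
            ((A.erase a).erase x).toFinset.card := by
          by_cases hda : d = t + a
          · -- multiplicity at least two
            have hmu : a ∈ A.erase a := by
              by_contra h
              exact h2c ⟨hda, h⟩
            have htf : (A.erase a).toFinset = A.toFinset := by
              ext y
              rw [Multiset.mem_toFinset, Multiset.mem_toFinset]
              constructor
              · exact Multiset.mem_of_mem_erase
              · intro hy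
                rcases eq_or_ne y a with rfl | hya
                · exact hmu
                · exact (Multiset.mem_erase_of_ne hya).mpr hy
            have hsub' : win F (t + x + a) ((A.erase a).erase x).sum ⊆
                (win F t A.sum).erase (t + a) := by
              intro f hf
              rw [Finset.mem_erase, mem_win]
              rw [mem_win] at hf
              refine ⟨by omega, hf.1, by omega, by omega⟩
            have hc := Finset.card_le_card hsub'
            rw [Finset.card_erase_of_mem haN] at hc
            rw [htf] at hcardF''
            omega
          · have hdlt : d < t + a := lt_of_le_of_ne (hdmin _ haN) hda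
            have hsub' : win F (t + x + a) ((A.erase a).erase x).sum ⊆
                ((win F t A.sum).erase (t + a)).erase d := by
              intro f hf
              rw [Finset.mem_erase, Finset.mem_erase, mem_win]
              rw [mem_win] at hf
              refine ⟨by omega, by omega, hf.1, by omega, by omega⟩
            have hc := Finset.card_le_card hsub'
            have hdN' : d ∈ (win F t A.sum).erase (t + a) := Finset.mem_erase.mpr ⟨hda, hdN⟩
            rw [Finset.card_erase_of_mem hdN', Finset.card_erase_of_mem haN] at hc
            have : 1 < (win F t A.sum).card := by
              rw [Finset.one_lt_card]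
              exact ⟨d, hdN, t + a, haN, hda⟩
            omega
        obtain ⟨l, hl, hI⟩ := ih (n - 2) (by omega) _ hcard'' hpos'' F (t + x + a) hlt
        have hlA : ((x :: a :: l : List ℕ) : Multiset ℕ) = A := by
          rw [← Multiset.cons_coe, ← Multiset.cons_coe, hl, Multiset.cons_swap,
            Multiset.cons_erase hxA', Multiset.cons_erase haA]
        refine ⟨x :: a :: l, hlA, ?_⟩
        have hsl : A.sum = x + (a + l.sum) := by
          rw [← hlA]; simp
        apply inner_cons
        · intro _ hmem
          exact hx1 (mem_win.mpr ⟨hmem, by omega, by omega⟩)
        · apply inner_cons
          · intro hne hmem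
            have hlpos : 0 < l.sum := by
              apply list_sum_pos _ hne
              intro y hy
              apply hpos''
              rw [← hl]
              simpa using hy
            exact hx2 (mem_win.mpr ⟨hmem, by omega, by omega⟩)
          · exact hI
    · -- case 1
      by_cases hmu : a ∈ A.erase a
      · have htf : (A.erase a).toFinset = A.toFinset := by
          ext y
          rw [Multiset.mem_toFinset, Multiset.mem_toFinset]
          constructor
          · exact Multiset.mem_of_mem_erase
          · intro hy
            rcases eq_or_ne y a with rfl | hya
            · exact hmu
            · exact (Multiset.mem_erase_of_ne hya).mpr hy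
        have hc := Finset.card_le_card hsub
        obtain ⟨l, hl, hI⟩ := ih (n - 1) (by omega) (A.erase a) hcardA hpos' F (t + a)
          (by rw [htf]; omega)
        exact ⟨a :: l, hcoe l hl, inner_cons (fun _ => haF) hI⟩
      · have hlta : ∀ x ∈ A.erase a, x < a := by
          intro x hx
          have h1 := hmax x (Multiset.mem_of_mem_erase hx)
          rcases Nat.lt_or_ge x a with h | h
          · exact h
          · exact absurd (by rwa [show x = a by omega] at hx) hmu
        by_cases hda : d < t + a
        · have hsub' : win F (t + a) (A.erase a).sum ⊆ (win F t A.sum).erase d := by
            intro f hf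
            rw [Finset.mem_erase]
            refine ⟨?_, hsub hf⟩
            rw [mem_win] at hf
            omega
          have hc := Finset.card_le_card hsub'
          rw [Finset.card_erase_of_mem hdN] at hc
          obtain ⟨l, hl, hI⟩ := ih (n - 1) (by omega) (A.erase a) hcardA hpos' F (t + a) (by omega)
          exact ⟨a :: l, hcoe l hl, inner_cons (fun _ => haF) hI⟩
        · have hda' : t + a < d := lt_of_le_of_ne (not_lt.mp hda) (by
            rintro h; exact haF (h ▸ hdF))
          have hsub' : win (F.erase d) (t + a) (A.erase a).sum ⊆ (win F t A.sum).erase d := by
            intro f hf
            rw [Finset.mem_erase, mem_win]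
            rw [mem_win, Finset.mem_erase] at hf
            exact ⟨hf.1.1, hf.1.2, by omega, by omega⟩
          have hc := Finset.card_le_card hsub'
          rw [Finset.card_erase_of_mem hdN] at hc
          obtain ⟨l, hl, hI⟩ := ih (n - 1) (by omega) (A.erase a) hcardA hpos' (F.erase d) (t + a)
            (by omega)
          by_cases hgood : Inner F (t + a) l
          · exact ⟨a :: l, hcoe l hl, inner_cons (fun _ => haF) hgood⟩
          · unfold Inner at hgood
            push Not at hgood
            obtain ⟨U, V, hUV, hU, hV, hmem⟩ := hgood
            have hdeq : (t + a + (U.sum : ℕ) : ℤ) = d := by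
              by_contra hne
              exact hI U V hUV hU hV (Finset.mem_erase.mpr ⟨hne, hmem⟩)
            cases V with
            | nil => exact absurd rfl hV
            | cons b V =>
              have hbA : b ∈ A.erase a := by rw [← hl, hUV]; simp
              have hba := hlta b hbA
              have hb0 := hpos' b hbA
              have hUpos : ∀ x ∈ U, 0 < x := by
                intro x hx
                apply hpos'
                rw [← hl, hUV]
                simp [hx]
              have hAeq : ((U ++ b :: a :: V : List ℕ) : Multiset ℕ) = A := by
                rw [← hcoe l hl, hUV, Multiset.coe_eq_coe]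
                have h1 : (U ++ b :: a :: V).Perm (a :: (U ++ b :: V)) := by
                  have := List.perm_middle (a := a) (l₁ := U ++ [b]) (l₂ := V)
                  simpa using this
                exact h1
              refine ⟨U ++ b :: a :: V, hAeq, ?_⟩
              intro P Q hPQ hP hQ
              -- compare the prefix `P` with `U ++ [b]`
              have hPQ' : (U ++ [b]) ++ (a :: V) = P ++ Q := by simpa using hPQ
              have hPpos : 0 < P.sum := by
                apply list_sum_pos _ hP
                intro y hy
                apply hpos
                rw [← hAeq, hPQ]
                simp [hy]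
              rcases List.append_eq_append_iff.mp hPQ' with ⟨R, hR1, hR2⟩ | ⟨R, hR1, hR2⟩
              · -- P = (U ++ [b]) ++ R, a :: V = R ++ Q
                cases R with
                | nil =>
                  rw [List.append_nil] at hR1
                  rw [hR1]
                  intro hmem2
                  have : (t + ((U ++ [b]).sum : ℕ) : ℤ) ∈ win F t A.sum := by
                    rw [mem_win]
                    refine ⟨hmem2, ?_, ?_⟩
                    · simp only [List.sum_append, List.sum_cons, List.sum_nil]; omega
                    · simp only [List.sum_append, List.sum_cons, List.sum_nil]; omega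
                  have := hdmin _ this
                  simp only [List.sum_append, List.sum_cons, List.sum_nil] at this
                  omega
                | cons r R =>
                  simp only [List.cons_append, List.cons.injEq] at hR2
                  obtain ⟨rfl, hR2⟩ := hR2
                  have h3 := hI (U ++ b :: R) Q (by rw [hUV, hR2]; simp) (by simp) hQ
                  rw [hR1]
                  have e1 : (t + a + ((U ++ b :: R).sum : ℕ) : ℤ) =
                      t + ((U ++ [b] ++ a :: R).sum : ℕ) := by
                    simp only [List.sum_append, List.sum_cons, List.sum_nil]
                    omega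
                  rw [e1] at h3
                  intro h4
                  apply h3
                  rw [Finset.mem_erase]
                  refine ⟨?_, h4⟩
                  simp only [List.sum_append, List.sum_cons, List.sum_nil]
                  omega
              · -- U ++ [b] = P ++ R
                intro hmem2
                have hs : U.sum + b = P.sum + R.sum := by
                  have := congrArg List.sum hR1
                  simpa using this
                have : (t + (P.sum : ℕ) : ℤ) ∈ win F t A.sum := by
                  rw [mem_win]
                  refine ⟨hmem2, ?_, ?_⟩ <;> omega
                have := hdmin _ this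
                omega

end Pool.Agent.W990.FS
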