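import Pool.Agent.W990.FS.CaseB
import Pool.Agent.W990.FS.Grass

/-!
# Sequences of started jobs
-/

namespace Pool.Agent.W990.FS

open Finset

/-- A sequence of pairs (start time, size), processed one after the other from time `t` on, such
that no start time and no completion time is forbidden. -/
def Seq (F : List ℕ) : ℕ → List (ℕ × ℕ) → Prop
  | _, [] => True
  | t, m :: l => t ≤ m.1 ∧ m.1 ∉ F ∧ m.1 + m.2 ∉ F ∧ Seq F (m.1 + m.2) l

/-- The time at which the last job is completed. -/
def fin : ℕ → List (ℕ × ℕ) → ℕ
  | t, [] => t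
  | _, m :: l => fin (m.1 + m.2) l

theorem fin_append (l l' : List (ℕ × ℕ)) : ∀ t, fin t (l ++ l') = fin (fin t l) l' := by
  induction l with
  | nil => intro t; rfl
  | cons m l ih => intro t; exact ih _

theorem seq_append {F : List ℕ} (l l' : List (ℕ × ℕ)) : ∀ t,
    Seq F t (l ++ l') ↔ Seq F t l ∧ Seq F (fin t l) l' := by
  induction l with
  | nil => intro t; simp [Seq, fin]
  | cons m l ih =>
    intro t
    simp only [List.cons_append, Seq, fin, ih]
    tauto

theorem Seq.le_fin {F : List ℕ} {l : List (ℕ × ℕ)} : ∀ {t : ℕ}, Seq F t l →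
    t + (l.map Prod.snd).sum ≤ fin t l := by
  induction l with
  | nil => intro t _; simp [fin]
  | cons m l ih =>
    intro t h
    have := ih h.2.2.2
    have h1 := h.1
    simp only [List.map_cons, List.sum_cons, fin]
    omega

theorem Seq.fin_notMem {F : List ℕ} {l : List (ℕ × ℕ)} : ∀ {t : ℕ}, Seq F t l → l ≠ [] →
    fin t l ∉ F := by
  induction l with
  | nil => intro t _ h; exact absurd rfl h
  | cons m l ih =>
    intro t h _
    rcases eq_or_ne l [] with rfl | hl
    · exact h.2.2.1
    · exact ih h.2.2.2 hl

/-- The forbidden times as integers. -/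
def Fz (F : List ℕ) : Finset ℤ := F.toFinset.image (fun n : ℕ => (n : ℤ))

theorem mem_Fz {F : List ℕ} {n : ℕ} : (n : ℤ) ∈ Fz F ↔ n ∈ F := by
  simp [Fz]

theorem card_Fz (F : List ℕ) : (Fz F).card = F.toFinset.card :=
  Finset.card_image_of_injective _ Nat.cast_injective

/-- Sequences as lists of moves. -/
def toMv : ℕ → List (ℕ × ℕ) → List Mv
  | _, [] => []
  | t, m :: l => if m.1 = t then (true, m.2) :: toMv (m.1 + m.2) l
      else (false, m.1 - t) :: (true, m.2) :: toMv (m.1 + m.2) l

/-- Lists of moves as sequences. -/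
def fromMv : ℕ → List Mv → List (ℕ × ℕ)
  | _, [] => []
  | t, (true, a) :: l => (t, a) :: fromMv (t + a) l
  | t, (false, d) :: l => fromMv (t + d) l

theorem toMv_spec {F : List ℕ} {l : List (ℕ × ℕ)} : ∀ {t : ℕ}, (∀ m ∈ l, 0 < m.2) → Seq F t l →
    t ∉ F → Av (Fz F) t (toMv t l) ∧ t + len (toMv t l) = fin t l ∧ (∀ m ∈ toMv t l, 0 < m.2) ∧
      ((toMv t l).filter (fun m => m.1)).map Prod.snd = l.map Prod.snd ∧
      t + (l.map Prod.snd).sum + (toMv t l).countP (fun m => !m.1) ≤ fin t l := by
  induction l with
  | nil =>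
    intro t _ _ ht
    refine ⟨?_, by simp [toMv, fin], by simp [toMv], by simp [toMv], by simp [toMv, fin]⟩
    exact fun h => ht (mem_Fz.mp h)
  | cons m l ih =>
    intro t hpos hs ht
    obtain ⟨h1, h2, h3, h4⟩ := hs
    obtain ⟨g1, g2, g3, g4, g5⟩ := ih (t := m.1 + m.2) (fun x hx => hpos x (by simp [hx])) h4 h3
    have hm := hpos m (by simp)
    unfold toMv
    split_ifs with h
    · subst h
      refine ⟨⟨fun hh => ht (mem_Fz.mp hh), ?_⟩, ?_, ?_, ?_, ?_⟩
      · simpa using g1
      · rw [len_cons, fin, ← g2]; omega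
      · intro x hx
        rw [List.mem_cons] at hx
        rcases hx with rfl | hx
        · exact hm
        · exact g3 x hx
      · simp [g4]
      · simp only [List.map_cons, List.sum_cons, fin, List.countP_cons]
        simp
        omega
    · have hlt : t < m.1 := by omega
      refine ⟨⟨fun hh => ht (mem_Fz.mp hh), ?_, ?_⟩, ?_, ?_, ?_, ?_⟩
      · simp only
        rw [show ((t : ℤ) + ((m.1 - t : ℕ) : ℤ)) = (m.1 : ℤ) by omega]
        exact fun hh => h2 (mem_Fz.mp hh)
      · simp only
        rw [show ((t : ℤ) + ((m.1 - t : ℕ) : ℤ) + (m.2 : ℤ)) = ((m.1 + m.2 : ℕ) : ℤ) by omega]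
        exact g1
      · rw [len_cons, len_cons, fin, ← g2]
        simp only
        omega
      · intro x hx
        rw [List.mem_cons, List.mem_cons] at hx
        rcases hx with rfl | rfl | hx
        · simp only; omega
        · exact hm
        · exact g3 x hx
      · simp [g4]
      · simp only [List.map_cons, List.sum_cons, fin, List.countP_cons]
        simp
        omega

theorem fromMv_spec {F : List ℕ} {l : List Mv} : ∀ {t t' : ℕ}, t' ≤ t → Av (Fz F) t l →
    Seq F t' (fromMv t l) ∧ (fromMv t l ≠ [] → fin t' (fromMv t l) ≤ t + len l) ∧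
      (fromMv t l).map Prod.snd = (l.filter (fun m => m.1)).map Prod.snd := by
  induction l with
  | nil =>
    intro t t' _ _
    exact ⟨trivial, by simp [fromMv], rfl⟩
  | cons m l ih =>
    intro t t' htt hav
    obtain ⟨c, a⟩ := m
    have h1 := hav.1
    have h2 := hav.2
    simp only at h2
    have e : ((t : ℤ) + (a : ℤ)) = ((t + a : ℕ) : ℤ) := by omega
    rw [e] at h2
    cases c
    · obtain ⟨g1, g2, g3⟩ := ih (t := t + a) (t' := t') (by omega) h2
      refine ⟨g1, ?_, ?_⟩
      · intro hne
        have := g2 hne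
        rw [len_cons]
        simp only
        change fin t' (fromMv (t + a) l) ≤ _
        omega
      · change (fromMv (t + a) l).map Prod.snd = _
        rw [g3]
        simp
    · obtain ⟨g1, g2, g3⟩ := ih (t := t + a) (t' := t + a) le_rfl h2
      refine ⟨⟨htt, fun hh => h1 (mem_Fz.mpr hh), fun hh => h2.head (mem_Fz.mpr hh), g1⟩, ?_, ?_⟩
      · intro _
        change fin (t + a) (fromMv (t + a) l) ≤ _
        rw [len_cons]
        simp only
        by_cases hne : fromMv (t + a) l = []
        · rw [hne]; simp only [fin]; omega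
        · have := g2 hne
          omega
      · change a :: (fromMv (t + a) l).map Prod.snd = _
        rw [g3]
        simp

/-- Near-canonical sequences. -/
def NCs (B : ℕ) (l : List (ℕ × ℕ)) : Prop :=
  ∀ U V : List (ℕ × ℕ), l = U ++ V → ∀ x y : ℕ, x < y →
    (U.map Prod.snd).count y < B ∨ (V.map Prod.snd).count x < B

theorem fromMv_split {l : List Mv} : ∀ {t : ℕ} {U V : List (ℕ × ℕ)}, fromMv t l = U ++ V →
    ∃ U' V', l = U' ++ V' ∧ (U'.filter (fun m => m.1)).map Prod.snd = U.map Prod.snd ∧
      (V'.filter (fun m => m.1)).map Prod.snd = V.map Prod.snd := by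
  induction l with
  | nil =>
    intro t U V h
    obtain ⟨rfl, rfl⟩ := List.append_eq_nil_iff.mp h.symm
    exact ⟨[], [], rfl, rfl, rfl⟩
  | cons m l ih =>
    intro t U V h
    obtain ⟨c, a⟩ := m
    cases c
    · obtain ⟨U', V', e1, e2, e3⟩ := ih (t := t + a) h
      refine ⟨(false, a) :: U', V', by rw [e1]; rfl, ?_, e3⟩
      simp [e2]
    · change (t, a) :: fromMv (t + a) l = U ++ V at h
      cases U with
      | nil =>
        rw [List.nil_append] at h
        subst h
        obtain ⟨U', V', e1, e2, e3⟩ := ih (t := t + a) (U := []) (V := fromMv (t + a) l) rfl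
        refine ⟨[], (true, a) :: l, rfl, rfl, ?_⟩
        simp only [List.map_nil, List.map_eq_nil_iff] at e2
        have e4 : (l.filter (fun m => m.1)).map Prod.snd = (fromMv (t + a) l).map Prod.snd := by
          rw [← e3]
          conv_lhs => rw [e1, List.filter_append, e2, List.nil_append]
        simp [e4]
      | cons u U =>
        simp only [List.cons_append, List.cons.injEq] at h
        obtain ⟨rfl, h⟩ := h
        obtain ⟨U', V', e1, e2, e3⟩ := ih (t := t + a) h
        refine ⟨(true, a) :: U', V', by rw [e1]; rfl, ?_, e3⟩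
        simp [e2]

/-- **Near-canonical sequences suffice.** -/
theorem near_seq {F : List ℕ} {s0 τ C : ℕ} {l : List (ℕ × ℕ)} (hF : F.toFinset.card ≤ τ)
    (hpos : ∀ m ∈ l, 0 < m.2) (hl : Seq F s0 l) (hC : fin s0 l ≤ s0 + (l.map Prod.snd).sum + C) :
    ∃ l', (l'.map Prod.snd).Perm (l.map Prod.snd) ∧ Seq F s0 l' ∧ fin s0 l' ≤ fin s0 l ∧
      NCs (cB τ (τ + C)) l' := by
  cases l with
  | nil => 
    refine ⟨[], by simp, trivial, le_rfl, ?_⟩
    intro U V h x y _
    obtain ⟨rfl, rfl⟩ := List.append_eq_nil_iff.mp h.symm
    left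
    simp [cB]
  | cons m l =>
    obtain ⟨h1, h2, h3, h4⟩ := hl
    have hs : Seq F m.1 (m :: l) := ⟨le_rfl, h2, h3, h4⟩
    obtain ⟨g1, g2, g3, g4, g5⟩ := toMv_spec hpos hs h2
    have hfin : fin m.1 (m :: l) = fin s0 (m :: l) := rfl
    rw [hfin] at g2 g5
    obtain ⟨l', k1, k2, k3⟩ := near (τ := τ) (D := τ + C) (by rw [card_Fz]; exact hF) g3 g1 (by
      rw [card_Fz]; omega)
    obtain ⟨j1, j2, j3⟩ := fromMv_spec h1 k2
    have hperm : ((fromMv m.1 l').map Prod.snd).Perm ((m :: l).map Prod.snd) := by
      rw [j3, ← g4]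
      exact (k1.filter _).map _
    refine ⟨fromMv m.1 l', hperm, j1, ?_, ?_⟩
    · have := j2 (by
        intro h
        rw [h] at hperm
        have := hperm.length_eq
        simp at this)
      rw [len_perm k1] at this
      omega
    · intro U V h x y hxy
      obtain ⟨U', V', e1, e2, e3⟩ := fromMv_split h
      rw [← e2, ← e3, count_true_eq, count_true_eq]
      exact k3 U' V' e1 x y hxy

/-- Idle time of total length at most twice the number of forbidden times is always enough. -/
theorem exists_seq (F : List ℕ) : ∀ (p : List ℕ) (t : ℕ), (∀ x ∈ p, 0 < x) →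
    ∃ l, l.map Prod.snd = p ∧ Seq F t l ∧ fin t l ≤ t + p.sum +
      (F.toFinset.filter (fun f => t ≤ f)).card + (F.toFinset.filter (fun f => t < f)).card := by
  intro p
  induction p with
  | nil =>
    intro t _
    refine ⟨[], rfl, trivial, ?_⟩
    change t ≤ _
    omega
  | cons a p ih =>
    intro t hpos
    have ha := hpos a (by simp)
    have hex : ∃ d, t + d ∉ F ∧ t + d + a ∉ F := by
      refine ⟨F.sum + 1, ?_, ?_⟩
      · intro h
        have := List.single_le_sum (fun _ _ => Nat.zero_le _) _ h
        omega
      · intro h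
        have := List.single_le_sum (fun _ _ => Nat.zero_le _) _ h
        omega
    classical
    set d := Nat.find hex with hd
    obtain ⟨h1, h2⟩ := Nat.find_spec hex
    rw [← hd] at h1 h2
    obtain ⟨l, e, hl, hf⟩ := ih (t + d + a) (fun x hx => hpos x (by simp [hx]))
    refine ⟨(t + d, a) :: l, by simp [e], ⟨by simp, h1, h2, hl⟩, ?_⟩
    change fin (t + d + a) l ≤ _
    -- the values skipped
    have hskip : d ≤ (F.toFinset.filter (fun f => t ≤ f ∧ f < t + d)).card +
        (F.toFinset.filter (fun f => t + a ≤ f ∧ f < t + d + a)).card := by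
      have h3 : (range d).card ≤ ((F.toFinset.filter (fun f => t ≤ f ∧ f < t + d)).image
          (fun f => f - t) ∪ (F.toFinset.filter (fun f => t + a ≤ f ∧ f < t + d + a)).image
          (fun f => f - a - t)).card := by
        apply Finset.card_le_card
        intro i hi
        rw [Finset.mem_range] at hi
        have := Nat.find_min hex (m := i) hi
        rw [not_and_or, not_not, not_not] at this
        rw [Finset.mem_union, Finset.mem_image, Finset.mem_image]
        rcases this with h | h
        · left
          exact ⟨t + i, by simp [h]; omega, by omega⟩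
        · right
          exact ⟨t + i + a, by simp [h]; omega, by omega⟩
      rw [Finset.card_range] at h3
      exact h3.trans ((Finset.card_union_le _ _).trans
        (Nat.add_le_add Finset.card_image_le Finset.card_image_le))
    have h4 : (F.toFinset.filter (fun f => t ≤ f ∧ f < t + d)).card +
        (F.toFinset.filter (fun f => t + d + a ≤ f)).card ≤
        (F.toFinset.filter (fun f => t ≤ f)).card := by
      rw [← Finset.card_union_of_disjoint]
      · apply Finset.card_le_card
        intro f hf
        rw [Finset.mem_union, Finset.mem_filter, Finset.mem_filter] at hf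
        rw [Finset.mem_filter]
        rcases hf with hf | hf
        · exact ⟨hf.1, hf.2.1⟩
        · exact ⟨hf.1, by omega⟩
      · rw [Finset.disjoint_left]
        intro f hf hf'
        rw [Finset.mem_filter] at hf hf'
        omega
    have h5 : (F.toFinset.filter (fun f => t + a ≤ f ∧ f < t + d + a)).card +
        (F.toFinset.filter (fun f => t + d + a < f)).card ≤
        (F.toFinset.filter (fun f => t < f)).card := by
      rw [← Finset.card_union_of_disjoint]
      · apply Finset.card_le_card
        intro f hf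
        rw [Finset.mem_union, Finset.mem_filter, Finset.mem_filter] at hf
        rw [Finset.mem_filter]
        rcases hf with hf | hf
        · exact ⟨hf.1, by omega⟩
        · exact ⟨hf.1, by omega⟩
      · rw [Finset.disjoint_left]
        intro f hf hf'
        rw [Finset.mem_filter] at hf hf'
        omega
    rw [List.sum_cons]
    omega

theorem av_of_inner {F : Finset ℤ} {l : List Mv} : ∀ {t : ℤ}, t ∉ F → t + (len l : ℕ) ∉ F →
    Inner F t (l.map Prod.snd) → Av F t l := by
  induction l with
  | nil => intro t h _ _; exact h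
  | cons m l ih =>
    intro t h1 h2 h3
    refine ⟨h1, ?_⟩
    rw [len_cons] at h2
    apply ih
    · rcases eq_or_ne l [] with rfl | hl
      · simpa using h2
      · have := h3 [m.2] (l.map Prod.snd) rfl (by simp) (by simpa using hl)
        simpa using this
    · rwa [show (t + ((m.2 + len l : ℕ) : ℤ)) = t + m.2 + (len l : ℕ) by omega] at h2
    · intro U V e hU hV
      have := h3 (m.2 :: U) V (by simp [e]) (by simp) hV
      simp only [List.sum_cons] at this
      rwa [show (t + ((m.2 + U.sum : ℕ) : ℤ)) = t + m.2 + (U.sum : ℕ) by omega] at this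

/-- The first time from `x` on which is not forbidden. -/
def IsFree (F : List ℕ) (x y : ℕ) : Prop := x ≤ y ∧ y ∉ F ∧ ∀ z, x ≤ z → z < y → z ∈ F

/-- If there are more sizes than forbidden times, then the obvious lower bound is attained. -/
theorem many_sizes {F : List ℕ} {p : List ℕ} {s0 s1 e : ℕ} (hpos : ∀ x ∈ p, 0 < x)
    (hk : F.toFinset.card < p.toFinset.card) (h1 : IsFree F s0 s1) (h2 : IsFree F (s1 + p.sum) e) :
    (∃ l, (l.map Prod.snd).Perm p ∧ Seq F s0 l ∧ fin s0 l = e) ∧
      ∀ l, (l.map Prod.snd).Perm p → Seq F s0 l → e ≤ fin s0 l := by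
  have hlow : ∀ l, (l.map Prod.snd).Perm p → Seq F s0 l → e ≤ fin s0 l := by
    intro l hp hl
    cases l with
    | nil =>
      exfalso
      have : p = [] := by simpa using hp
      rw [this] at hk
      simp at hk
    | cons m l =>
      have g1 : s1 ≤ m.1 := by
        by_contra hcon
        exact hl.2.1 (h1.2.2 m.1 hl.1 (by omega))
      have g2 : m.1 + p.sum ≤ fin s0 (m :: l) := by
        have hs : Seq F m.1 (m :: l) := ⟨le_rfl, hl.2.1, hl.2.2.1, hl.2.2.2⟩
        have := hs.le_fin
        rw [hp.sum_eq] at this
        exact this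
      by_contra hcon
      exact hl.fin_notMem (by simp) (h2.2.2 _ (by omega) (by omega))
  refine ⟨?_, hlow⟩
  have hbase : ∀ (Z : List Mv), (∀ m ∈ Z, 0 < m.2) → (((Z.filter (fun m => m.1)).map Prod.snd).Perm p) →
      s1 + len Z = e → Inner (Fz F) s1 (Z.map Prod.snd) →
      ∃ l, (l.map Prod.snd).Perm p ∧ Seq F s0 l ∧ fin s0 l = e := by
    intro Z _ hZ hlen hin
    have hav : Av (Fz F) s1 Z := by
      apply av_of_inner
      · exact fun h => h1.2.1 (mem_Fz.mp h)
      · intro h
        apply h2.2.1
        rw [← mem_Fz, ← hlen]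
        push_cast
        exact h
      · exact hin
    obtain ⟨g1, g2, g3⟩ := fromMv_spec h1.1 hav
    have hp : ((fromMv s1 Z).map Prod.snd).Perm p := by rw [g3]; exact hZ
    refine ⟨fromMv s1 Z, hp, g1, ?_⟩
    have g4 := hlow _ hp g1
    have g5 := g2 (by
      intro h
      rw [h] at hp
      have : p = [] := by simpa using hp
      rw [this] at hk
      simp at hk)
    omega
  have hwin : ∀ S, (win (Fz F) s1 S).card ≤ F.toFinset.card := by
    intro S
    rw [← card_Fz]
    exact Finset.card_filter_le _ _
  obtain ⟨δ, hδ⟩ : ∃ δ, e = s1 + p.sum + δ := ⟨e - (s1 + p.sum), by have := h2.1; omega⟩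
  rcases Nat.eq_zero_or_pos δ with h0 | h0
  · obtain ⟨l, hl, hin⟩ := grasshopper _ (p : Multiset ℕ) rfl (by simpa using hpos) (Fz F) s1 (by
      have := hwin (p : Multiset ℕ).sum
      have e1 : (p : Multiset ℕ).toFinset = p.toFinset := by simp
      rw [e1]
      omega)
    have hlp : l.Perm p := Multiset.coe_eq_coe.mp hl
    have e2 : ((l.map (fun x => ((true, x) : Mv))).map Prod.snd) = l := by simp
    refine hbase (l.map (fun x => ((true, x) : Mv))) ?_ ?_ ?_ ?_
    · intro m hm
      rw [List.mem_map] at hm
      obtain ⟨x, hx, rfl⟩ := hm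
      exact hpos x (hlp.mem_iff.mp hx)
    · have : (l.map (fun x => ((true, x) : Mv))).filter (fun m => m.1) =
          l.map (fun x => ((true, x) : Mv)) := by
        rw [List.filter_eq_self]
        intro m hm
        rw [List.mem_map] at hm
        obtain ⟨x, _, rfl⟩ := hm
        rfl
      rw [this, e2]
      exact hlp
    · rw [len, e2, hlp.sum_eq]
      omega
    · rw [e2]; exact hin
  · obtain ⟨l, hl, hin⟩ := grasshopper _ ((δ :: p : List ℕ) : Multiset ℕ) rfl (by
      intro x hx
      simp at hx
      rcases hx with rfl | hx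
      · exact h0
      · exact hpos x hx) (Fz F) s1 (by
      have := hwin ((δ :: p : List ℕ) : Multiset ℕ).sum
      have e1 : p.toFinset.card ≤ ((δ :: p : List ℕ) : Multiset ℕ).toFinset.card := by
        apply Finset.card_le_card
        intro x hx
        simp at hx ⊢
        exact Or.inr hx
      omega)
    have hlp : l.Perm (δ :: p) := Multiset.coe_eq_coe.mp hl
    obtain ⟨U, V, rfl⟩ := List.append_of_mem (hlp.mem_iff.mpr (by simp : δ ∈ δ :: p))
    have hUV : (U ++ V).Perm p := by
      have := (List.perm_middle (a := δ) (l₁ := U) (l₂ := V)).symm.trans hlp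
      exact List.Perm.cons_inv this
    have e2 : (((U.map (fun x => ((true, x) : Mv))) ++ (false, δ) ::
        (V.map (fun x => ((true, x) : Mv)))).map Prod.snd) = U ++ δ :: V := by simp
    have hft : ∀ W : List ℕ, (W.map (fun x => ((true, x) : Mv))).filter (fun m => m.1) =
          W.map (fun x => ((true, x) : Mv)) := by
      intro W
      rw [List.filter_eq_self]
      intro m hm
      rw [List.mem_map] at hm
      obtain ⟨x, _, rfl⟩ := hm
      rfl
    refine hbase ((U.map (fun x => ((true, x) : Mv))) ++ (false, δ) ::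
      (V.map (fun x => ((true, x) : Mv)))) ?_ ?_ ?_ ?_
    · intro m hm
      rw [List.mem_append, List.mem_cons, List.mem_map, List.mem_map] at hm
      rcases hm with ⟨x, hx, rfl⟩ | rfl | ⟨x, hx, rfl⟩
      · exact hpos x (hUV.mem_iff.mp (by simp [hx]))
      · exact h0
      · exact hpos x (hUV.mem_iff.mp (by simp [hx]))
    · rw [List.filter_append, List.filter_cons_of_neg (by simp), hft, hft, ← List.map_append]
      simpa using hUV
    · rw [len, e2, List.sum_append, List.sum_cons]
      have := hUV.sum_eq
      rw [List.sum_append] at this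
      omega
    · rw [e2]; exact hin

end Pool.Agent.W990.FS
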